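import Mathlib

set_option autoImplicit false

open Metric Set Filter Topology Function

namespace Pool.Agent.Squeeze

/-- the derivative of an injective holomorphic function of one variable does not vanish -/
theorem deriv_ne_zero_of_injOn {U : Set ℂ} (hU : IsOpen U) {f : ℂ → ℂ}
    (hf : DifferentiableOn ℂ f U) (hi : InjOn f U) {a : ℂ} (ha : a ∈ U) : deriv f a ≠ 0 := by
  intro h0
  obtain ⟨r, hr, hrU⟩ := Metric.isOpen_iff.1 hU a ha
  have hfa : AnalyticOnNhd ℂ f (ball a r) := (hf.mono hrU).analyticOnNhd isOpen_ball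
  have hiB : InjOn f (ball a r) := hi.mono hrU
  have hpc : IsPreconnected (ball a r) := (convex_ball a r).isPreconnected
  have haB : a ∈ ball a r := mem_ball_self hr
  -- a second point
  have hne : ∀ ε > 0, ∃ z ∈ ball a ε, z ≠ a := by
    intro ε hε
    refine ⟨a + ((ε / 2 : ℝ) : ℂ), ?_, ?_⟩
    · rw [mem_ball, dist_eq_norm, add_sub_cancel_left, Complex.norm_real,
        Real.norm_of_nonneg (by positivity)]
      linarith
    · intro h
      have : ((ε / 2 : ℝ) : ℂ) = 0 := by simpa using h
      have h2 : ε / 2 = 0 := by exact_mod_cast this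
      linarith
  have hopen : ∀ s ⊆ ball a r, IsOpen s → IsOpen (f '' s) := by
    rcases hfa.is_constant_or_isOpen hpc with ⟨w, hw⟩ | h
    · exfalso
      obtain ⟨z, hz, hza⟩ := hne r hr
      exact hza (hiB hz haB ((hw z hz).trans (hw a haB).symm))
    · exact h
  -- derivative is nonzero in a punctured neighbourhood
  have hder : AnalyticAt ℂ (deriv f) a := (hfa a haB).deriv
  have hpun : ∀ᶠ z in 𝓝[≠] a, deriv f z ≠ 0 := by
    rcases hder.eventually_eq_zero_or_eventually_ne_zero with h | h
    · exfalso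
      obtain ⟨ε, hε, hεB⟩ := Metric.eventually_nhds_iff_ball.1 (h.and (isOpen_ball.mem_nhds haB))
      obtain ⟨z, hz, hza⟩ := hne ε hε
      have hc : f z = f a := by
        refine (convex_ball a ε).is_const_of_fderivWithin_eq_zero (𝕜 := ℂ) (f := f)
          (fun w hw => (hfa w (hεB w hw).2).differentiableAt.differentiableWithinAt) ?_ hz
          (mem_ball_self hε)
        intro w hw
        rw [fderivWithin_of_isOpen isOpen_ball hw]
        ext
        simpa using (hεB w hw).1
      exact hza (hiB (hεB z hz).2 haB hc)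
    · exact h
  rw [eventually_nhdsWithin_iff] at hpun
  obtain ⟨ε, hε, hεB⟩ := Metric.eventually_nhds_iff_ball.1 (hpun.and (isOpen_ball.mem_nhds haB))
  have hsub : ball a ε ⊆ ball a r := fun z hz => (hεB z hz).2
  set V := f '' ball a ε with hV
  have hVo : IsOpen V := hopen _ hsub isOpen_ball
  set g : ℂ → ℂ := invFunOn f (ball a ε) with hg
  have hgl : ∀ z ∈ ball a ε, g (f z) = z := fun z hz =>
    (hiB.mono hsub).leftInvOn_invFunOn hz
  have hgc : ∀ z ∈ ball a ε, ContinuousAt g (f z) := by
    intro z hz W hW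
    rw [hgl z hz] at hW
    obtain ⟨W', hW'W, hW'o, hzW'⟩ := _root_.mem_nhds_iff.1 hW
    have h1 : IsOpen (f '' (W' ∩ ball a ε)) := hopen _ (inter_subset_right.trans hsub) (hW'o.inter isOpen_ball)
    rw [Filter.mem_map]
    refine mem_of_superset (h1.mem_nhds ⟨z, ⟨hzW', hz⟩, rfl⟩) ?_
    rintro _ ⟨w, ⟨hw1, hw2⟩, rfl⟩
    rw [mem_preimage, hgl w hw2]
    exact hW'W hw1
  have hgd : DifferentiableOn ℂ g V := by
    rw [← Complex.differentiableOn_compl_singleton_and_continuousAt_iff
      (hVo.mem_nhds ⟨a, mem_ball_self hε, rfl⟩)]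
    refine ⟨?_, hgc a (mem_ball_self hε)⟩
    rintro _ ⟨⟨z, hz, rfl⟩, hza⟩
    have hza' : z ≠ a := fun h => hza (by rw [h]; rfl)
    have h1 : HasDerivAt f (deriv f z) (g (f z)) := by
      rw [hgl z hz]; exact (hfa z (hsub hz)).differentiableAt.hasDerivAt
    refine (HasDerivAt.of_local_left_inverse (hgc z hz) h1 ((hεB z hz).1 hza') ?_).differentiableAt.differentiableWithinAt
    filter_upwards [hVo.mem_nhds ⟨z, hz, rfl⟩]
    rintro _ ⟨w, hw, rfl⟩
    rw [hgl w hw]
  have h1 : HasDerivAt g (deriv g (f a)) (f a) :=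
    ((hgd _ ⟨a, mem_ball_self hε, rfl⟩).differentiableAt (hVo.mem_nhds ⟨a, mem_ball_self hε, rfl⟩)).hasDerivAt
  have h2 : HasDerivAt f 0 a := by
    rw [← h0]; exact (hfa a haB).differentiableAt.hasDerivAt
  have h3 := h1.comp a h2
  have h4 : HasDerivAt (g ∘ f) 1 a := by
    refine (hasDerivAt_id a).congr_of_eventuallyEq ?_
    filter_upwards [ball_mem_nhds a hε] with z hz
    exact hgl z hz
  have := h3.unique h4
  simp at this

end Pool.Agent.Squeeze
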