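import Mathlib

set_option autoImplicit false

open Metric Set Filter MeasureTheory Topology
open scoped Real Interval

namespace Pool.Agent.Squeeze

variable {E F : Type} [NormedAddCommGroup E] [NormedSpace ℂ E]
  [NormedAddCommGroup F] [NormedSpace ℂ F]

lemma hasDerivAt_line (x v : E) (t : ℂ) : HasDerivAt (fun z : ℂ => x + z • v) v t := by
  simpa using ((hasDerivAt_id t).smul_const v).const_add x

lemma differentiableAt_line {U : Set E} {f : E → F} (hf : DifferentiableOn ℂ f U) (hU : IsOpen U)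
    {x v : E} {t : ℂ} (h : x + t • v ∈ U) :
    DifferentiableAt ℂ (fun z : ℂ => f (x + z • v)) t := by
  have h1 : DifferentiableAt ℂ f (x + t • v) := (hf _ h).differentiableAt (hU.mem_nhds h)
  exact h1.comp t (hasDerivAt_line x v t).differentiableAt

lemma deriv_line {U : Set E} {f : E → F} (hf : DifferentiableOn ℂ f U) (hU : IsOpen U)
    {x v : E} {t : ℂ} (h : x + t • v ∈ U) :
    deriv (fun z : ℂ => f (x + z • v)) t = fderiv ℂ f (x + t • v) v := by
  have h1 : DifferentiableAt ℂ f (x + t • v) := (hf _ h).differentiableAt (hU.mem_nhds h)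
  exact (h1.hasFDerivAt.comp_hasDerivAt t (hasDerivAt_line x v t)).deriv

lemma deriv_line_zero {U : Set E} {f : E → F} (hf : DifferentiableOn ℂ f U) (hU : IsOpen U)
    {x v : E} (h : x ∈ U) :
    deriv (fun z : ℂ => f (x + z • v)) 0 = fderiv ℂ f x v := by
  have := deriv_line (v := v) (t := 0) hf hU (by simpa using h)
  simpa using this

variable [FiniteDimensional ℂ E] [FiniteDimensional ℂ F]

omit [FiniteDimensional ℂ E] in
/-- Cauchy formula for a directional derivative. -/
lemma fderiv_apply_eq {U : Set E} {f : E → F} (hf : DifferentiableOn ℂ f U) (hU : IsOpen U)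
    {x v : E} (h : ∀ t : ℂ, ‖t‖ ≤ 1 → x + t • v ∈ U) :
    fderiv ℂ f x v = (2 * π * Complex.I : ℂ)⁻¹ • ∮ z in C(0, 1), (1 / (z - 0) ^ 2) • f (x + z • v) := by
  have h2 : DifferentiableOn ℂ (fun z : ℂ => f (x + z • v)) (closedBall 0 1) := fun t ht =>
    (differentiableAt_line hf hU (h t (by simpa using ht))).differentiableWithinAt
  have h3 := h2.deriv_eq_smul_circleIntegral one_pos
  rw [h3, smul_smul, inv_mul_cancel₀ Complex.two_pi_I_ne_zero, one_smul,
    deriv_line_zero hf hU (by simpa using h 0 (by simp))]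

omit [FiniteDimensional ℂ E] [FiniteDimensional ℂ F] in
lemma norm_fderiv_apply_le {U : Set E} {f : E → F} (hf : DifferentiableOn ℂ f U) (hU : IsOpen U)
    {x v : E} (h : ∀ t : ℂ, ‖t‖ ≤ 1 → x + t • v ∈ U) {C : ℝ}
    (hC : ∀ t : ℂ, ‖t‖ ≤ 1 → ‖f (x + t • v)‖ ≤ C) :
    ‖fderiv ℂ f x v‖ ≤ C := by
  have h2 : DiffContOnCl ℂ (fun z : ℂ => f (x + z • v)) (ball 0 1) := by
    refine DifferentiableOn.diffContOnCl ?_
    intro t ht
    rw [closure_ball _ one_ne_zero, mem_closedBall_zero_iff] at ht
    exact (differentiableAt_line hf hU (h t ht)).differentiableWithinAt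
  have h3 := Complex.norm_deriv_le_of_forall_mem_sphere_norm_le one_pos h2
    (C := C) (fun z hz => hC z (by simpa using (mem_sphere_zero_iff_norm.1 hz).le))
  rw [deriv_line_zero hf hU (by simpa using h 0 (by simp))] at h3
  simpa using h3

theorem differentiableOn_fderiv_apply {U : Set E} {f : E → F} (hf : DifferentiableOn ℂ f U)
    (hU : IsOpen U) (v : E) : DifferentiableOn ℂ (fun x => fderiv ℂ f x v) U := by
  intro x0 hx0
  apply DifferentiableAt.differentiableWithinAt
  have : ProperSpace E := FiniteDimensional.proper ℂ E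
  have : ProperSpace F := FiniteDimensional.proper ℂ F
  have : ProperSpace (E →L[ℂ] F) := FiniteDimensional.proper ℂ _
  obtain ⟨ρ, hρ, hρU⟩ := Metric.nhds_basis_closedBall.mem_iff.1 (hU.mem_nhds hx0)
  have hcont : ContinuousOn f (closedBall x0 ρ) := hf.continuousOn.mono hρU
  obtain ⟨C, hC⟩ := (isCompact_closedBall x0 ρ).exists_bound_of_continuousOn hcont
  have hC0 : 0 ≤ C := (norm_nonneg _).trans (hC x0 (mem_closedBall_self hρ.le))
  set r := ρ / 3 with hr
  have hr0 : 0 < r := by positivity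
  -- reduce to small v
  suffices H : ∀ v : E, ‖v‖ ≤ r → DifferentiableAt ℂ (fun x => fderiv ℂ f x v) x0 by
    rcases eq_or_ne v 0 with rfl | hv
    · simp
    · have hv' : 0 < ‖v‖ := norm_pos_iff.2 hv
      have h1 := H (((r / ‖v‖ : ℝ) : ℂ) • v) (by
        rw [norm_smul, Complex.norm_real, Real.norm_of_nonneg (by positivity)]
        rw [div_mul_cancel₀ _ hv'.ne'])
      have h2 := h1.const_smul (((‖v‖ / r : ℝ) : ℂ))
      refine h2.congr_of_eventuallyEq (Eventually.of_forall fun x => ?_)
      simp only [Pi.smul_apply, map_smul, smul_smul]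
      rw [← Complex.ofReal_mul]
      have : ‖v‖ / r * (r / ‖v‖) = 1 := by field_simp
      rw [this]; simp
  -- translations stay in U
  have hmem : ∀ (s : ℝ) (y : E), y ∈ closedBall x0 (s * r) → ∀ w : E, ‖w‖ ≤ r → ∀ t : ℂ, ‖t‖ ≤ 1 →
      y + t • w ∈ closedBall x0 ((s + 1) * r) := by
    intro s y hy w hw t ht
    rw [mem_closedBall, dist_eq_norm] at hy ⊢
    calc ‖y + t • w - x0‖ = ‖(y - x0) + t • w‖ := by congr 1; abel
      _ ≤ ‖y - x0‖ + ‖t • w‖ := norm_add_le _ _
      _ ≤ s * r + 1 * r := by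
          rw [norm_smul]
          exact add_le_add hy (mul_le_mul ht hw (norm_nonneg _) zero_le_one)
      _ = (s + 1) * r := by ring
  -- bound on the derivative
  have hbd : ∀ y ∈ closedBall x0 (2 * r), ‖fderiv ℂ f y‖ ≤ C / r := by
    intro y hy
    have hsm : ∀ w : E, ‖w‖ ≤ r → ‖fderiv ℂ f y w‖ ≤ C := by
      intro w hw
      have h3 : ∀ t : ℂ, ‖t‖ ≤ 1 → y + t • w ∈ closedBall x0 ρ := by
        intro t ht
        have := hmem 2 y hy w hw t ht
        have e : (2 + 1) * r = ρ := by rw [hr]; ring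
        rwa [e] at this
      exact norm_fderiv_apply_le hf hU (fun t ht => hρU (h3 t ht)) (fun t ht => hC _ (h3 t ht))
    refine ContinuousLinearMap.opNorm_le_bound _ (by positivity) fun w => ?_
    rcases eq_or_ne w 0 with rfl | hw
    · simp
    · have hw' : 0 < ‖w‖ := norm_pos_iff.2 hw
      have h1 := hsm (((r / ‖w‖ : ℝ) : ℂ) • w) (by
        rw [norm_smul, Complex.norm_real, Real.norm_of_nonneg (by positivity)]
        rw [div_mul_cancel₀ _ hw'.ne'])
      rw [map_smul, norm_smul, Complex.norm_real, Real.norm_of_nonneg (by positivity)] at h1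
      rw [div_mul_eq_mul_div, le_div_iff₀ hr0]
      rw [div_mul_eq_mul_div, div_le_iff₀ hw'] at h1
      linarith
  intro v hv
  have hball : ∀ x ∈ ball x0 r, x ∈ closedBall x0 (1 * r) := fun x hx => by
    rw [one_mul]; exact ball_subset_closedBall hx
  have hmem2 : ∀ x ∈ ball x0 r, ∀ t : ℂ, ‖t‖ ≤ 1 → x + t • v ∈ closedBall x0 (2 * r) := by
    intro x hx t ht
    have := hmem 1 x (hball x hx) v hv t ht
    have e : (1 + 1) * r = 2 * r := by ring
    rwa [e] at this
  have hmemU : ∀ x ∈ ball x0 r, ∀ t : ℂ, ‖t‖ ≤ 1 → x + t • v ∈ U := by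
    intro x hx t ht
    exact hρU (closedBall_subset_closedBall (by rw [hr]; linarith) (hmem2 x hx t ht))
  have hform : ∀ x ∈ ball x0 r, fderiv ℂ f x v =
      (2 * π * Complex.I : ℂ)⁻¹ • ∮ z in C(0, 1), (1 / (z - 0) ^ 2) • f (x + z • v) :=
    fun x hx => fderiv_apply_eq hf hU (hmemU x hx)
  have hcm : ∀ θ : ℝ, ‖circleMap 0 1 θ‖ ≤ 1 := fun θ => by simp
  have hcoef : Continuous fun θ : ℝ => deriv (circleMap 0 1) θ • (1 / (circleMap 0 1 θ - 0) ^ 2) := by
    have h1 : Continuous fun θ : ℝ => circleMap 0 1 θ := continuous_circleMap 0 1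
    have h2 : ∀ θ : ℝ, (circleMap 0 1 θ - 0) ^ 2 ≠ 0 := fun θ => by
      rw [sub_zero]
      exact pow_ne_zero _ (by simp [circleMap])
    have h3 : Continuous fun θ : ℝ => deriv (circleMap 0 1) θ := by
      simp only [deriv_circleMap]
      exact h1.mul continuous_const
    exact h3.smul (continuous_const.div₀ ((h1.sub continuous_const).pow 2) h2)
  have hcoefn : ∀ θ : ℝ, ‖deriv (circleMap 0 1) θ • (1 / (circleMap 0 1 θ - 0) ^ 2)‖ = 1 := by
    intro θ
    rw [norm_smul, deriv_circleMap]
    simp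
  have hcontx : ∀ x ∈ ball x0 r, Continuous fun θ : ℝ => f (x + circleMap 0 1 θ • v) := by
    intro x hx
    refine hf.continuousOn.comp_continuous (by fun_prop) fun θ => hmemU x hx _ (hcm θ)
  have key : DifferentiableAt ℂ (fun x => ∮ z in C(0, 1), (1 / (z - 0) ^ 2) • f (x + z • v)) x0 := by
    unfold circleIntegral
    refine HasFDerivAt.differentiableAt (f' := ∫ θ in (0:ℝ)..2 * π,
      (deriv (circleMap 0 1) θ • (1 / (circleMap 0 1 θ - 0) ^ 2)) • fderiv ℂ f (x0 + circleMap 0 1 θ • v)) ?_
    refine intervalIntegral.hasFDerivAt_integral_of_dominated_of_fderiv_le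
      (F := fun x θ => deriv (circleMap 0 1) θ • (1 / (circleMap 0 1 θ - 0) ^ 2) • f (x + circleMap 0 1 θ • v))
      (F' := fun x θ => (deriv (circleMap 0 1) θ • (1 / (circleMap 0 1 θ - 0) ^ 2)) • fderiv ℂ f (x + circleMap 0 1 θ • v))
      (bound := fun _ => C / r) (ball_mem_nhds x0 hr0) ?_ ?_ ?_ ?_ ?_ ?_
    · filter_upwards [ball_mem_nhds x0 hr0] with x hx
      have : Continuous fun θ : ℝ => deriv (circleMap 0 1) θ • (1 / (circleMap 0 1 θ - 0) ^ 2) •
          f (x + circleMap 0 1 θ • v) :=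
        (hcoef.smul (hcontx x hx)).congr fun θ => smul_assoc _ _ _
      exact this.aestronglyMeasurable
    · apply Continuous.intervalIntegrable
      exact (hcoef.smul (hcontx x0 (mem_ball_self hr0))).congr fun θ => smul_assoc _ _ _
    · borelize E
      borelize (E →L[ℂ] F)
      have h1 : Measurable fun θ : ℝ => fderiv ℂ f (x0 + circleMap 0 1 θ • v) :=
        (measurable_fderiv ℂ f).comp (by fun_prop : Continuous fun θ : ℝ => x0 + circleMap 0 1 θ • v).measurable
      exact hcoef.aestronglyMeasurable.smul h1.aestronglyMeasurable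
    · refine Eventually.of_forall fun θ _ x hx => ?_
      rw [norm_smul, hcoefn, one_mul]
      exact hbd _ (hmem2 x hx _ (hcm θ))
    · exact intervalIntegrable_const
    · refine Eventually.of_forall fun θ _ x hx => ?_
      have h1 : DifferentiableAt ℂ f (x + circleMap 0 1 θ • v) :=
        (hf _ (hmemU x hx _ (hcm θ))).differentiableAt (hU.mem_nhds (hmemU x hx _ (hcm θ)))
      have h2 : HasFDerivAt (fun x => f (x + circleMap 0 1 θ • v)) (fderiv ℂ f (x + circleMap 0 1 θ • v)) x := by
        have h4 := h1.hasFDerivAt.comp x ((hasFDerivAt_id x).add_const (circleMap 0 1 θ • v))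
        rw [ContinuousLinearMap.comp_id] at h4
        exact h4
      have h3 := h2.const_smul (deriv (circleMap 0 1) θ • (1 / (circleMap 0 1 θ - 0) ^ 2))
      refine h3.congr_of_eventuallyEq (Eventually.of_forall fun y => ?_)
      simp only [Pi.smul_apply, smul_assoc]
  have h1 := key.const_smul ((2 * π * Complex.I : ℂ)⁻¹)
  refine h1.congr_of_eventuallyEq ?_
  filter_upwards [ball_mem_nhds x0 hr0] with x hx
  exact hform x hx

/-- complex differentiable functions on open subsets of finite dimensional spaces are smooth -/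
theorem contDiffOn_of_differentiableOn {U : Set E} (hU : IsOpen U) (n : ℕ) :
    ∀ {f : E → F}, DifferentiableOn ℂ f U → ContDiffOn ℂ n f U := by
  induction n with
  | zero =>
    intro f hf
    simpa using hf.continuousOn
  | succ n ih =>
    intro f hf
    push_cast
    rw [contDiffOn_succ_iff_fderiv_of_isOpen hU]
    refine ⟨hf, by simp, ?_⟩
    rw [contDiffOn_clm_apply]
    intro v
    exact ih (differentiableOn_fderiv_apply hf hU v)

theorem hasStrictFDerivAt {U : Set E} (hU : IsOpen U) {f : E → F} (hf : DifferentiableOn ℂ f U)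
    {x : E} (hx : x ∈ U) : HasStrictFDerivAt f (fderiv ℂ f x) x := by
  have h1 := (contDiffOn_of_differentiableOn hU 1 hf).contDiffAt (hU.mem_nhds hx)
  exact h1.hasStrictFDerivAt (by simp)

theorem differentiableOn_fderiv {U : Set E} (hU : IsOpen U) {f : E → F} (hf : DifferentiableOn ℂ f U) :
    DifferentiableOn ℂ (fderiv ℂ f) U := by
  have h1 := contDiffOn_of_differentiableOn hU 2 hf
  have h2 : ContDiffOn ℂ ((1 : ℕ) + 1) f U := by exact_mod_cast h1
  rw [contDiffOn_succ_iff_fderiv_of_isOpen hU] at h2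
  exact h2.2.2.differentiableOn (by simp)

end Pool.Agent.Squeeze
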