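import Mathlib
import Pool.Agent.Squeeze.Smooth

set_option autoImplicit false

open Metric Set Filter Topology Function

namespace Pool.Agent.Squeeze

variable {E F : Type} [NormedAddCommGroup E] [NormedSpace ℂ E] [FiniteDimensional ℂ E]
  [NormedAddCommGroup F] [NormedSpace ℂ F] [FiniteDimensional ℂ F]

/-- iterated directional derivative -/
noncomputable def dirD (v : E) (J : E → ℂ) : ℕ → E → ℂ
  | 0 => J
  | k + 1 => fun x => fderiv ℂ (dirD v J k) x v

lemma dirD_differentiableOn {U : Set E} (hU : IsOpen U) {J : E → ℂ} (hJ : DifferentiableOn ℂ J U)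
    (v : E) (k : ℕ) : DifferentiableOn ℂ (dirD v J k) U := by
  induction k with
  | zero => exact hJ
  | succ k ih => exact differentiableOn_fderiv_apply ih hU v

lemma iteratedDeriv_line {U : Set E} (hU : IsOpen U) {J : E → ℂ} (hJ : DifferentiableOn ℂ J U)
    (a v : E) (k : ℕ) : ∀ t : ℂ, a + t • v ∈ U →
      iteratedDeriv k (fun z : ℂ => J (a + z • v)) t = dirD v J k (a + t • v) := by
  induction k with
  | zero => intro t _; simp [dirD]
  | succ k ih =>
    intro t ht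
    rw [iteratedDeriv_succ]
    have h1 : ∀ᶠ z in 𝓝 t, a + z • v ∈ U := by
      have : Continuous fun z : ℂ => a + z • v := by fun_prop
      exact this.continuousAt.eventually (hU.mem_nhds ht)
    have h2 : iteratedDeriv k (fun z : ℂ => J (a + z • v)) =ᶠ[𝓝 t] fun z => dirD v J k (a + z • v) := by
      filter_upwards [h1] with z hz using ih z hz
    rw [h2.deriv_eq, deriv_line (dirD_differentiableOn hU hJ v k) hU ht]
    rfl

lemma exists_dirD_ne_zero {U : Set E} (hU : IsOpen U) {J : E → ℂ} (hJ : DifferentiableOn ℂ J U)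
    {a v : E} {ρ : ℝ} (hρU : ball a ρ ⊆ U) (hv : a + v ∈ ball a ρ) (hJv : J (a + v) ≠ 0) :
    ∃ k, dirD v J k a ≠ 0 := by
  by_contra hcon
  push Not at hcon
  have hv0 : v ≠ 0 ∨ v = 0 := (em _).symm
  rcases hv0 with hv0 | rfl
  swap
  · exact hJv (by simpa [dirD] using hcon 0)
  have hvn : 0 < ‖v‖ := norm_pos_iff.2 hv0
  have hvρ : ‖v‖ < ρ := by simpa [mem_ball, dist_eq_norm] using hv
  have hin : ∀ z ∈ ball (0 : ℂ) (ρ / ‖v‖), a + z • v ∈ U := by
    intro z hz
    apply hρU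
    rw [mem_ball_zero_iff, lt_div_iff₀ hvn] at hz
    simpa [mem_ball, dist_eq_norm, norm_smul] using hz
  have hd : DifferentiableOn ℂ (fun z : ℂ => J (a + z • v)) (ball 0 (ρ / ‖v‖)) := fun z hz =>
    (differentiableAt_line hJ hU (hin z hz)).differentiableWithinAt
  have h1 : (1 : ℂ) ∈ ball (0 : ℂ) (ρ / ‖v‖) := by
    rw [mem_ball_zero_iff, norm_one, one_lt_div hvn]; exact hvρ
  have h2 := Complex.hasSum_taylorSeries_on_ball hd h1
  have h0U : a + (0 : ℂ) • v ∈ U := hin 0 (by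
    have : 0 < ρ / ‖v‖ := div_pos (hvn.trans hvρ) hvn
    simpa using this)
  have h3 : ∀ n : ℕ, iteratedDeriv n (fun z : ℂ => J (a + z • v)) 0 = 0 := by
    intro n
    rw [iteratedDeriv_line hU hJ a v n 0 h0U]
    simpa using hcon n
  simp only [h3, smul_zero] at h2
  have h4 := h2.unique hasSum_zero
  apply hJv
  simpa using h4

/-- An injective holomorphic map in dimension at least two cannot have vanishing differential on
the (nonempty) zero set of a holomorphic function. -/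
theorem not_injOn_of_critical {U : Set E} (hU : IsOpen U) {f : E → F} (hf : DifferentiableOn ℂ f U)
    {J : E → ℂ} (hJ : DifferentiableOn ℂ J U) (hJf : ∀ x ∈ U, J x = 0 → fderiv ℂ f x = 0)
    {a : E} (ha : a ∈ U) (hJa : J a = 0) (h2 : 1 < Module.finrank ℂ E) : ¬ InjOn f U := by
  intro hi
  obtain ⟨ρ, hρ, hρU⟩ := Metric.isOpen_iff.1 hU a ha
  have haB : a ∈ ball a ρ := mem_ball_self hρ
  -- a point where `J` does not vanish
  obtain ⟨y, hy, hJy⟩ : ∃ y ∈ ball a ρ, J y ≠ 0 := by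
    by_contra hcon
    push Not at hcon
    have hc : ∀ y ∈ ball a ρ, f y = f a := by
      intro y hy
      refine (convex_ball a ρ).is_const_of_fderivWithin_eq_zero (𝕜 := ℂ) (f := f)
          (hf.mono hρU) ?_ hy haB
      intro w hw
      rw [fderivWithin_of_isOpen isOpen_ball hw]
      exact hJf w (hρU hw) (hcon w hw)
    have : Nontrivial E := Module.nontrivial_of_finrank_pos (R := ℂ) (by omega)
    obtain ⟨v, hv⟩ := exists_ne (0 : E)
    have hvn : 0 < ‖v‖ := norm_pos_iff.2 hv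
    have hmem : a + (((ρ / 2 / ‖v‖ : ℝ)) : ℂ) • v ∈ ball a ρ := by
      rw [mem_ball, dist_eq_norm, add_sub_cancel_left, norm_smul, Complex.norm_real,
        Real.norm_of_nonneg (by positivity), div_mul_cancel₀ _ hvn.ne']
      linarith
    have h3 := hi (hρU hmem) ha (hc _ hmem)
    have h4 : (((ρ / 2 / ‖v‖ : ℝ)) : ℂ) • v = 0 := by simpa using h3
    rcases smul_eq_zero.1 h4 with h5 | h5
    · have h6 : ρ / 2 / ‖v‖ = 0 := by exact_mod_cast h5
      have : 0 < ρ / 2 / ‖v‖ := by positivity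
      linarith
    · exact hv h5
  set v := y - a with hv
  have hav : a + v = y := by rw [hv]; abel
  have hv0 : v ≠ 0 := by
    intro h
    rw [h, add_zero] at hav
    rw [← hav] at hJy
    exact hJy hJa
  have hex : ∃ k, ∃ x ∈ U, J x = 0 ∧ dirD v J k x ≠ 0 := by
    obtain ⟨k, hk⟩ := exists_dirD_ne_zero hU hJ hρU (v := v) (by rw [hav]; exact hy) (by rw [hav]; exact hJy)
    exact ⟨k, a, ha, hJa, hk⟩
  classical
  obtain ⟨b, hb, hJb, hbk⟩ := Nat.find_spec hex
  have hmin : ∀ m < Nat.find hex, ∀ x ∈ U, J x = 0 → dirD v J m x = 0 := by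
    intro m hm x hx hJx
    by_contra hne
    exact Nat.find_min hex hm ⟨x, hx, hJx, hne⟩
  obtain ⟨l, hl⟩ : ∃ l, Nat.find hex = l + 1 := by
    refine Nat.exists_eq_succ_of_ne_zero ?_
    intro h0
    rw [h0] at hbk
    exact hbk (by simpa [dirD] using hJb)
  rw [hl] at hbk hmin
  set q := dirD v J l with hq
  have hqd : DifferentiableOn ℂ q U := dirD_differentiableOn hU hJ v l
  have hq0 : ∀ x ∈ U, J x = 0 → q x = 0 := fun x hx hx0 => hmin l (Nat.lt_succ_self l) x hx hx0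
  have hqv : fderiv ℂ q b v ≠ 0 := hbk
  -- second direction
  obtain ⟨w, hw⟩ := exists_linearIndependent_pair_of_one_lt_finrank (R := ℂ) h2 hv0
  -- the two-dimensional slice
  set A : ℂ × ℂ →L[ℂ] E := (ContinuousLinearMap.fst ℂ ℂ ℂ).smulRight w +
    (ContinuousLinearMap.snd ℂ ℂ ℂ).smulRight v with hA
  have hAap : ∀ p : ℂ × ℂ, A p = p.1 • w + p.2 • v := fun p => by simp [hA]
  set Q : ℂ × ℂ → ℂ := fun p => q (b + A p) with hQ
  have hsl : HasStrictFDerivAt (fun p : ℂ × ℂ => b + A p) A (0, 0) :=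
    A.hasStrictFDerivAt.const_add b
  have hb0 : b + A (0, 0) = b := by simp [hAap]
  have hQd : HasStrictFDerivAt Q ((fderiv ℂ q b).comp A) (0, 0) := by
    have h3 : HasStrictFDerivAt q (fderiv ℂ q b) (b + A (0, 0)) := by
      rw [hb0]; exact hasStrictFDerivAt hU hqd hb
    exact h3.comp (0, 0) hsl
  have hinv : (((fderiv ℂ q b).comp A) ∘L .inr ℂ ℂ ℂ).IsInvertible := by
    set c := fderiv ℂ q b v with hc
    have : (((fderiv ℂ q b).comp A) ∘L .inr ℂ ℂ ℂ) = (ContinuousLinearEquiv.unitsEquivAut ℂ (Units.mk0 c hqv) : ℂ →L[ℂ] ℂ) := by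
      ext
      simp [hAap, hc]
    rw [this]
    exact ⟨_, rfl⟩
  set g : ℂ → ℂ := hQd.implicitFunctionOfProdDomain hinv with hg
  have hQb : Q (0, 0) = 0 := by
    rw [hQ]; simp only; rw [hb0]; exact hq0 b hb hJb
  have hev := hQd.eventually_apply_eq_iff_implicitFunctionOfProdDomain hinv
  rw [← hg, hQb] at hev
  have hg0 : g 0 = 0 := by
    have := hev.self_of_nhds
    exact (this.1 hQb)
  have hgs := hQd.hasStrictFDerivAt_implicitFunctionOfProdDomain hinv
  rw [← hg] at hgs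
  have hgc : ContinuousAt g 0 := hgs.continuousAt
  -- neighbourhoods
  have hUev : ∀ᶠ p : ℂ × ℂ in 𝓝 (0, 0), b + A p ∈ U := by
    have : ContinuousAt (fun p : ℂ × ℂ => b + A p) (0, 0) := by fun_prop
    refine this.eventually ?_
    show ∀ᶠ y in 𝓝 (b + A (0, 0)), y ∈ U
    rw [hb0]; exact hU.mem_nhds hb
  have hcomb := hev.and hUev
  obtain ⟨ε, hε, hεB⟩ := Metric.nhds_basis_closedBall.eventually_iff.1 hcomb
  have hbox : ∀ s t : ℂ, ‖s‖ ≤ ε → ‖t‖ ≤ ε → (Q (s, t) = 0 ↔ g s = t) ∧ b + A (s, t) ∈ U := by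
    intro s t hs ht
    have : (s, t) ∈ closedBall ((0, 0) : ℂ × ℂ) ε := by
      rw [mem_closedBall, dist_eq_norm, Prod.norm_def]
      simpa using ⟨hs, ht⟩
    exact hεB this
  obtain ⟨η, hη, hηB⟩ : ∃ η > 0, ∀ s : ℂ, ‖s‖ ≤ η → ‖g s‖ < ε := by
    have h3 : ∀ᶠ s in 𝓝 (0 : ℂ), ‖g s‖ < ε := by
      have h4 : Tendsto (fun s => ‖g s‖) (𝓝 0) (𝓝 ‖g 0‖) := (hgc.norm)
      rw [hg0, norm_zero] at h4
      exact h4.eventually (gt_mem_nhds hε)
    obtain ⟨η, hη, hηB⟩ := Metric.nhds_basis_closedBall.eventually_iff.1 h3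
    exact ⟨η, hη, fun s hs => hηB (by simpa using hs)⟩
  set η₁ := min η ε with hη₁
  have hη₁0 : 0 < η₁ := lt_min hη hε
  -- the function `j`
  have hjc : ContinuousOn (fun p : ℂ × ℂ => J (b + A p)) (closedBall 0 η₁ ×ˢ closedBall 0 ε) := by
    refine hJ.continuousOn.comp (by fun_prop) ?_
    rintro ⟨s, t⟩ ⟨hs, ht⟩
    rw [mem_closedBall_zero_iff] at hs ht
    exact (hbox s t (hs.trans (min_le_right _ _)) ht).2
  have hjne : ∀ s t : ℂ, ‖s‖ ≤ η₁ → ‖t‖ = ε → J (b + A (s, t)) ≠ 0 := by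
    intro s t hs ht h0
    have h3 := hbox s t (hs.trans (min_le_right _ _)) ht.le
    have h4 : g s = t := h3.1.1 (hq0 _ h3.2 h0)
    have h5 := hηB s (hs.trans (min_le_left _ _))
    rw [h4, ht] at h5
    exact lt_irrefl _ h5
  obtain ⟨m, hm, hmB⟩ : ∃ m > 0, ∀ s t : ℂ, ‖s‖ ≤ η₁ → ‖t‖ = ε → m ≤ ‖J (b + A (s, t))‖ := by
    have hK : IsCompact (closedBall (0 : ℂ) η₁ ×ˢ sphere (0 : ℂ) ε) :=
      (isCompact_closedBall _ _).prod (isCompact_sphere _ _)
    have hKne : (closedBall (0 : ℂ) η₁ ×ˢ sphere (0 : ℂ) ε).Nonempty := by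
      refine ⟨(0, (ε : ℂ)), by simpa using hη₁0.le, ?_⟩
      simp [abs_of_pos hε]
    have hcK : ContinuousOn (fun p : ℂ × ℂ => ‖J (b + A p)‖) (closedBall (0 : ℂ) η₁ ×ˢ sphere (0 : ℂ) ε) :=
      (hjc.mono (prod_mono le_rfl sphere_subset_closedBall)).norm
    obtain ⟨p, hp, hpm⟩ := hK.exists_isMinOn hKne hcK
    refine ⟨‖J (b + A p)‖, ?_, ?_⟩
    · rw [gt_iff_lt, norm_pos_iff]
      obtain ⟨hp1, hp2⟩ := hp
      exact hjne p.1 p.2 (by simpa using hp1) (by simpa using hp2)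
    · intro s t hs ht
      exact hpm (show (s, t) ∈ _ from ⟨by simpa using hs, by simpa using ht⟩)
  obtain ⟨η₂, hη₂, hη₂B⟩ : ∃ η₂ > 0, ∀ s : ℂ, ‖s‖ < η₂ → ‖s‖ ≤ η₁ ∧ ‖J (b + A (s, 0))‖ < m := by
    have h3 : ContinuousAt (fun s : ℂ => ‖J (b + A (s, 0))‖) 0 := by
      have h4 : DifferentiableAt ℂ J (b + A ((0 : ℂ), (0 : ℂ))) := by
        rw [hb0]; exact (hJ b hb).differentiableAt (hU.mem_nhds hb)
      have h5 : ContinuousAt (fun s : ℂ => b + A (s, 0)) 0 := by fun_prop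
      exact (ContinuousAt.comp (f := fun s : ℂ => b + A (s, 0)) (g := J) h4.continuousAt h5).norm
    have h4 : ∀ᶠ s in 𝓝 (0 : ℂ), ‖J (b + A (s, 0))‖ < m := by
      refine h3.eventually (gt_mem_nhds ?_)
      show ‖J (b + A ((0 : ℂ), (0 : ℂ)))‖ < m
      rw [hb0, hJb, norm_zero]
      exact hm
    obtain ⟨η₂, hη₂, h5⟩ := Metric.eventually_nhds_iff_ball.1 (h4.and (closedBall_mem_nhds (0:ℂ) hη₁0))
    refine ⟨η₂, hη₂, fun s hs => ?_⟩
    have := h5 s (by simpa using hs)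
    exact ⟨by simpa using this.2, this.1⟩
  have hJγ : ∀ s : ℂ, ‖s‖ < η₂ → J (b + A (s, g s)) = 0 := by
    intro s hs
    obtain ⟨hs1, hs2⟩ := hη₂B s hs
    by_contra hne
    have hall : ∀ t ∈ closedBall (0 : ℂ) ε, J (b + A (s, t)) ≠ 0 := by
      intro t ht h0
      rw [mem_closedBall_zero_iff] at ht
      have h3 := hbox s t (hs1.trans (min_le_right _ _)) ht
      have h4 : g s = t := h3.1.1 (hq0 _ h3.2 h0)
      rw [h4] at hne
      exact hne h0
    have hdt : DifferentiableOn ℂ (fun t : ℂ => (J (b + A (s, t)))⁻¹) (closedBall 0 ε) := by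
      intro t ht
      have ht' := ht
      rw [mem_closedBall_zero_iff] at ht'
      have h3 := (hbox s t (hs1.trans (min_le_right _ _)) ht').2
      have h4 : DifferentiableAt ℂ J (b + A (s, t)) := (hJ _ h3).differentiableAt (hU.mem_nhds h3)
      have h5 : DifferentiableAt ℂ (fun t : ℂ => b + A (s, t)) t := by fun_prop
      have h6 : DifferentiableAt ℂ (fun t : ℂ => J (b + A (s, t))) t := 
        DifferentiableAt.comp (g := J) (f := fun t : ℂ => b + A (s, t)) t h4 h5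
      exact (h6.inv (hall t ht)).differentiableWithinAt
    have hdc : DiffContOnCl ℂ (fun t : ℂ => (J (b + A (s, t)))⁻¹) (ball 0 ε) := by
      refine DifferentiableOn.diffContOnCl ?_
      rw [closure_ball _ hε.ne']
      exact hdt
    have h7 := Complex.norm_le_of_forall_mem_frontier_norm_le (C := m⁻¹) isBounded_ball hdc (by
      intro t ht
      rw [frontier_ball _ hε.ne', mem_sphere_zero_iff_norm] at ht
      rw [norm_inv]
      exact inv_anti₀ hm (hmB s t hs1 ht)) (z := 0) (subset_closure (mem_ball_self hε))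
    rw [norm_inv] at h7
    have h8 : 0 < ‖J (b + A (s, 0))‖ := norm_pos_iff.2 (hall 0 (by simpa using hε.le))
    have h9 := (inv_le_inv₀ h8 hm).1 h7
    linarith
  -- Lipschitz bound for `g`
  obtain ⟨K, S, hS, hK⟩ := hgs.exists_lipschitzOnWith
  obtain ⟨η₃, hη₃, hη₃B⟩ := Metric.mem_nhds_iff.1 hS
  simp only at hη₃B
  set η₄ := min η₂ η₃ with hη₄
  have hη₄0 : 0 < η₄ := lt_min hη₂ hη₃
  set γ : ℂ → E := fun s => b + A (s, g s) with hγ
  have hγL : ∀ s ∈ ball (0 : ℂ) η₄, ∀ s' ∈ ball (0 : ℂ) η₄, ‖γ s - γ s'‖ ≤ (‖w‖ + K * ‖v‖) * ‖s - s'‖ := by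
    intro s hs s' hs'
    have h3 : γ s - γ s' = (s - s') • w + (g s - g s') • v := by
      simp only [hγ, hAap]
      rw [sub_smul, sub_smul]; abel
    have h4 : ‖g s - g s'‖ ≤ K * ‖s - s'‖ := by
      have := hK.dist_le_mul s (hη₃B (ball_subset_ball (min_le_right _ _) hs)) s'
        (hη₃B (ball_subset_ball (min_le_right _ _) hs'))
      rwa [dist_eq_norm, dist_eq_norm] at this
    rw [h3]
    calc ‖(s - s') • w + (g s - g s') • v‖ ≤ ‖(s - s') • w‖ + ‖(g s - g s') • v‖ := norm_add_le _ _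
      _ = ‖s - s'‖ * ‖w‖ + ‖g s - g s'‖ * ‖v‖ := by rw [norm_smul, norm_smul]
      _ ≤ ‖s - s'‖ * ‖w‖ + (K * ‖s - s'‖) * ‖v‖ := by gcongr
      _ = (‖w‖ + K * ‖v‖) * ‖s - s'‖ := by ring
  have hγU : ∀ s ∈ ball (0 : ℂ) η₄, γ s ∈ U := by
    intro s hs
    have hs2 : ‖s‖ < η₂ := by
      have := ball_subset_ball (min_le_left _ _) hs
      simpa using this
    have h3 := (hη₂B s hs2).1
    exact (hbox s (g s) (h3.trans (min_le_right _ _)) (hηB s (h3.trans (min_le_left _ _))).le).2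
  have hγ0 : ∀ s ∈ ball (0 : ℂ) η₄, fderiv ℂ f (γ s) = 0 := by
    intro s hs
    have hs2 : ‖s‖ < η₂ := by
      have := ball_subset_ball (min_le_left _ _) hs
      simpa using this
    exact hJf _ (hγU s hs) (hJγ s hs2)
  have hder : ∀ s ∈ ball (0 : ℂ) η₄, HasDerivAt (fun t => f (γ t)) 0 s := by
    intro s hs
    have h3 : HasFDerivAt f (0 : E →L[ℂ] F) (γ s) := by
      rw [← hγ0 s hs]
      exact ((hf _ (hγU s hs)).differentiableAt (hU.mem_nhds (hγU s hs))).hasFDerivAt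
    have hev2 : ∀ᶠ t in 𝓝 s, t ∈ ball (0 : ℂ) η₄ := isOpen_ball.mem_nhds hs
    have hO : (fun t => γ t - γ s) =O[𝓝 s] fun t => t - s := by
      refine Asymptotics.IsBigO.of_bound (‖w‖ + K * ‖v‖) ?_
      filter_upwards [hev2] with t ht using hγL t ht s hs
    have hc : Tendsto γ (𝓝 s) (𝓝 (γ s)) := by
      have h4 : Tendsto (fun t : ℂ => t - s) (𝓝 s) (𝓝 0) := by
        have : Tendsto (fun t : ℂ => t - s) (𝓝 s) (𝓝 (s - s)) := (continuous_id.sub continuous_const).tendsto s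
        simpa using this
      have h5 := hO.trans_tendsto h4
      have h6 := h5.add_const (γ s)
      simpa using h6
    have h4 := h3.isLittleO.comp_tendsto hc
    have h5 := h4.trans_isBigO hO
    rw [hasDerivAt_iff_isLittleO]
    refine (h5.congr_left fun t => ?_)
    simp
  have hconst : ∀ s ∈ ball (0 : ℂ) η₄, f (γ s) = f (γ 0) := by
    intro s hs
    have := (convex_ball (0 : ℂ) η₄).norm_image_sub_le_of_norm_hasDerivWithin_le (𝕜 := ℂ)
      (f := fun t => f (γ t)) (f' := fun _ => 0) (C := 0) (x := 0) (y := s)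
      (fun t ht => (hder t ht).hasDerivWithinAt) (fun t _ => by simp)
      (mem_ball_self hη₄0) hs
    rw [zero_mul] at this
    exact sub_eq_zero.1 (norm_le_zero_iff.1 this)
  set s₁ : ℂ := ((η₄ / 2 : ℝ) : ℂ) with hs₁
  have hs₁m : s₁ ∈ ball (0 : ℂ) η₄ := by
    rw [mem_ball_zero_iff, hs₁, Complex.norm_real, Real.norm_of_nonneg (by positivity)]
    linarith
  have h0m : (0 : ℂ) ∈ ball (0 : ℂ) η₄ := mem_ball_self hη₄0
  have hfin := hi (hγU _ hs₁m) (hγU _ h0m) (hconst _ hs₁m)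
  simp only [hγ, hg0, hb0] at hfin
  have h10 : (g s₁) • v + s₁ • w = 0 := by
    have h11 : A (s₁, g s₁) = 0 := by simpa using hfin
    rw [hAap] at h11
    rw [add_comm]; exact h11
  have h12 := (LinearIndependent.pair_iff.1 hw) _ _ h10
  have h13 : ((η₄ / 2 : ℝ) : ℂ) = 0 := h12.2
  have h14 : η₄ / 2 = 0 := by exact_mod_cast h13
  linarith

end Pool.Agent.Squeeze
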