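import Mathlib
import Pool.Agent.Squeeze.Smooth
import Pool.Agent.Squeeze.OneDim
import Pool.Agent.Squeeze.Fold

set_option autoImplicit false

open Metric Set Filter Topology Function

namespace Pool.Agent.Squeeze

/-- the statement of Osgood's theorem in dimension `n` -/
def OsgoodIn (n : ℕ) : Prop :=
  ∀ (E F : Type) [NormedAddCommGroup E] [NormedSpace ℂ E] [FiniteDimensional ℂ E]
    [NormedAddCommGroup F] [NormedSpace ℂ F] [FiniteDimensional ℂ F],
    Module.finrank ℂ E = n → Module.finrank ℂ F = n →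
    ∀ (U : Set E) (f : E → F), IsOpen U → DifferentiableOn ℂ f U → InjOn f U →
      ∀ x ∈ U, ∀ v : E, fderiv ℂ f x v = 0 → v = 0

lemma osgood_zero : OsgoodIn 0 := by
  intro E F _ _ _ _ _ _ hE hF U f hU hf hi x hx v hv
  have : Subsingleton E := Module.finrank_zero_iff.1 hE
  exact Subsingleton.elim _ _

lemma osgood_one : OsgoodIn 1 := by
  intro E F _ _ _ _ _ _ hE hF U f hU hf hi x hx v hv
  by_contra hv0
  have hFc : Module.finrank ℂ F = Module.finrank ℂ ℂ := by rw [hF, Module.finrank_self]
  let e : F ≃L[ℂ] ℂ := ContinuousLinearEquiv.ofFinrankEq hFc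
  set V : Set ℂ := {t | x + t • v ∈ U} with hV
  have hVo : IsOpen V := hU.preimage (by fun_prop)
  have h0V : (0 : ℂ) ∈ V := by simpa [hV] using hx
  have hd : DifferentiableOn ℂ (fun t : ℂ => e (f (x + t • v))) V := fun t ht =>
    (e.differentiableAt.comp t (differentiableAt_line hf hU ht)).differentiableWithinAt
  have hinj : InjOn (fun t : ℂ => e (f (x + t • v))) V := by
    intro s hs t ht hst
    have h1 := hi hs ht (e.injective hst)
    have h2 : (s - t) • v = 0 := by rw [sub_smul]; exact sub_eq_zero.2 (add_left_cancel h1)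
    rcases smul_eq_zero.1 h2 with h3 | h3
    · exact sub_eq_zero.1 h3
    · exact absurd h3 hv0
  apply deriv_ne_zero_of_injOn hVo hd hinj h0V
  have h1 := (differentiableAt_line (v := v) (t := 0) hf hU (by simpa using hx)).hasDerivAt
  rw [deriv_line_zero hf hU hx] at h1
  have h2 := (e : F →L[ℂ] ℂ).hasFDerivAt.comp_hasDerivAt (0 : ℂ) h1
  have h3 := h2.deriv
  rw [hv, map_zero] at h3
  exact h3

/-- if Osgood's theorem holds in dimension `n` then in dimension `n + 1` the singular points of an
injective holomorphic map are zeros of its differential -/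
lemma osgood_step {n : ℕ} (ih : OsgoodIn n) {E F : Type}
    [NormedAddCommGroup E] [NormedSpace ℂ E] [FiniteDimensional ℂ E]
    [NormedAddCommGroup F] [NormedSpace ℂ F] [FiniteDimensional ℂ F]
    (hE : Module.finrank ℂ E = n + 1) (hF : Module.finrank ℂ F = n + 1)
    {U : Set E} {f : E → F} (hU : IsOpen U) (hf : DifferentiableOn ℂ f U) (hi : InjOn f U)
    {y : E} (hy : y ∈ U) {v : E} (hv : v ≠ 0) (hfv : fderiv ℂ f y v = 0) : fderiv ℂ f y = 0 := by
  by_contra hne
  obtain ⟨u₀, hu₀⟩ : ∃ u, fderiv ℂ f y u ≠ 0 := by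
    by_contra hcon
    push Not at hcon
    exact hne (ContinuousLinearMap.ext hcon)
  obtain ⟨ψ, hψ⟩ := SeparatingDual.exists_eq_one (R := ℂ) hu₀
  set u := u₀ with hu
  set u' := fderiv ℂ f y u with hu'
  set T : E →L[ℂ] ℂ := ψ.comp (fderiv ℂ f y) with hT
  have hTu : T u = 1 := hψ
  set Φ : E → E := fun z => z + (ψ (f z - f y) - T (z - y)) • u with hΦ
  have hΦy : Φ y = y := by simp [hΦ]
  have hΦd : ContDiffAt ℂ 1 Φ y := by
    have h1 : ContDiffAt ℂ 1 f y := (contDiffOn_of_differentiableOn hU 1 hf).contDiffAt (hU.mem_nhds hy)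
    have h2 : ContDiffAt ℂ 1 (fun z => ψ (f z - f y)) y :=
      ψ.contDiff.contDiffAt.comp y (h1.sub contDiffAt_const)
    have h3 : ContDiffAt ℂ 1 (fun z => T (z - y)) y :=
      T.contDiff.contDiffAt.comp y (contDiffAt_id.sub contDiffAt_const)
    exact contDiffAt_id.add ((h2.sub h3).smul contDiffAt_const)
  have hΦf : HasFDerivAt Φ ((ContinuousLinearEquiv.refl ℂ E : E ≃L[ℂ] E) : E →L[ℂ] E) y := by
    have h1 : HasFDerivAt f (fderiv ℂ f y) y := ((hf y hy).differentiableAt (hU.mem_nhds hy)).hasFDerivAt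
    have h2 : HasFDerivAt (fun z => ψ (f z - f y)) T y :=
      ψ.hasFDerivAt.comp y (h1.sub_const (f y))
    have h3 : HasFDerivAt (fun z => T (z - y)) T y := by
      have := T.hasFDerivAt.comp y ((hasFDerivAt_id y).sub_const y)
      rw [ContinuousLinearMap.comp_id] at this
      exact this
    have h4 := (hasFDerivAt_id y).add ((h2.sub h3).smul_const u)
    refine h4.congr_fderiv ?_
    ext z
    simp
  set Ψ := hΦd.localInverse hΦf one_ne_zero with hΨ
  have hΨy : Ψ y = y := by
    have := hΦd.localInverse_apply_image hΦf one_ne_zero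
    rw [hΦy] at this
    exact this
  have hΨd : ContDiffAt ℂ 1 Ψ y := by
    have := hΦd.to_localInverse hΦf one_ne_zero
    rw [hΦy] at this
    exact this
  have hΦs : HasStrictFDerivAt Φ ((ContinuousLinearEquiv.refl ℂ E : E ≃L[ℂ] E) : E →L[ℂ] E) y :=
    hΦd.hasStrictFDerivAt' hΦf one_ne_zero
  have hright : ∀ᶠ z in 𝓝 y, Φ (Ψ z) = z := by
    have := hΦs.eventually_right_inverse
    rw [hΦy] at this
    exact this
  have hΨf : HasFDerivAt Ψ (ContinuousLinearMap.id ℂ E) y := by
    have := hΦs.to_localInverse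
    rw [hΦy] at this
    have h2 : HasFDerivAt Ψ _ y := this.hasFDerivAt
    exact h2.congr_fderiv (by ext; simp)
  have hΨev : ∀ᶠ z in 𝓝 y, DifferentiableAt ℂ Ψ z := by
    have h1 : ∀ᶠ z in 𝓝 y, ContDiffAt ℂ 1 Ψ z := hΨd.eventually (by simp)
    filter_upwards [h1] with z hz using hz.differentiableAt one_ne_zero
  have hΨU : ∀ᶠ z in 𝓝 y, Ψ z ∈ U := by
    have : ContinuousAt Ψ y := hΨd.continuousAt
    have h2 : Tendsto Ψ (𝓝 y) (𝓝 y) := by
      have h3 := this.tendsto
      rwa [hΨy] at h3
    exact h2.eventually (hU.mem_nhds hy)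
  obtain ⟨δ, hδ, hδB⟩ := Metric.eventually_nhds_iff_ball.1 (hright.and (hΨev.and hΨU))
  -- the subspaces
  have hTΦ : ∀ z, T (Φ z - y) = ψ (f z - f y) := by
    intro z
    have : Φ z - y = (z - y) + (ψ (f z - f y) - T (z - y)) • u := by
      simp only [hΦ]; abel
    rw [this, map_add, map_smul, hTu, smul_eq_mul, mul_one]
    ring
  let K : Submodule ℂ E := LinearMap.ker (T : E →ₗ[ℂ] ℂ)
  let K' : Submodule ℂ F := LinearMap.ker (ψ : F →ₗ[ℂ] ℂ)
  have hdim : ∀ {G : Type} [NormedAddCommGroup G] [NormedSpace ℂ G] [FiniteDimensional ℂ G]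
      (φ : G →ₗ[ℂ] ℂ) (g : G), φ g = 1 → Module.finrank ℂ G = n + 1 →
      Module.finrank ℂ (LinearMap.ker φ) = n := by
    intro G _ _ _ φ g hg hG
    have h1 := φ.finrank_range_add_finrank_ker
    have h2 : LinearMap.range φ = ⊤ := by
      rw [LinearMap.range_eq_top]
      intro c
      exact ⟨c • g, by rw [map_smul, hg, smul_eq_mul, mul_one]⟩
    rw [h2, finrank_top, Module.finrank_self, hG] at h1
    omega
  have hK : Module.finrank ℂ K = n := hdim (T : E →ₗ[ℂ] ℂ) u hTu hE
  have hK' : Module.finrank ℂ K' = n := hdim (ψ : F →ₗ[ℂ] ℂ) u' hψ hF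
  let π' : F →L[ℂ] K' := ((ContinuousLinearMap.id ℂ F) - ψ.smulRight u').codRestrict K' (by
    intro z
    show ψ (z - ψ z • u') = 0
    rw [map_sub, map_smul, hψ, smul_eq_mul, mul_one, sub_self])
  have hπ : ∀ z : F, ψ z = 0 → ((π' z : K') : F) = z := by
    intro z hz
    show z - ψ z • u' = z
    rw [hz]; simp
  set h : K → K' := fun k => π' (f (Ψ (y + (k : E))) - f y) with hh
  have hkball : ∀ k ∈ ball (0 : K) δ, y + (k : E) ∈ ball y δ := by
    intro k hk
    rw [mem_ball_zero_iff] at hk
    rw [mem_ball, dist_eq_norm, add_sub_cancel_left]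
    exact hk
  have hhd : DifferentiableOn ℂ h (ball (0 : K) δ) := by
    intro k hk
    obtain ⟨h1, h2, h3⟩ := hδB _ (hkball k hk)
    have h4 : DifferentiableAt ℂ (fun k : K => y + (k : E)) k := by
      have : DifferentiableAt ℂ (fun k : K => (k : E)) k := K.subtypeL.differentiableAt
      exact this.const_add y
    have h5 : DifferentiableAt ℂ (fun k : K => Ψ (y + (k : E))) k := 
      DifferentiableAt.comp (g := Ψ) (f := fun k : K => y + (k : E)) k h2 h4
    have h6 : DifferentiableAt ℂ f (Ψ (y + (k : E))) := (hf _ h3).differentiableAt (hU.mem_nhds h3)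
    have h7 : DifferentiableAt ℂ (fun k : K => f (Ψ (y + (k : E)))) k := 
      DifferentiableAt.comp (g := f) (f := fun k : K => Ψ (y + (k : E))) k h6 h5
    exact (π'.differentiableAt.comp k (h7.sub_const (f y))).differentiableWithinAt
  have hhi : InjOn h (ball (0 : K) δ) := by
    intro k1 hk1 k2 hk2 h12
    obtain ⟨a1, a2, a3⟩ := hδB _ (hkball k1 hk1)
    obtain ⟨b1, b2, b3⟩ := hδB _ (hkball k2 hk2)
    have e : ∀ k : K, y + (k : E) ∈ ball y δ → ψ (f (Ψ (y + (k : E))) - f y) = 0 := by
      intro k hk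
      rw [← hTΦ, (hδB _ hk).1, add_sub_cancel_left]
      exact k.2
    have e1 := hπ _ (e k1 (hkball k1 hk1))
    have e2 := hπ _ (e k2 (hkball k2 hk2))
    have e3 : ((h k1 : K') : F) = (h k2 : K') := by rw [h12]
    simp only [hh] at e3
    rw [e1, e2] at e3
    have e4 := hi a3 b3 (sub_left_injective e3)
    have e5 : y + (k1 : E) = y + (k2 : E) := by rw [← a1, ← b1, e4]
    exact Subtype.ext (add_left_cancel e5)
  have hTv : T v = 0 := by
    show ψ (fderiv ℂ f y v) = 0
    rw [hfv, map_zero]
  have hfin := ih K K' hK hK' (ball (0 : K) δ) h isOpen_ball hhd hhi 0 (mem_ball_self hδ) ⟨v, hTv⟩ (by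
    have h4 : HasFDerivAt (fun k : K => y + (k : E)) K.subtypeL (0 : K) :=
      K.subtypeL.hasFDerivAt.const_add y
    have h5 : HasFDerivAt Ψ (ContinuousLinearMap.id ℂ E) (y + ((0 : K) : E)) := by simpa using hΨf
    have h6 := HasFDerivAt.comp (g := Ψ) (f := fun k : K => y + (k : E)) (0 : K) h5 h4
    have h7 : HasFDerivAt f (fderiv ℂ f y) ((Ψ ∘ fun k : K => y + (k : E)) (0 : K)) := by
      have : (Ψ ∘ fun k : K => y + (k : E)) (0 : K) = y := by simp [hΨy]
      rw [this]
      exact ((hf y hy).differentiableAt (hU.mem_nhds hy)).hasFDerivAt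
    have h8 := HasFDerivAt.comp (g := f) (0 : K) h7 h6
    have h9 := π'.hasFDerivAt.comp (0 : K) (h8.sub_const (f y))
    have h10 := h9.fderiv
    have h11 : fderiv ℂ h 0 = _ := h10
    rw [h11]
    simp [hfv])
  exact hv (congrArg Subtype.val hfin)

theorem osgood_all (n : ℕ) : OsgoodIn n := by
  induction n with
  | zero => exact osgood_zero
  | succ n ih =>
    rcases Nat.eq_zero_or_pos n with rfl | hn
    · exact osgood_one
    · intro E F _ _ _ _ _ _ hE hF U f hU hf hi x hx v hv
      by_contra hv0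
      have hFE : Module.finrank ℂ F = Module.finrank ℂ E := by rw [hF, hE]
      let L : F ≃L[ℂ] E := ContinuousLinearEquiv.ofFinrankEq hFE
      let b := Module.finBasis ℂ E
      set M : E → Matrix (Fin (Module.finrank ℂ E)) (Fin (Module.finrank ℂ E)) ℂ := fun y =>
        LinearMap.toMatrix b b (((L : F →L[ℂ] E).comp (fderiv ℂ f y) : E →L[ℂ] E) : E →ₗ[ℂ] E) with hM
      set J : E → ℂ := fun y => (M y).det with hJ
      have hdf := differentiableOn_fderiv hU hf
      have hMd : ∀ i j, DifferentiableOn ℂ (fun y => M y i j) U := by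
        intro i j
        have h1 : ∀ y, M y i j = b.equivFunL (L (fderiv ℂ f y (b j))) i := by
          intro y
          simp [hM, LinearMap.toMatrix_apply]
        simp only [h1]
        have h2 : DifferentiableOn ℂ (fun y => fderiv ℂ f y (b j)) U := differentiableOn_fderiv_apply hf hU _
        have h3 : DifferentiableOn ℂ (fun y => b.equivFunL (L (fderiv ℂ f y (b j)))) U :=
          (b.equivFunL.toContinuousLinearMap.differentiable.comp L.toContinuousLinearMap.differentiable).comp_differentiableOn h2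
        exact (differentiableOn_pi.1 h3) i
      have hJd : DifferentiableOn ℂ J U := by
        have h1 : J = fun y => ∑ σ : Equiv.Perm (Fin (Module.finrank ℂ E)), 
            ((Equiv.Perm.sign σ : ℤ) : ℂ) * ∏ i, M y (σ i) i := by
          funext y
          simp only [hJ, Matrix.det_apply']
        rw [h1]
        refine DifferentiableOn.fun_sum fun σ _ => ?_
        refine (differentiableOn_const _).mul ?_
        intro y hy
        have h2 := HasFDerivAt.finsetProd (u := Finset.univ) (g := fun i y => M y (σ i) i) (x := y)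
          (g' := fun i => fderiv ℂ (fun y => M y (σ i) i) y)
          (fun i _ => ((hMd (σ i) i y hy).differentiableAt (hU.mem_nhds hy)).hasFDerivAt)
        have h3 := h2.differentiableAt
        refine (h3.congr_of_eventuallyEq (Eventually.of_forall fun z => ?_)).differentiableWithinAt
        simp
      have hJ0 : ∀ y, J y = 0 → ∃ w : E, w ≠ 0 ∧ fderiv ℂ f y w = 0 := by
        intro y hy
        have h1 : LinearMap.det (((L : F →L[ℂ] E).comp (fderiv ℂ f y) : E →L[ℂ] E) : E →ₗ[ℂ] E) = 0 := by
          rw [← LinearMap.det_toMatrix b]; exact hy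
        have h2 := LinearMap.bot_lt_ker_of_det_eq_zero h1
        obtain ⟨w, hw, hw0⟩ := SetLike.exists_of_lt h2
        refine ⟨w, by simpa using hw0, ?_⟩
        have h3 : L (fderiv ℂ f y w) = 0 := hw
        exact L.map_eq_zero_iff.1 h3
      have hJx : J x = 0 := by
        by_contra hne
        have h1 : LinearMap.det (((L : F →L[ℂ] E).comp (fderiv ℂ f x) : E →L[ℂ] E) : E →ₗ[ℂ] E) ≠ 0 := by
          rw [← LinearMap.det_toMatrix b]; exact hne
        have h2 : IsUnit (LinearMap.det (((L : F →L[ℂ] E).comp (fderiv ℂ f x) : E →L[ℂ] E) : E →ₗ[ℂ] E)) :=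
          isUnit_iff_ne_zero.2 h1
        have h3 := (LinearMap.equivOfIsUnitDet h2).injective
        apply hv0
        apply h3
        rw [LinearMap.equivOfIsUnitDet_apply, LinearMap.equivOfIsUnitDet_apply, map_zero]
        show L (fderiv ℂ f x v) = 0
        rw [hv, map_zero]
      have hcrit : ∀ y ∈ U, J y = 0 → fderiv ℂ f y = 0 := by
        intro y hy hJy
        obtain ⟨w, hw0, hw⟩ := hJ0 y hJy
        exact osgood_step ih hE hF hU hf hi hy hw0 hw
      exact not_injOn_of_critical hU hf hJd hcrit hx hJx (by rw [hE]; omega) hi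

/-- **Osgood's theorem**: the differential of an injective holomorphic map between spaces of the
same dimension is injective at every point. -/
theorem osgood {E F : Type} [NormedAddCommGroup E] [NormedSpace ℂ E] [FiniteDimensional ℂ E]
    [NormedAddCommGroup F] [NormedSpace ℂ F] [FiniteDimensional ℂ F]
    (hEF : Module.finrank ℂ E = Module.finrank ℂ F)
    {U : Set E} {f : E → F} (hU : IsOpen U) (hf : DifferentiableOn ℂ f U) (hi : InjOn f U)
    {x : E} (hx : x ∈ U) {v : E} (hv : fderiv ℂ f x v = 0) : v = 0 :=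
  osgood_all (Module.finrank ℂ E) E F rfl hEF.symm U f hU hf hi x hx v hv

end Pool.Agent.Squeeze
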