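import Mathlib
import Pool.Agent.Squeeze.Osgood

set_option autoImplicit false

open Metric Set Filter Topology Function

namespace Pool.Agent.Squeeze

variable {E : Type} [NormedAddCommGroup E] [NormedSpace ℂ E] [FiniteDimensional ℂ E]

/-- an injective holomorphic map has a holomorphic inverse -/
theorem exists_inverse {U : Set E} {f : E → E} (hU : IsOpen U) (hf : DifferentiableOn ℂ f U)
    (hi : InjOn f U) :
    ∃ g : E → E, (∀ x ∈ U, g (f x) = x) ∧ (∀ x ∈ U, DifferentiableAt ℂ g (f x)) := by
  classical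
  rcases isEmpty_or_nonempty E with hE | hE
  · exact ⟨id, fun x _ => isEmptyElim x, fun x _ => isEmptyElim x⟩
  refine ⟨invFunOn f U, fun x hx => hi.leftInvOn_invFunOn hx, fun x hx => ?_⟩
  have hs := hasStrictFDerivAt hU hf hx
  have hinj : LinearMap.ker (fderiv ℂ f x : E →ₗ[ℂ] E) = ⊥ := by
    rw [LinearMap.ker_eq_bot']
    intro v hv
    exact osgood rfl hU hf hi hx hv
  let e : E ≃L[ℂ] E := (LinearEquiv.ofInjectiveEndo (fderiv ℂ f x : E →ₗ[ℂ] E)
    (LinearMap.ker_eq_bot.1 hinj)).toContinuousLinearEquiv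
  have he : (e : E →L[ℂ] E) = fderiv ℂ f x := by
    ext v; rfl
  rw [← he] at hs
  have hloc := hs.to_localInverse
  have hright := hs.eventually_right_inverse
  have hcont : Tendsto (hs.localInverse f e x) (𝓝 (f x)) (𝓝 x) := by
    have h1 := hloc.continuousAt.tendsto
    rwa [hs.localInverse_apply_image] at h1
  have hev : ∀ᶠ y in 𝓝 (f x), invFunOn f U y = hs.localInverse f e x y := by
    filter_upwards [hright, hcont.eventually (hU.mem_nhds hx)] with y hy1 hy2
    have h1 : invFunOn f U (f (hs.localInverse f e x y)) = hs.localInverse f e x y :=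
      hi.leftInvOn_invFunOn hy2
    rw [hy1] at h1
    exact h1
  exact hloc.hasFDerivAt.differentiableAt.congr_of_eventuallyEq hev

end Pool.Agent.Squeeze
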