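import Mathlib

set_option autoImplicit false

open Metric Set Filter Topology Function

namespace Pool.Agent.Squeeze

variable {E : Type} [NormedAddCommGroup E] [InnerProductSpace ℂ E]

/-- derivative bound for a holomorphic map of a disc into the ball -/
lemma norm_deriv_sq_le [CompleteSpace E] {φ : ℂ → E} {ρ : ℝ} (hρ : 0 < ρ) (hφ : DifferentiableOn ℂ φ (ball 0 ρ))
    (hb : ∀ ξ ∈ ball (0 : ℂ) ρ, ‖φ ξ‖ < 1) : ρ ^ 2 * ‖deriv φ 0‖ ^ 2 ≤ 1 - ‖φ 0‖ ^ 2 := by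
  -- first a strict sub-radius
  have key : ∀ t : ℝ, 0 < t → t < ρ → ‖φ 0‖ ^ 2 + t ^ 2 * ‖deriv φ 0‖ ^ 2 ≤ 1 := by
    intro t ht htρ
    set u := φ 0 with hu
    set v := deriv φ 0 with hv
    set A : ℝ := ‖u‖ ^ 2 + t ^ 2 * ‖v‖ ^ 2 with hA
    have h0 : (0 : ℂ) ∈ ball (0 : ℂ) ρ := mem_ball_self hρ
    have hneg : ∀ ξ ∈ ball (0 : ℂ) ρ, -ξ ∈ ball (0 : ℂ) ρ := fun ξ hξ => by simpa using hξ
    have hφn : DifferentiableOn ℂ (fun ξ => φ (-ξ)) (ball 0 ρ) :=
      hφ.comp (differentiable_neg.differentiableOn) hneg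
    set ev : ℂ → E := fun ξ => (2 : ℂ)⁻¹ • (φ ξ + φ (-ξ)) with hev
    set od : ℂ → E := fun ξ => (2 : ℂ)⁻¹ • (φ ξ - φ (-ξ)) with hod
    have hevd : DifferentiableOn ℂ ev (ball 0 ρ) := (hφ.add hφn).const_smul _
    have hodd : DifferentiableOn ℂ od (ball 0 ρ) := (hφ.sub hφn).const_smul _
    have hφ0 : HasDerivAt φ v 0 := ((hφ 0 h0).differentiableAt (isOpen_ball.mem_nhds h0)).hasDerivAt
    have hod0 : od 0 = 0 := by simp [hod]
    have hev0 : ev 0 = u := by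
      simp only [hev, neg_zero, ← hu]
      rw [← two_smul ℂ u, smul_smul, inv_mul_cancel₀ two_ne_zero, one_smul]
    have hodd0 : deriv od 0 = v := by
      have h1 : HasDerivAt (fun ξ : ℂ => φ (-ξ)) (-v) 0 := by
        have h2 : HasDerivAt φ v (-(0 : ℂ)) := by simpa using hφ0
        have h3 := h2.scomp (0 : ℂ) (hasDerivAt_neg (0 : ℂ))
        rw [neg_one_smul] at h3
        exact h3
      have h2 := (hφ0.sub h1).const_smul ((2 : ℂ)⁻¹)
      rw [sub_neg_eq_add, ← two_smul ℂ v, smul_smul, inv_mul_cancel₀ two_ne_zero, one_smul] at h2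
      exact h2.deriv
    set χ : ℂ → ℂ := fun ξ => innerSL ℂ u (ev ξ) + ((t ^ 2 : ℝ) : ℂ) * innerSL ℂ v (dslope od 0 ξ) with hχ
    have hds : DifferentiableOn ℂ (dslope od 0) (ball 0 ρ) :=
      (Complex.differentiableOn_dslope (isOpen_ball.mem_nhds h0)).2 hodd
    have hχd : DifferentiableOn ℂ χ (ball 0 ρ) :=
      ((innerSL ℂ u).differentiable.comp_differentiableOn hevd).add
        (((innerSL ℂ v).differentiable.comp_differentiableOn hds).const_mul _)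
    have hχ0 : χ 0 = (A : ℂ) := by
      simp only [hχ, hev0, dslope_same, hodd0]
      have e1 : innerSL ℂ u u = ((‖u‖ ^ 2 : ℝ) : ℂ) := by
        show inner ℂ u u = _
        rw [inner_self_eq_norm_sq_to_K]; push_cast; rfl
      have e2 : innerSL ℂ v v = ((‖v‖ ^ 2 : ℝ) : ℂ) := by
        show inner ℂ v v = _
        rw [inner_self_eq_norm_sq_to_K]; push_cast; rfl
      rw [e1, e2, hA]
      push_cast; ring
    have hbound : ∀ ξ ∈ frontier (ball (0 : ℂ) t), ‖χ ξ‖ ≤ Real.sqrt A := by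
      intro ξ hξ
      rw [frontier_ball _ ht.ne', mem_sphere_zero_iff_norm] at hξ
      have hξρ : ξ ∈ ball (0 : ℂ) ρ := by rw [mem_ball_zero_iff, hξ]; exact htρ
      have hξ0 : ξ ≠ 0 := by
        intro h; rw [h, norm_zero] at hξ; exact ht.ne hξ
      have e1 : ‖dslope od 0 ξ‖ = ‖od ξ‖ / t := by
        rw [dslope_of_ne _ hξ0, slope_def_module, hod0, sub_zero, sub_zero, norm_smul, norm_inv, hξ]
        field_simp
      have e2 : ‖χ ξ‖ ≤ ‖u‖ * ‖ev ξ‖ + (t * ‖v‖) * ‖od ξ‖ := by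
        calc ‖χ ξ‖ ≤ ‖innerSL ℂ u (ev ξ)‖ + ‖((t ^ 2 : ℝ) : ℂ) * innerSL ℂ v (dslope od 0 ξ)‖ := norm_add_le _ _
          _ ≤ ‖u‖ * ‖ev ξ‖ + t ^ 2 * (‖v‖ * ‖dslope od 0 ξ‖) := by
              rw [norm_mul, Complex.norm_real, Real.norm_of_nonneg (by positivity)]
              gcongr
              · exact norm_inner_le_norm u _
              · exact norm_inner_le_norm v _
          _ = ‖u‖ * ‖ev ξ‖ + (t * ‖v‖) * ‖od ξ‖ := by
              rw [e1]; field_simp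
      have e3 : ‖ev ξ‖ ^ 2 + ‖od ξ‖ ^ 2 ≤ 1 := by
        have h1 := parallelogram_law_with_norm ℂ (φ ξ) (φ (-ξ))
        have h2 : ‖ev ξ‖ = 2⁻¹ * ‖φ ξ + φ (-ξ)‖ := by
          simp only [hev]; rw [norm_smul, norm_inv]; simp
        have h3 : ‖od ξ‖ = 2⁻¹ * ‖φ ξ - φ (-ξ)‖ := by
          simp only [hod]; rw [norm_smul, norm_inv]; simp
        have h4 := hb ξ hξρ
        have h5 := hb (-ξ) (hneg ξ hξρ)
        have h6 := norm_nonneg (φ ξ)
        have h7 := norm_nonneg (φ (-ξ))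
        rw [h2, h3]
        nlinarith
      have e4 : (‖u‖ * ‖ev ξ‖ + (t * ‖v‖) * ‖od ξ‖) ^ 2 ≤ A := by
        have h1 : (‖u‖ * ‖ev ξ‖ + (t * ‖v‖) * ‖od ξ‖) ^ 2 ≤
            (‖u‖ ^ 2 + (t * ‖v‖) ^ 2) * (‖ev ξ‖ ^ 2 + ‖od ξ‖ ^ 2) := by
          nlinarith [sq_nonneg (‖u‖ * ‖od ξ‖ - (t * ‖v‖) * ‖ev ξ‖)]
        have h2 : (‖u‖ ^ 2 + (t * ‖v‖) ^ 2) = A := by rw [hA]; ring
        rw [h2] at h1
        have h3 : 0 ≤ A := by positivity
        nlinarith
      exact e2.trans (Real.le_sqrt_of_sq_le e4)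
    have hdc : DiffContOnCl ℂ χ (ball 0 t) := by
      refine DifferentiableOn.diffContOnCl (hχd.mono ?_)
      rw [closure_ball _ ht.ne']
      exact closedBall_subset_ball htρ
    have hmax := Complex.norm_le_of_forall_mem_frontier_norm_le isBounded_ball hdc hbound
      (subset_closure (mem_ball_self ht))
    rw [hχ0, Complex.norm_real, Real.norm_of_nonneg (by positivity : 0 ≤ A)] at hmax
    by_contra hcon
    push Not at hcon
    have h1 : Real.sqrt A < A := by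
      rw [Real.sqrt_lt' (by linarith)]
      nlinarith
    linarith
  have hlim : Tendsto (fun t : ℝ => ‖φ 0‖ ^ 2 + t ^ 2 * ‖deriv φ 0‖ ^ 2) (𝓝[<] ρ)
      (𝓝 (‖φ 0‖ ^ 2 + ρ ^ 2 * ‖deriv φ 0‖ ^ 2)) := by
    refine Tendsto.mono_left ?_ nhdsWithin_le_nhds
    exact (Continuous.tendsto (by fun_prop) ρ)
  have hle := le_of_tendsto hlim (b := 1) (by
    filter_upwards [Ioo_mem_nhdsLT hρ] with t ht using key t ht.1 ht.2)
  linarith

/-- the Cayley type map `w ↦ w / (2 - w)` -/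
lemma cayley_lt {w : ℂ} (hw : w.re < 1) : ‖w / (2 - w)‖ < 1 ∧ 2 - w ≠ 0 := by
  have h1 : 2 - w ≠ 0 := by
    intro h
    have h2 := congrArg Complex.re h
    simp at h2
    linarith
  refine ⟨?_, h1⟩
  have h2 : 0 < ‖2 - w‖ := norm_pos_iff.2 h1
  rw [norm_div, div_lt_one h2]
  have h3 : ‖w‖ ^ 2 < ‖2 - w‖ ^ 2 := by
    rw [← Complex.normSq_eq_norm_sq, ← Complex.normSq_eq_norm_sq, Complex.normSq_apply,
      Complex.normSq_apply]
    simp
    nlinarith
  exact lt_of_pow_lt_pow_left₀ 2 (norm_nonneg _) h3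

section
omit [InnerProductSpace ℂ E]
variable [NormedSpace ℂ E]

lemma line_maps {r : ℝ} {v : E} (hv : ‖v‖ = 1) {t : ℂ} (ht : t ∈ ball (0 : ℂ) r) :
    t • v ∈ ball (0 : E) r := by
  rw [mem_ball_zero_iff] at ht ⊢
  rw [norm_smul, hv, mul_one]; exact ht

lemma cayley_line {r : ℝ} {g : E → ℂ} (hg : DifferentiableOn ℂ g (ball 0 r))
    (hre : ∀ y ∈ ball (0 : E) r, (g y).re < 1) (h0 : g 0 = 0) {v : E} (hv : ‖v‖ = 1) :
    DifferentiableOn ℂ (fun t : ℂ => g (t • v) / (2 - g (t • v))) (ball 0 r) ∧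
    MapsTo (fun t : ℂ => g (t • v) / (2 - g (t • v))) (ball 0 r)
      (ball ((fun t : ℂ => g (t • v) / (2 - g (t • v))) 0) 1) := by
  have h1 : DifferentiableOn ℂ (fun t : ℂ => g (t • v)) (ball 0 r) :=
    hg.comp (by fun_prop) (fun t ht => line_maps hv ht)
  refine ⟨h1.div ((differentiableOn_const _).sub h1) fun t ht => (cayley_lt (hre _ (line_maps hv ht))).2, ?_⟩
  intro t ht
  have e : (fun t : ℂ => g (t • v) / (2 - g (t • v))) 0 = 0 := by simp [h0]
  rw [e, mem_ball_zero_iff]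
  exact (cayley_lt (hre _ (line_maps hv ht))).1

/-- Harnack type inequality: a holomorphic function with real part less than one and vanishing at
the centre of the ball cannot approach real part one inside. -/
lemma harnack_ball {r : ℝ} (hr : 0 < r) (hr1 : r ≤ 1) {g : E → ℂ} (hg : DifferentiableOn ℂ g (ball 0 r))
    (hre : ∀ y ∈ ball (0 : E) r, (g y).re < 1) (h0 : g 0 = 0) {y : E} (hy : ‖y‖ < r) :
    r - ‖y‖ ≤ 4 * (1 - (g y).re) := by
  rcases eq_or_ne y 0 with rfl | hy0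
  · rw [h0]; simp; linarith
  have hyn : 0 < ‖y‖ := norm_pos_iff.2 hy0
  set v : E := ((‖y‖ : ℂ))⁻¹ • y with hv
  have hv1 : ‖v‖ = 1 := by
    rw [hv, norm_smul, norm_inv, Complex.norm_real, norm_norm, inv_mul_cancel₀ hyn.ne']
  have hyv : (‖y‖ : ℂ) • v = y := by
    rw [hv, smul_smul, mul_inv_cancel₀ (by exact_mod_cast hyn.ne'), one_smul]
  obtain ⟨h1, h2⟩ := cayley_line hg hre h0 hv1
  have hmem : ((‖y‖ : ℝ) : ℂ) ∈ ball (0 : ℂ) r := by
    rw [mem_ball_zero_iff, Complex.norm_real, norm_norm]; exact hy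
  have h3 := Complex.dist_le_div_mul_dist_of_mapsTo_ball h1 (h2.mono_right ball_subset_closedBall) hmem
  simp only [hyv, zero_smul, h0, zero_div, dist_zero_right, Complex.norm_real, norm_norm] at h3
  set w := g y with hw
  have hwre : w.re < 1 := hre y (by simpa using hy)
  obtain ⟨h4, h5⟩ := cayley_lt hwre
  have h6 : 0 < ‖2 - w‖ := norm_pos_iff.2 h5
  have h7 : ‖w‖ ^ 2 = ‖2 - w‖ ^ 2 - 4 * (1 - w.re) := by
    rw [← Complex.normSq_eq_norm_sq, ← Complex.normSq_eq_norm_sq, Complex.normSq_apply,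
      Complex.normSq_apply]
    simp
    ring
  rw [norm_div] at h3
  set q := ‖y‖ / r with hq
  have hq0 : 0 ≤ q := by positivity
  have hq1 : q < 1 := (div_lt_one hr).2 hy
  have h8 : ‖w‖ ≤ q * ‖2 - w‖ := by
    have : ‖w‖ / ‖2 - w‖ ≤ q := by
      calc _ ≤ _ := h3
        _ = q := by rw [hq]; ring
    rwa [div_le_iff₀ h6] at this
  have h9 : ‖w‖ ^ 2 ≤ q ^ 2 * ‖2 - w‖ ^ 2 := by
    rw [← mul_pow]; exact pow_le_pow_left₀ (norm_nonneg _) h8 2
  have h10 : (1 - q ^ 2) * ‖2 - w‖ ^ 2 ≤ 4 * (1 - w.re) := by nlinarith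
  have h11 : 1 ≤ ‖2 - w‖ := by
    have h12 := Complex.re_le_norm (2 - w)
    simp at h12
    linarith
  have h12 : (1 - q) ≤ 4 * (1 - w.re) := by
    have h13 : (1 - q) ≤ (1 - q ^ 2) := by nlinarith
    have h14 : 1 ≤ ‖2 - w‖ ^ 2 := by nlinarith
    have h15 : 0 ≤ 1 - q ^ 2 := by nlinarith
    nlinarith
  have h16 : r - ‖y‖ = r * (1 - q) := by
    rw [hq]; field_simp
  rw [h16]
  have : 0 ≤ 1 - q := by linarith
  nlinarith

/-- derivative version -/
lemma deriv_halfplane_le {r : ℝ} (hr : 0 < r) {g : E → ℂ} (hg : DifferentiableOn ℂ g (ball 0 r))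
    (hre : ∀ y ∈ ball (0 : E) r, (g y).re < 1) (h0 : g 0 = 0) {v : E} (hv : ‖v‖ = 1) :
    ‖deriv (fun t : ℂ => g (t • v)) 0‖ ≤ 2 / r := by
  obtain ⟨h1, h2⟩ := cayley_line hg hre h0 hv
  have h3 := Complex.norm_deriv_le_div_of_mapsTo_ball h1 (h2.mono_right ball_subset_closedBall) hr
  have hl : DifferentiableOn ℂ (fun t : ℂ => g (t • v)) (ball 0 r) :=
    hg.comp (by fun_prop) (fun t ht => line_maps hv ht)
  have hl0 : HasDerivAt (fun t : ℂ => g (t • v)) (deriv (fun t : ℂ => g (t • v)) 0) 0 :=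
    ((hl 0 (mem_ball_self hr)).differentiableAt (isOpen_ball.mem_nhds (mem_ball_self hr))).hasDerivAt
  have h4 := hl0.div (hl0.const_sub 2) (by simp [h0])
  have h5 := h4.deriv
  simp only [zero_smul, h0, sub_zero, zero_mul] at h5
  have h6 : deriv (fun t : ℂ => g (t • v) / (2 - g (t • v))) 0 = deriv (fun t : ℂ => g (t • v)) 0 / 2 := by
    refine h5.trans ?_
    ring
  rw [h6, norm_div] at h3
  have h7 : ‖(2 : ℂ)‖ = 2 := by simp
  rw [h7, div_le_div_iff₀ two_pos hr] at h3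
  rw [le_div_iff₀ hr]
  linarith

/-- Schwarz-Pick for a disc with a real zero -/
lemma norm_le_of_zero {f : ℂ → E} {b : ℝ} (hb0 : 0 ≤ b) (hb1 : b < 1)
    (hf : DifferentiableOn ℂ f (ball 0 1)) (hm : ∀ t ∈ ball (0 : ℂ) 1, ‖f t‖ < 1) (hb : f b = 0) :
    ‖f 0‖ ≤ b := by
  have hne : ∀ t ∈ ball (0 : ℂ) 1, (1 - (b : ℂ) * t) ≠ 0 := by
    intro t ht h
    rw [mem_ball_zero_iff] at ht
    have h1 : (b : ℂ) * t = 1 := (sub_eq_zero.1 h).symm
    have h2 := congrArg norm h1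
    rw [norm_mul, Complex.norm_real, Real.norm_of_nonneg hb0, norm_one] at h2
    nlinarith [norm_nonneg t]
  have hmaps : ∀ t ∈ ball (0 : ℂ) 1, ((b : ℂ) - t) / (1 - (b : ℂ) * t) ∈ ball (0 : ℂ) 1 := by
    intro t ht
    have h1 := hne t ht
    rw [mem_ball_zero_iff] at ht ⊢
    have h2 : 0 < ‖1 - (b : ℂ) * t‖ := norm_pos_iff.2 h1
    rw [norm_div, div_lt_one h2]
    have h3 : ‖(b : ℂ) - t‖ ^ 2 < ‖1 - (b : ℂ) * t‖ ^ 2 := by
      have h4 : ‖t‖ ^ 2 < 1 := by nlinarith [norm_nonneg t]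
      rw [← Complex.normSq_eq_norm_sq, Complex.normSq_apply] at h4
      rw [← Complex.normSq_eq_norm_sq, ← Complex.normSq_eq_norm_sq, Complex.normSq_apply,
        Complex.normSq_apply]
      simp
      have h5 : 0 < (1 - b ^ 2) * (1 - (t.re * t.re + t.im * t.im)) := by
        apply mul_pos <;> nlinarith
      nlinarith
    exact lt_of_pow_lt_pow_left₀ 2 (norm_nonneg _) h3
  set k : ℂ → E := fun t => f (((b : ℂ) - t) / (1 - (b : ℂ) * t)) with hk
  have hkd : DifferentiableOn ℂ k (ball 0 1) := by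
    refine hf.comp ?_ hmaps
    exact DifferentiableOn.div (by fun_prop) (by fun_prop) hne
  have hk0 : k 0 = 0 := by simp [hk, hb]
  have hkm : MapsTo k (ball 0 1) (ball (k 0) 1) := by
    intro t ht
    rw [hk0, mem_ball_zero_iff]
    exact hm _ (hmaps t ht)
  have hbm : (b : ℂ) ∈ ball (0 : ℂ) 1 := by
    rw [mem_ball_zero_iff, Complex.norm_real, Real.norm_of_nonneg hb0]; exact hb1
  have h3 := Complex.dist_le_div_mul_dist_of_mapsTo_ball hkd (hkm.mono_right ball_subset_closedBall) hbm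
  rw [hk0] at h3
  simp only [dist_zero_right, Complex.norm_real, Real.norm_of_nonneg hb0, div_one, one_mul] at h3
  have h4 : k b = f 0 := by simp [hk]
  rwa [h4] at h3

end

end Pool.Agent.Squeeze
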