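import Mathlib
import Pool.Agent.Squeeze.Inverse
import Pool.Agent.Squeeze.Schwarz

set_option autoImplicit false

open Metric Set Filter Topology Function

namespace Pool.Agent.Squeeze

variable {E : Type} [NormedAddCommGroup E] [InnerProductSpace ℂ E] [FiniteDimensional ℂ E]

theorem core_ineq {D : Set E} (hDo : IsOpen D) {F : E → E} (hF : DifferentiableOn ℂ F D)
    (hFi : InjOn F D) (hFm : ∀ x ∈ D, ‖F x‖ < 1) {z : E} (hz : z ∈ D) (hFz : F z = 0)
    {r : ℝ} (hr : 0 < r) (hr1 : r ≤ 1) (hFr : ∀ y : E, ‖y‖ < r → ∃ x ∈ D, F x = y)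
    {l : E →L[ℂ] ℂ} (hl : ∀ x ∈ D, (l (x - z)).re < 1) {b w₀ : E} (hlb : l b = 1)
    {M s A γ : ℝ} (hM : 0 ≤ M) (hs : 0 < s) (hs1 : s < 1) (hrs : 1 - r ≤ s) (hA : 0 < A)
    (hγ0 : 0 ≤ γ) (hγ : γ < 1 / 2)
    (hdisc : ∀ ζ : ℂ, ‖ζ + M‖ ≤ M + 1 - s → ∀ ξ : ℂ, ‖ξ‖ < A * (1 - ζ.re) ^ γ →
      z + ζ • b + ξ • w₀ ∈ D)
    {L : E →L[ℂ] ℂ} (hL : ∀ x ∈ D, (L (x - z)).re < 1) :
    r / 2 * ‖L w₀‖ ≤ 2 * (Real.sqrt 10 / A * (s + 1 / (2 * M + 4)) ^ (1 / 2 - γ)) := by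
  obtain ⟨G, hGF, hGd⟩ := exists_inverse hDo hF hFi
  have hGball : ∀ y : E, ‖y‖ < r → G y ∈ D ∧ DifferentiableAt ℂ G y ∧ F (G y) = y := by
    intro y hy
    obtain ⟨x, hx, rfl⟩ := hFr y hy
    rw [hGF x hx]
    exact ⟨hx, hGd x hx, rfl⟩
  have hG0 : G 0 = z := by rw [← hFz]; exact hGF z hz
  have hlin : ∀ T : E →L[ℂ] ℂ, DifferentiableOn ℂ (fun y => T (G y - z)) (ball 0 r) := by
    intro T y hy
    rw [mem_ball_zero_iff] at hy
    exact (T.differentiableAt.comp y ((hGball y hy).2.1.sub_const z)).differentiableWithinAt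
  set h : ℂ → E := fun ζ => fderiv ℂ F (z + ζ • b) w₀ with hh
  have hK : ∀ ζ : ℂ, ‖ζ + M‖ ≤ M + 1 - s → s ≤ 1 - ζ.re := by
    intro ζ hζ
    have h1 := (Complex.re_le_norm (ζ + M)).trans hζ
    simp at h1
    linarith
  have hKD : ∀ ζ : ℂ, ‖ζ + M‖ ≤ M + 1 - s → z + ζ • b ∈ D := by
    intro ζ hζ
    have h1 := hK ζ hζ
    have h2 : 0 < 1 - ζ.re := hs.trans_le h1
    have h3 := hdisc ζ hζ 0 (by rw [norm_zero]; positivity)
    simpa using h3
  -- the lower bound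
  have hlow : r / 2 * ‖L w₀‖ ≤ ‖h 0‖ := by
    have e0 : h 0 = fderiv ℂ F z w₀ := by simp [hh]
    rw [e0]
    set u := fderiv ℂ F z w₀ with hu
    have hFz' : HasFDerivAt F (fderiv ℂ F z) z := ((hF z hz).differentiableAt (hDo.mem_nhds hz)).hasFDerivAt
    have hG' : HasFDerivAt G (fderiv ℂ G 0) (F z) := by
      rw [hFz]; rw [← hFz]; rw [hFz]
      have := hGd z hz
      rw [hFz] at this
      exact this.hasFDerivAt
    have hcomp := hG'.comp z hFz'
    have hid : HasFDerivAt (G ∘ F) (ContinuousLinearMap.id ℂ E) z := by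
      refine (hasFDerivAt_id z).congr_of_eventuallyEq ?_
      filter_upwards [hDo.mem_nhds hz] with x hx using hGF x hx
    have huniq := hcomp.unique hid
    have hGu : fderiv ℂ G 0 u = w₀ := by
      have := congrArg (fun T : E →L[ℂ] E => T w₀) huniq
      simpa using this
    rcases eq_or_ne u 0 with hu0 | hu0
    · rw [hu0, map_zero] at hGu
      rw [← hGu, map_zero, norm_zero, mul_zero]
      exact norm_nonneg _
    · have hun : 0 < ‖u‖ := norm_pos_iff.2 hu0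
      set v : E := ((‖u‖ : ℂ))⁻¹ • u with hv
      have hv1 : ‖v‖ = 1 := by
        rw [hv, norm_smul, norm_inv, Complex.norm_real, norm_norm, inv_mul_cancel₀ hun.ne']
      have h1 := deriv_halfplane_le hr (hlin L) (fun y hy => hL _ (hGball y (by simpa using hy)).1)
        (by simp [hG0]) hv1
      have h2 : HasDerivAt (fun t : ℂ => L (G (t • v) - z)) (L (fderiv ℂ G 0 v)) 0 := by
        have h3 : HasDerivAt (fun t : ℂ => t • v) v 0 := by simpa using (hasDerivAt_id (0 : ℂ)).smul_const v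
        have h4 : HasFDerivAt G (fderiv ℂ G 0) ((0 : ℂ) • v) := by
          rw [zero_smul, ← hFz]; rw [← hFz] at hG'; exact hG'
        have h5 := h4.comp_hasDerivAt (0 : ℂ) h3
        exact L.hasFDerivAt.comp_hasDerivAt (0 : ℂ) (h5.sub_const z)
      rw [h2.deriv, hv, map_smul, hGu, map_smul, norm_smul, norm_inv, Complex.norm_real, norm_norm] at h1
      rw [inv_mul_le_iff₀ hun, mul_div_assoc', le_div_iff₀ hr] at h1
      linarith
  -- the upper bound on the disc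
  have hup : ∀ ζ : ℂ, ‖ζ + M‖ ≤ M + 1 - s →
      ‖h ζ‖ ≤ Real.sqrt 10 / A * (1 - ζ.re) ^ (1 / 2 - γ) := by
    intro ζ hζ
    set σ := 1 - ζ.re with hσ
    have hσs : s ≤ σ := hK ζ hζ
    have hσ0 : 0 < σ := hs.trans_le hσs
    set x := z + ζ • b with hx
    have hxD : x ∈ D := hKD ζ hζ
    set ρ := A * σ ^ γ with hρ
    have hρ0 : 0 < ρ := by positivity
    have h1 := norm_deriv_sq_le (φ := fun ξ : ℂ => F (x + ξ • w₀)) hρ0
      (fun ξ hξ => (differentiableAt_line hF hDo (hdisc ζ hζ ξ (by simpa using hξ))).differentiableWithinAt)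
      (fun ξ hξ => hFm _ (hdisc ζ hζ ξ (by simpa using hξ)))
    rw [deriv_line_zero hF hDo hxD] at h1
    simp only [zero_smul, add_zero] at h1
    have h2 : 1 - ‖F x‖ ^ 2 ≤ 10 * σ := by
      have hFx := hFm x hxD
      have hFx0 := norm_nonneg (F x)
      have h3 : 1 - ‖F x‖ ≤ 5 * σ := by
        rcases lt_or_ge (‖F x‖) r with hlt | hge
        · have h4 := harnack_ball hr hr1 (hlin l) (fun y hy => hl _ (hGball y (by simpa using hy)).1)
            (by simp [hG0]) hlt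
          rw [hGF x hxD] at h4
          have h5 : l (x - z) = ζ := by
            rw [hx, add_sub_cancel_left, map_smul, hlb, smul_eq_mul, mul_one]
          rw [h5] at h4
          linarith
        · linarith
      nlinarith
    have h3 : (ρ * ‖h ζ‖) ^ 2 ≤ 10 * σ := by
      rw [mul_pow]; exact h1.trans h2
    have h4 : ρ * ‖h ζ‖ ≤ Real.sqrt (10 * σ) := Real.le_sqrt_of_sq_le h3
    have h5 : Real.sqrt (10 * σ) = Real.sqrt 10 * σ ^ (1 / 2 : ℝ) := by
      rw [Real.sqrt_mul (by norm_num), Real.sqrt_eq_rpow σ]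
    have h6 : ‖h ζ‖ ≤ Real.sqrt 10 * σ ^ (1 / 2 : ℝ) / ρ := by
      rw [le_div_iff₀ hρ0]
      rw [h5] at h4
      linarith
    refine h6.trans (le_of_eq ?_)
    rw [hρ, Real.rpow_sub hσ0]
    field_simp
  -- comparison on the circle
  set κ := s + 1 / (2 * M + 4) with hκ
  have hκ0 : 0 < κ := by positivity
  set β := 1 / 2 - γ with hβ
  have hβ0 : 0 < β := by rw [hβ]; linarith
  have hR : 0 < M + 1 - s := by linarith
  have hcirc : ∀ ζ : ℂ, ‖ζ + M‖ = M + 1 - s → 1 ≤ ‖2 - ζ‖ ∧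
      (1 - ζ.re) ^ β ≤ κ ^ β * ‖2 - ζ‖ := by
    intro ζ hζ
    have hσs := hK ζ hζ.le
    have h1 : 1 ≤ ‖2 - ζ‖ := by
      have := Complex.re_le_norm (2 - ζ)
      simp at this
      linarith
    refine ⟨h1, ?_⟩
    have h2 : ‖ζ + M‖ ^ 2 = (M + 1 - s) ^ 2 := by rw [hζ]
    rw [← Complex.normSq_eq_norm_sq, Complex.normSq_apply] at h2
    simp at h2
    have h3 : ‖2 - ζ‖ ^ 2 = (1 + s) ^ 2 + 2 * (M + 2) * (1 - ζ.re - s) := by
      rw [← Complex.normSq_eq_norm_sq, Complex.normSq_apply]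
      simp
      nlinarith
    have h4 : 1 - ζ.re ≤ κ * ‖2 - ζ‖ ^ 2 := by
      rw [h3, hκ]
      have h5 : 0 ≤ 1 - ζ.re - s := by linarith
      have h6 : 1 / (2 * M + 4) * (2 * (M + 2) * (1 - ζ.re - s)) = 1 - ζ.re - s := by
        field_simp
        ring
      have h7 : 0 < 1 / (2 * M + 4) := by positivity
      have h8 : s ≤ s * (1 + s) ^ 2 := le_mul_of_one_le_right hs.le (by nlinarith)
      have h9 : 0 ≤ s * (2 * (M + 2) * (1 - ζ.re - s)) := by positivity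
      have h10 : 0 ≤ 1 / (2 * M + 4) * (1 + s) ^ 2 := by positivity
      nlinarith
    calc (1 - ζ.re) ^ β ≤ (κ * ‖2 - ζ‖ ^ 2) ^ β := Real.rpow_le_rpow (by linarith) h4 hβ0.le
      _ = κ ^ β * (‖2 - ζ‖ ^ 2) ^ β := Real.mul_rpow hκ0.le (by positivity)
      _ = κ ^ β * ‖2 - ζ‖ ^ (2 * β) := by
          rw [← Real.rpow_natCast ‖2 - ζ‖ 2, ← Real.rpow_mul (norm_nonneg _)]; norm_num
      _ ≤ κ ^ β * ‖2 - ζ‖ ^ (1 : ℝ) :=
          mul_le_mul_of_nonneg_left (Real.rpow_le_rpow_of_exponent_le h1 (by rw [hβ]; linarith))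
            (by positivity)
      _ = κ ^ β * ‖2 - ζ‖ := by rw [Real.rpow_one]
  -- maximum principle
  have hne : ∀ ζ : ℂ, ‖ζ + M‖ ≤ M + 1 - s → 2 - ζ ≠ 0 := by
    intro ζ hζ h0
    have h1 := hK ζ hζ
    have h2 := congrArg Complex.re h0
    simp at h2
    linarith
  have hball : ∀ ζ : ℂ, ζ ∈ closedBall (-(M : ℂ)) (M + 1 - s) ↔ ‖ζ + M‖ ≤ M + 1 - s := by
    intro ζ
    rw [mem_closedBall, dist_eq_norm, sub_neg_eq_add]
  have hdc : DiffContOnCl ℂ (fun ζ : ℂ => (2 - ζ)⁻¹ • h ζ) (ball (-(M : ℂ)) (M + 1 - s)) := by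
    refine DifferentiableOn.diffContOnCl ?_
    rw [closure_ball _ hR.ne']
    intro ζ hζ
    rw [hball] at hζ
    have h1 : DifferentiableAt ℂ (fun ζ : ℂ => (2 - ζ)⁻¹) ζ :=
      ((differentiableAt_const _).sub differentiableAt_id).inv (hne ζ hζ)
    have h2 : DifferentiableAt ℂ h ζ :=
      differentiableAt_line (differentiableOn_fderiv_apply hF hDo w₀) hDo (hKD ζ hζ)
    exact (h1.smul h2).differentiableWithinAt
  have hmax := Complex.norm_le_of_forall_mem_frontier_norm_le isBounded_ball hdc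
    (C := Real.sqrt 10 / A * κ ^ β) (by
      intro ζ hζ
      rw [frontier_ball _ hR.ne', mem_sphere, dist_eq_norm, sub_neg_eq_add] at hζ
      obtain ⟨h1, h2⟩ := hcirc ζ hζ
      have h3 : 0 < ‖2 - ζ‖ := by linarith
      rw [norm_smul, norm_inv, inv_mul_le_iff₀ h3]
      calc ‖h ζ‖ ≤ Real.sqrt 10 / A * (1 - ζ.re) ^ β := hup ζ hζ.le
        _ ≤ Real.sqrt 10 / A * (κ ^ β * ‖2 - ζ‖) := by gcongr
        _ = ‖2 - ζ‖ * (Real.sqrt 10 / A * κ ^ β) := by ring) (z := 0) (by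
      rw [closure_ball _ hR.ne', hball, zero_add, Complex.norm_real, Real.norm_of_nonneg hM]
      linarith)
  rw [norm_smul, norm_inv, sub_zero] at hmax
  have h7 : ‖(2 : ℂ)‖ = 2 := by simp
  rw [h7] at hmax
  linarith

end Pool.Agent.Squeeze
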