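import Mathlib

set_option autoImplicit false

open Metric Set Filter Topology Function

namespace Pool.Agent.Squeeze

variable {E : Type} [NormedAddCommGroup E] [InnerProductSpace ℂ E]

/-- `√(1 - ‖a‖²)` -/
noncomputable def sq1 (a : E) : ℝ := Real.sqrt (1 - ‖a‖ ^ 2)

/-- the numerator of the ball automorphism -/
noncomputable def mobV (a z : E) : E :=
  (1 - innerSL ℂ a z / (1 + (sq1 a : ℂ))) • a - (sq1 a : ℂ) • z

/-- the ball automorphism exchanging `0` and `a` -/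
noncomputable def mob (a z : E) : E := (1 - innerSL ℂ a z)⁻¹ • mobV a z

omit [InnerProductSpace ℂ E] in
lemma sq1_sq {a : E} (ha : ‖a‖ < 1) : sq1 a ^ 2 = 1 - ‖a‖ ^ 2 := by
  rw [sq1, Real.sq_sqrt]
  nlinarith [norm_nonneg a]

omit [InnerProductSpace ℂ E] in
lemma sq1_pos {a : E} (ha : ‖a‖ < 1) : 0 < sq1 a := by
  rw [sq1]
  apply Real.sqrt_pos.2
  nlinarith [norm_nonneg a]

lemma one_sub_ne {a z : E} (ha : ‖a‖ < 1) (hz : ‖z‖ < 1) : 1 - innerSL ℂ a z ≠ 0 := by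
  intro h
  have h1 : innerSL ℂ a z = 1 := (sub_eq_zero.1 h).symm
  have h2 : ‖innerSL ℂ a z‖ ≤ ‖a‖ * ‖z‖ := norm_inner_le_norm a z
  rw [h1, norm_one] at h2
  nlinarith [norm_nonneg a, norm_nonneg z]

lemma norm_one_sub_le {a z : E} (ha : ‖a‖ < 1) (hz : ‖z‖ < 1) : ‖1 - innerSL ℂ a z‖ ≤ 2 := by
  have h2 : ‖innerSL ℂ a z‖ ≤ ‖a‖ * ‖z‖ := norm_inner_le_norm a z
  calc ‖1 - innerSL ℂ a z‖ ≤ ‖(1 : ℂ)‖ + ‖innerSL ℂ a z‖ := norm_sub_le _ _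
    _ ≤ 2 := by rw [norm_one]; nlinarith [norm_nonneg a, norm_nonneg z]

lemma norm_mobV_sq {a z : E} (ha : ‖a‖ < 1) :
    ‖mobV a z‖ ^ 2 = ‖1 - innerSL ℂ a z‖ ^ 2 - sq1 a ^ 2 * (1 - ‖z‖ ^ 2) := by
  set s := sq1 a with hs
  have hs0 : 0 < s := sq1_pos ha
  have hs2 : s ^ 2 = 1 - ‖a‖ ^ 2 := sq1_sq ha
  set t := innerSL ℂ a z with ht
  have hti : inner ℂ a z = t := rfl
  rw [mobV, ← hs, ← ht, @norm_sub_sq ℂ]
  rw [norm_smul, norm_smul, inner_smul_left, inner_smul_right, hti]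
  rw [mul_pow, mul_pow, Complex.norm_real, Real.norm_of_nonneg hs0.le]
  have h1 : (1 + (s : ℂ)) = ((1 + s : ℝ) : ℂ) := by push_cast; rfl
  have e1 : ‖1 - t / (1 + (s : ℂ))‖ ^ 2 = (1 - t.re / (1 + s)) ^ 2 + (t.im / (1 + s)) ^ 2 := by
    rw [h1, ← Complex.normSq_eq_norm_sq, Complex.normSq_apply]
    simp only [Complex.sub_re, Complex.one_re, Complex.div_ofReal_re, Complex.sub_im, Complex.one_im,
      Complex.div_ofReal_im]
    ring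
  have e2 : ‖1 - t‖ ^ 2 = (1 - t.re) ^ 2 + t.im ^ 2 := by
    rw [← Complex.normSq_eq_norm_sq, Complex.normSq_apply]
    simp only [Complex.sub_re, Complex.one_re, Complex.sub_im, Complex.one_im]
    ring
  have e3 : RCLike.re ((starRingEnd ℂ) (1 - t / (1 + (s : ℂ))) * ((s : ℂ) * t)) =
      s * ((1 - t.re / (1 + s)) * t.re - t.im / (1 + s) * t.im) := by
    rw [h1]
    simp only [RCLike.re_to_complex, Complex.mul_re, Complex.conj_re, Complex.conj_im,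
      Complex.ofReal_re, Complex.ofReal_im, Complex.sub_re, Complex.one_re, Complex.div_ofReal_re,
      Complex.sub_im, Complex.one_im, Complex.div_ofReal_im, Complex.mul_im]
    ring
  rw [e1, e2, e3]
  have ha2 : ‖a‖ ^ 2 = 1 - s ^ 2 := by linarith
  rw [ha2]
  have : (1 + s) ≠ 0 := by positivity
  field_simp
  ring

lemma one_sub_norm_mob_sq {a z : E} (ha : ‖a‖ < 1) (hz : ‖z‖ < 1) :
    1 - ‖mob a z‖ ^ 2 = sq1 a ^ 2 * (1 - ‖z‖ ^ 2) / ‖1 - innerSL ℂ a z‖ ^ 2 := by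
  have h1 : ‖1 - innerSL ℂ a z‖ ≠ 0 := norm_ne_zero_iff.2 (one_sub_ne ha hz)
  rw [mob, norm_smul, norm_inv, mul_pow, norm_mobV_sq ha]
  field_simp
  ring

lemma norm_mob_lt {a z : E} (ha : ‖a‖ < 1) (hz : ‖z‖ < 1) : ‖mob a z‖ < 1 := by
  have h1 : 0 < ‖1 - innerSL ℂ a z‖ := norm_pos_iff.2 (one_sub_ne ha hz)
  have h2 := one_sub_norm_mob_sq ha hz
  have h3 : 0 < sq1 a ^ 2 * (1 - ‖z‖ ^ 2) / ‖1 - innerSL ℂ a z‖ ^ 2 := by
    have := sq1_pos ha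
    have : 0 < 1 - ‖z‖ ^ 2 := by nlinarith [norm_nonneg z]
    positivity
  nlinarith [norm_nonneg (mob a z)]

lemma mob_self {a : E} (ha : ‖a‖ < 1) : mob a a = 0 := by
  have hs0 : 0 < sq1 a := sq1_pos ha
  have hs2 : sq1 a ^ 2 = 1 - ‖a‖ ^ 2 := sq1_sq ha
  have h1 : innerSL ℂ a a = ((‖a‖ ^ 2 : ℝ) : ℂ) := by
    show inner ℂ a a = _
    rw [inner_self_eq_norm_sq_to_K]; push_cast; rfl
  rw [mob, mobV, h1, ← sub_smul]
  have h2 : (1 - ((‖a‖ ^ 2 : ℝ) : ℂ) / (1 + (sq1 a : ℂ)) - (sq1 a : ℂ)) = 0 := by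
    have h3 : (1 + (sq1 a : ℂ)) ≠ 0 := by
      have : (1 + (sq1 a : ℂ)) = ((1 + sq1 a : ℝ) : ℂ) := by push_cast; rfl
      rw [this]; exact_mod_cast (by positivity : (1 + sq1 a) ≠ 0)
    have h4 : ‖a‖ ^ 2 = 1 - sq1 a ^ 2 := by linarith
    rw [h4]
    push_cast
    field_simp
    ring
  rw [h2, zero_smul, smul_zero]

lemma mob_mob {a z : E} (ha : ‖a‖ < 1) (hz : ‖z‖ < 1) : mob a (mob a z) = z := by
  set s := sq1 a with hs
  have hs0 : 0 < s := sq1_pos ha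
  have hs2 : s ^ 2 = 1 - ‖a‖ ^ 2 := sq1_sq ha
  set t := innerSL ℂ a z with ht
  have h1 : innerSL ℂ a a = 1 - (s : ℂ) ^ 2 := by
    have : innerSL ℂ a a = ((‖a‖ ^ 2 : ℝ) : ℂ) := by
      show inner ℂ a a = _
      rw [inner_self_eq_norm_sq_to_K]; push_cast; rfl
    rw [this]
    have h4 : ‖a‖ ^ 2 = 1 - s ^ 2 := by linarith
    rw [h4]; push_cast; ring
  have h3 : (1 + (s : ℂ)) ≠ 0 := by
    have : (1 + (s : ℂ)) = ((1 + s : ℝ) : ℂ) := by push_cast; rfl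
    rw [this]; exact_mod_cast (by positivity : (1 + s) ≠ 0)
  have h3s : (s : ℂ) ≠ 0 := by exact_mod_cast hs0.ne'
  have hne : 1 - t ≠ 0 := one_sub_ne ha hz
  have h5 : innerSL ℂ a (mob a z) = (1 - (s : ℂ) ^ 2 - t) / (1 - t) := by
    rw [mob, mobV, map_smul, map_sub, map_smul, map_smul, h1, ← ht, ← hs]
    simp only [smul_eq_mul]
    field_simp
    ring
  have h6 : 1 - innerSL ℂ a (mob a z) = (s : ℂ) ^ 2 / (1 - t) := by
    rw [h5]; field_simp; ring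
  have h7 : mob a (mob a z) = ((s : ℂ) ^ 2 / (1 - t))⁻¹ •
      ((1 - (1 - (s : ℂ) ^ 2 - t) / (1 - t) / (1 + (s : ℂ))) • a - (s : ℂ) • (mob a z)) := by
    rw [← h6, ← h5]; rfl
  rw [h7, mob, mobV, ← ht, ← hs]
  match_scalars
  · field_simp
    ring
  · field_simp

lemma differentiableAt_mob {a z : E} (ha : ‖a‖ < 1) (hz : ‖z‖ < 1) : DifferentiableAt ℂ (mob a) z := by
  have h1 : DifferentiableAt ℂ (fun z => innerSL ℂ a z) z := (innerSL ℂ a).differentiableAt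
  have h2 : DifferentiableAt ℂ (fun z => (1 - innerSL ℂ a z)⁻¹) z :=
    ((differentiableAt_const _).sub h1).inv (one_sub_ne ha hz)
  have h3 : DifferentiableAt ℂ (mobV a) z := by
    unfold mobV
    have h4 : DifferentiableAt ℂ (fun z => 1 - innerSL ℂ a z / (1 + (sq1 a : ℂ))) z := by
      simp only [div_eq_mul_inv]
      exact (differentiableAt_const _).sub (h1.mul_const _)
    exact (h4.smul_const a).sub (differentiableAt_id.const_smul _)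
  exact h2.smul h3

lemma mob_injOn {a : E} (ha : ‖a‖ < 1) : InjOn (mob a) (ball 0 1) := by
  intro x hx y hy h
  rw [mem_ball_zero_iff] at hx hy
  rw [← mob_mob ha hx, ← mob_mob ha hy, h]

/-- points of a slightly smaller ball have preimages in a given large ball -/
lemma exists_mob_eq {a y : E} {q r r' : ℝ} (hq : ‖a‖ ≤ q) (hq1 : q < 1) (hy : ‖y‖ < r') (hr' : r' ≤ 1)
    (hr : 1 - r ^ 2 < (1 - q ^ 2) * (1 - r' ^ 2) / 4) (hr0 : 0 ≤ r) :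
    ‖mob a y‖ < r ∧ mob a (mob a y) = y := by
  have ha : ‖a‖ < 1 := hq.trans_lt hq1
  have hy1 : ‖y‖ < 1 := hy.trans_le hr'
  refine ⟨?_, mob_mob ha hy1⟩
  have h1 := one_sub_norm_mob_sq ha hy1
  have h2 : 0 < ‖1 - innerSL ℂ a y‖ := norm_pos_iff.2 (one_sub_ne ha hy1)
  have h3 := norm_one_sub_le ha hy1
  have h4 : ‖1 - innerSL ℂ a y‖ ^ 2 ≤ 4 := by nlinarith
  have h5 : (1 - q ^ 2) * (1 - r' ^ 2) / 4 ≤ sq1 a ^ 2 * (1 - ‖y‖ ^ 2) / ‖1 - innerSL ℂ a y‖ ^ 2 := by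
    rw [sq1_sq ha]
    have h6 : (1 - q ^ 2) ≤ 1 - ‖a‖ ^ 2 := by nlinarith [norm_nonneg a]
    have h7 : (1 - r' ^ 2) ≤ 1 - ‖y‖ ^ 2 := by nlinarith [norm_nonneg y]
    have h8 : 0 ≤ 1 - q ^ 2 := by nlinarith [norm_nonneg a]
    have h9 : 0 ≤ 1 - ‖y‖ ^ 2 := by nlinarith [norm_nonneg y]
    have h10 : 0 ≤ 1 - r' ^ 2 := by nlinarith [norm_nonneg y]
    have h11 : 0 ≤ 1 - ‖a‖ ^ 2 := h8.trans h6
    have h12 : 0 ≤ (1 - ‖a‖ ^ 2) * (1 - ‖y‖ ^ 2) := mul_nonneg h11 h9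
    gcongr
  rw [← h1] at h5
  have h6 : ‖mob a y‖ ^ 2 < r ^ 2 := by linarith
  exact lt_of_pow_lt_pow_left₀ 2 hr0 h6

end Pool.Agent.Squeeze
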