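import Mathlib
import Pool.Agent.Squeeze.CoreIneq
import Pool.Agent.Squeeze.Mob

set_option autoImplicit false

open Metric Set Filter Topology Function

namespace Pool.Agent.Squeeze

variable {E : Type} [NormedAddCommGroup E] [InnerProductSpace ℂ E] [FiniteDimensional ℂ E]

omit [FiniteDimensional ℂ E] in
/-- a complex disc in the direction `a` around a deeper point is contained in the domain -/
lemma disc_incl {D : Set E}
    (hconv : ∀ x ∈ D, ∀ y ∈ D, ∀ t : ℝ, 0 ≤ t → t ≤ 1 → ((1 - t : ℝ) : ℂ) • x + ((t : ℝ) : ℂ) • y ∈ D)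
    {p a : E} {Λ : E →L[ℂ] ℂ} (hΛD : ∀ x ∈ D, (Λ (x - p)).re < 0) (hΛa : Λ a = 1)
    {C₁ r₀ : ℝ} (hC₁ : 0 < C₁) (hr₀ : 0 < r₀)
    (hP1 : ∀ y : E, ‖y‖ < r₀ → (Λ y).re + C₁ * ‖y‖ ^ 2 < 0 → p + y ∈ D)
    {R : ℝ} (hR : 0 < R) :
    ∃ τ > 0, ∀ z ∈ D, ∀ δ : ℝ, 0 < δ → ball z δ ⊆ D → ‖z - p‖ < τ → δ < τ →
      ∀ ω : ℂ, ‖ω‖ < (R + 1 / (4 * ‖a‖)) * δ → (z - ((R * δ : ℝ) : ℂ) • a) + ω • a ∈ D := by
  have ha0 : a ≠ 0 := by rintro rfl; simp at hΛa
  have ha : 0 < ‖a‖ := norm_pos_iff.2 ha0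
  set c := 1 / (4 * ‖a‖) with hc
  have hc0 : 0 < c := by positivity
  have hca : c * ‖a‖ = 1 / 4 := by rw [hc]; field_simp
  set κ := c / (2 * R + 3 * c) with hκ
  have hκ0 : 0 < κ := by positivity
  set q := min (κ / (8 * C₁ * ‖a‖ ^ 2)) (r₀ / (4 * ‖a‖)) with hq
  have hq0 : 0 < q := by positivity
  have hq1 : q * (8 * C₁ * ‖a‖ ^ 2) ≤ κ := by
    have := min_le_left (κ / (8 * C₁ * ‖a‖ ^ 2)) (r₀ / (4 * ‖a‖))
    rw [← hq] at this
    rwa [le_div_iff₀ (by positivity)] at this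
  have hq2 : q * (4 * ‖a‖) ≤ r₀ := by
    have := min_le_right (κ / (8 * C₁ * ‖a‖ ^ 2)) (r₀ / (4 * ‖a‖))
    rw [← hq] at this
    rwa [le_div_iff₀ (by positivity)] at this
  refine ⟨min (min (2 / 3 * q * ‖a‖) (κ * q / (8 * c))) (q / (2 * R + 3 * c)), by positivity, ?_⟩
  intro z hz δ hδ hball hzp hδτ ω hω
  have t1 : ‖z - p‖ < 2 / 3 * q * ‖a‖ := hzp.trans_le ((min_le_left _ _).trans (min_le_left _ _))
  have t2 : δ < 2 / 3 * q * ‖a‖ := hδτ.trans_le ((min_le_left _ _).trans (min_le_left _ _))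
  have t3 : δ < κ * q / (8 * c) := hδτ.trans_le ((min_le_left _ _).trans (min_le_right _ _))
  have t4 : δ < q / (2 * R + 3 * c) := hδτ.trans_le (min_le_right _ _)
  rw [lt_div_iff₀ (by positivity)] at t3 t4
  set s := q / ((2 * R + 3 * c) * δ) with hs
  have hden : 0 < (2 * R + 3 * c) * δ := by positivity
  have hs0 : 0 < s := by positivity
  have hs1 : 1 ≤ s := by
    rw [hs, le_div_iff₀ hden]; linarith
  set η : ℂ := ω - ((R * δ : ℝ) : ℂ) with hη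
  set η₁ : ℂ := ((2 * c * δ : ℝ) : ℂ) with hη₁
  set η₂ : ℂ := η₁ + (s : ℂ) * (η - η₁) with hη₂
  have hre : (η - η₁).re < -(c * δ) := by
    have h1 := Complex.re_le_norm ω
    have h2 : (η - η₁).re = ω.re - R * δ - 2 * c * δ := by
      rw [hη, hη₁, Complex.sub_re, Complex.sub_re, Complex.ofReal_re, Complex.ofReal_re]
    rw [h2]
    nlinarith
  have hnorm : ‖η - η₁‖ < (2 * R + 3 * c) * δ := by
    have h1 : η - η₁ = ω - ((R * δ + 2 * c * δ : ℝ) : ℂ) := by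
      rw [hη, hη₁]; push_cast; ring
    rw [h1]
    calc _ ≤ ‖ω‖ + ‖((R * δ + 2 * c * δ : ℝ) : ℂ)‖ := norm_sub_le _ _
      _ = ‖ω‖ + (R * δ + 2 * c * δ) := by
          rw [Complex.norm_real, Real.norm_of_nonneg (by positivity)]
      _ < (2 * R + 3 * c) * δ := by nlinarith
  -- first point
  have hA : z + η₁ • a ∈ D := by
    apply hball
    rw [mem_ball, dist_eq_norm, add_sub_cancel_left, norm_smul, hη₁, Complex.norm_real,
      Real.norm_of_nonneg (by positivity)]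
    have : 2 * c * δ * ‖a‖ = 2 * δ * (c * ‖a‖) := by ring
    rw [this, hca]; linarith
  -- second point
  have hB : z + η₂ • a ∈ D := by
    have h1 : z + η₂ • a = p + ((z - p) + η₂ • a) := by abel
    rw [h1]
    have hη₂re : η₂.re < 2 * c * δ - κ * q := by
      have h2 : η₂.re = 2 * c * δ + s * (η - η₁).re := by
        rw [hη₂, Complex.add_re, Complex.re_ofReal_mul, hη₁, Complex.ofReal_re]
      rw [h2]
      have h3 : s * (η - η₁).re < s * (-(c * δ)) := mul_lt_mul_of_pos_left hre hs0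
      have h4 : s * (c * δ) = κ * q := by
        rw [hs, hκ]; field_simp
      linarith
    have hη₂n : ‖η₂‖ ≤ 2 * c * δ + q := by
      calc ‖η₂‖ ≤ ‖η₁‖ + ‖(s : ℂ) * (η - η₁)‖ := norm_add_le _ _
        _ = 2 * c * δ + s * ‖η - η₁‖ := by
            have e1 : ‖η₁‖ = 2 * c * δ := by
              rw [hη₁, Complex.norm_real, Real.norm_of_nonneg (by positivity)]
            rw [e1, norm_mul, Complex.norm_real, Real.norm_of_nonneg hs0.le]
        _ ≤ 2 * c * δ + s * ((2 * R + 3 * c) * δ) := by gcongr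
        _ = 2 * c * δ + q := by rw [hs, div_mul_cancel₀ _ hden.ne']
    have hyn : ‖(z - p) + η₂ • a‖ ≤ 2 * q * ‖a‖ := by
      calc ‖(z - p) + η₂ • a‖ ≤ ‖z - p‖ + ‖η₂ • a‖ := norm_add_le _ _
        _ ≤ ‖z - p‖ + (2 * c * δ + q) * ‖a‖ := by rw [norm_smul]; gcongr
        _ = ‖z - p‖ + 2 * δ * (c * ‖a‖) + q * ‖a‖ := by ring
        _ ≤ 2 * q * ‖a‖ := by rw [hca]; linarith
    apply hP1
    · calc _ ≤ 2 * q * ‖a‖ := hyn
        _ < r₀ := by nlinarith [mul_pos hq0 ha]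
    · have h2 : (Λ ((z - p) + η₂ • a)).re = (Λ (z - p)).re + η₂.re := by
        rw [map_add, map_smul, hΛa, smul_eq_mul, mul_one, Complex.add_re]
      rw [h2]
      have h3 := hΛD z hz
      have h4 : ‖(z - p) + η₂ • a‖ ^ 2 ≤ (2 * q * ‖a‖) ^ 2 := pow_le_pow_left₀ (norm_nonneg _) hyn 2
      have h5 : C₁ * ‖(z - p) + η₂ • a‖ ^ 2 ≤ κ * q / 2 := by
        calc C₁ * ‖(z - p) + η₂ • a‖ ^ 2 ≤ C₁ * (2 * q * ‖a‖) ^ 2 := by gcongr
          _ = (q * (8 * C₁ * ‖a‖ ^ 2)) * q / 2 := by ring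
          _ ≤ κ * q / 2 := by gcongr
      have h6 : 2 * c * δ < κ * q / 4 := by linarith
      have h7 : 0 < κ * q := by positivity
      linarith
  -- convexity
  have hfin := hconv _ hA _ hB (1 / s) (by positivity) (by rw [div_le_one hs0]; exact hs1)
  have e : ((1 - 1 / s : ℝ) : ℂ) • (z + η₁ • a) + ((1 / s : ℝ) : ℂ) • (z + η₂ • a) =
      (z - ((R * δ : ℝ) : ℂ) • a) + ω • a := by
    have hs' : (s : ℂ) ≠ 0 := by exact_mod_cast hs0.ne'
    rw [hη₂, hη]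
    push_cast
    match_scalars
    · ring
    · field_simp
      ring
  rw [e] at hfin
  exact hfin

omit [FiniteDimensional ℂ E] in
/-- moving the base point of a squeezing map -/
lemma squeeze_move {D : Set E} {f : E → E} (hf : DifferentiableOn ℂ f D)
    (hfi : InjOn f D) (hfm : ∀ x ∈ D, ‖f x‖ < 1) {z z' a : E} (hfz : f z = 0)
    {ρ₀ θ : ℝ} (hρ₀ : 0 < ρ₀) (hθ : 0 ≤ θ) (hθ1 : θ < 1)
    (hdisc : ∀ ω : ℂ, ‖ω‖ < ρ₀ → z' + ω • a ∈ D) (hzz' : z = z' + ((θ * ρ₀ : ℝ) : ℂ) • a)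
    {r r' : ℝ} (hr : 0 ≤ r) (hr'1 : r' ≤ 1) (hfr : ∀ y : E, ‖y‖ < r → ∃ x ∈ D, f x = y)
    (hrr : 1 - r ^ 2 < (1 - θ ^ 2) * (1 - r' ^ 2) / 4) :
    ∃ F : E → E, DifferentiableOn ℂ F D ∧ InjOn F D ∧ (∀ x ∈ D, ‖F x‖ < 1) ∧ F z' = 0 ∧
      ∀ y : E, ‖y‖ < r' → ∃ x ∈ D, F x = y := by
  have hz'D : z' ∈ D := by simpa using hdisc 0 (by simpa using hρ₀)
  have hmaps : ∀ t ∈ ball (0 : ℂ) 1, z' + ((ρ₀ : ℂ) * t) • a ∈ D := by
    intro t ht
    rw [mem_ball_zero_iff] at ht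
    apply hdisc
    rw [norm_mul, Complex.norm_real, Real.norm_of_nonneg hρ₀.le]
    nlinarith
  have hb : ‖f z'‖ ≤ θ := by
    have h1 := norm_le_of_zero (f := fun t : ℂ => f (z' + ((ρ₀ : ℂ) * t) • a)) hθ hθ1
      (hf.comp (by fun_prop) hmaps) (fun t ht => hfm _ (hmaps t ht)) (by
        show f (z' + ((ρ₀ : ℂ) * (θ : ℂ)) • a) = 0
        rw [← hfz, hzz']
        congr 3
        push_cast; ring)
    simpa using h1
  have ha : ‖f z'‖ < 1 := hb.trans_lt hθ1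
  refine ⟨fun x => mob (f z') (f x), ?_, ?_, ?_, mob_self ha, ?_⟩
  · intro x hx
    have h1 := (differentiableAt_mob ha (hfm x hx))
    exact h1.comp_differentiableWithinAt x (hf x hx)
  · intro x hx y hy h
    exact hfi hx hy (mob_injOn ha (by simpa using hfm x hx) (by simpa using hfm y hy) h)
  · intro x hx
    exact norm_mob_lt ha (hfm x hx)
  · intro y hy
    obtain ⟨h1, h2⟩ := exists_mob_eq hb hθ1 hy hr'1 hrr hr
    obtain ⟨x, hx, hxy⟩ := hfr _ h1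
    exact ⟨x, hx, by simp only; rw [hxy, h2]⟩

end Pool.Agent.Squeeze
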