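import Mathlib
import Pool.Agent.Squeeze.CoreIneq

set_option autoImplicit false

open Metric Set Filter Topology Function

namespace Pool.Agent.Squeeze

variable {E : Type} [NormedAddCommGroup E] [InnerProductSpace ℂ E] [FiniteDimensional ℂ E]

/-- the final inequality at a base point very close (in the paraboloidal sense) to `p` -/
lemma final_ineq {D : Set E} (hDo : IsOpen D)
    (hconv : ∀ x ∈ D, ∀ y ∈ D, ∀ t : ℝ, 0 ≤ t → t ≤ 1 → ((1 - t : ℝ) : ℂ) • x + ((t : ℝ) : ℂ) • y ∈ D)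
    (hsup : ∀ x, x ∉ D → ∃ L : E →L[ℂ] ℂ, ∀ y ∈ D, (L y).re < (L x).re)
    {p a w₀ : E} {Λ : E →L[ℂ] ℂ} (hΛD : ∀ x ∈ D, (Λ (x - p)).re < 0) (hΛa : Λ a = 1)
    {C₁ r₀ : ℝ} (hC₁ : 0 < C₁) (hr₀ : 0 < r₀)
    (hP1 : ∀ y : E, ‖y‖ < r₀ → (Λ y).re + C₁ * ‖y‖ ^ 2 < 0 → p + y ∈ D)
    {γ C₂ r₂ : ℝ} (hγ0 : 0 < γ) (hγ : γ < 1 / 2) (hC₂ : 0 < C₂) (hr₂ : 0 < r₂)
    (hP2 : ∀ η : ℂ, ∀ t : ℝ, ‖η‖ < r₂ → 0 < t → t < r₂ → ‖η‖ < (t / (2 * C₂)) ^ γ →
      p + η • w₀ - (t : ℂ) • a ∈ D)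
    {ζ₀ : ℂ} {c₂ r₃ : ℝ} (hc₂ : 0 < c₂) (hr₃ : 0 < r₃)
    (hP3 : ∀ s t : ℝ, 0 < s → s < r₃ → 0 < t → t < r₃ → s = (2 * t / c₂) ^ γ →
      p + ((s : ℂ) * ζ₀) • w₀ - (t : ℂ) • a ∉ D)
    {s M : ℝ} (hs : 0 < s) (hs1 : s < 1) (hM : 0 ≤ M) :
    ∃ ε > 0, ∀ᶠ d in 𝓝[>] (0 : ℝ), ∀ z ∈ D, -(Λ (z - p)).re = d → ‖z - p‖ ^ 2 ≤ ε * d →
      ∀ F : E → E, DifferentiableOn ℂ F D → InjOn F D → (∀ x ∈ D, ‖F x‖ < 1) → F z = 0 →
      ∀ r : ℝ, 1 / 2 ≤ r → r ≤ 1 → 1 - r ≤ s → (∀ y : E, ‖y‖ < r → ∃ x ∈ D, F x = y) →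
      1 / (8 * (‖ζ₀‖ + 1) * (3 / c₂) ^ γ) ≤
        4 * Real.sqrt 10 * (4 * C₂) ^ γ * (s + 1 / (2 * M + 4)) ^ (1 / 2 - γ) := by
  set ε := min (s / (12 * C₁)) (1 / (4 * C₁)) with hε
  have hε0 : 0 < ε := by positivity
  have hε1 : 12 * C₁ * ε ≤ s := by
    have := min_le_left (s / (12 * C₁)) (1 / (4 * C₁))
    rw [← hε, le_div_iff₀ (by positivity)] at this
    linarith
  have hε2 : 4 * C₁ * ε ≤ 1 := by
    have := min_le_right (s / (12 * C₁)) (1 / (4 * C₁))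
    rw [← hε, le_div_iff₀ (by positivity)] at this
    linarith
  set N := 2 * M + 2 with hN
  have hN0 : 0 < N := by positivity
  set CM := 3 * (4 * (2 * M + 1) ^ 2 + N ^ 2 / 4) * ‖a‖ ^ 2 with hCM
  have hCM0 : 0 ≤ CM := by positivity
  refine ⟨ε, hε0, ?_⟩
  -- the smallness conditions
  have hc0 : ∀ g : ℝ → ℝ, Continuous g → g 0 = 0 → ∀ b : ℝ, 0 < b → ∀ᶠ d in 𝓝[>] (0 : ℝ), g d < b := by
    intro g hg hg0 b hb
    have h1 : Tendsto g (𝓝 0) (𝓝 (g 0)) := hg.tendsto 0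
    rw [hg0] at h1
    exact (h1.mono_left nhdsWithin_le_nhds).eventually (gt_mem_nhds hb)
  have hrp : Continuous fun x : ℝ => x ^ γ := Real.continuous_rpow_const hγ0.le
  have hz0 : (0 : ℝ) ^ γ = 0 := Real.zero_rpow hγ0.ne'
  filter_upwards [hc0 (fun d => d * N) (by fun_prop) (by simp) r₂ hr₂,
    hc0 (fun d => (d * N / (4 * C₂)) ^ γ) (hrp.comp (by fun_prop)) (by simp [hz0]) r₂ hr₂,
    hc0 (fun d => C₁ * CM * d) (by fun_prop) (by simp) (s / 2) (by positivity),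
    hc0 (fun d => 12 * ε * d + CM * d ^ 2) (by fun_prop) (by simp) (r₀ ^ 2) (by positivity),
    hc0 (fun d => 18 * C₁ * ‖a‖ ^ 2 * d) (by fun_prop) (by simp) 1 one_pos,
    hc0 (fun d => 2 * ε * d + 18 * ‖a‖ ^ 2 * d ^ 2) (by fun_prop) (by simp) (r₀ ^ 2) (by positivity),
    hc0 (fun d => (3 * d / c₂) ^ γ) (hrp.comp (by fun_prop)) (by simp [hz0]) r₃ hr₃,
    hc0 (fun d => 3 / 2 * d) (by fun_prop) (by simp) r₃ hr₃,
    self_mem_nhdsWithin] with d d1 d2 d3 d4 d5 d6 d7 d8 hd0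
  have hd0 : 0 < d := hd0
  intro z hz hzd hzp F hF hFi hFm hFz r hr2 hr1 hrs hFr
  set A := (1 / 2) * (d / (4 * C₂)) ^ γ with hA
  have hA0 : 0 < A := by positivity
  -- the disc condition
  have hdisc : ∀ ζ : ℂ, ‖ζ + M‖ ≤ M + 1 - s → ∀ ξ : ℂ, ‖ξ‖ < A * (1 - ζ.re) ^ γ →
      z + ζ • ((d : ℂ) • a) + ξ • w₀ ∈ D := by
    intro ζ hζ ξ hξ
    set σ := 1 - ζ.re with hσ
    have hσs : s ≤ σ := by
      have h1 := (Complex.re_le_norm (ζ + M)).trans hζ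
      simp at h1
      linarith
    have hσ0 : 0 < σ := hs.trans_le hσs
    have hζn : ‖ζ‖ ≤ 2 * M + 1 := by
      calc ‖ζ‖ = ‖(ζ + M) - M‖ := by congr 1; ring
        _ ≤ ‖ζ + M‖ + ‖(M : ℂ)‖ := norm_sub_le _ _
        _ ≤ (M + 1 - s) + M := by
            rw [Complex.norm_real, Real.norm_of_nonneg hM]; gcongr
        _ ≤ 2 * M + 1 := by linarith
    have hσN : σ ≤ N := by
      have h1 := Complex.abs_re_le_norm ζ
      have h2 := neg_abs_le ζ.re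
      rw [hσ, hN]; linarith
    have hAσ : A * σ ^ γ = 1 / 2 * (d * σ / (4 * C₂)) ^ γ := by
      rw [hA, mul_assoc, ← Real.mul_rpow (by positivity) hσ0.le]
      congr 2; ring
    -- first point
    have hpt1 : p + (2 * ξ) • w₀ - ((d * σ / 2 : ℝ) : ℂ) • a ∈ D := by
      have h2ξ : ‖2 * ξ‖ < (d * σ / (4 * C₂)) ^ γ := by
        rw [norm_mul, Complex.norm_ofNat]
        rw [hAσ] at hξ; linarith
      apply hP2
      · refine h2ξ.trans_le (le_trans ?_ d2.le)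
        gcongr
      · positivity
      · have : d * σ ≤ d * N := by gcongr
        have h3 : 0 < d * σ := by positivity
        linarith
      · refine h2ξ.trans_le (le_of_eq ?_)
        congr 1; field_simp; norm_num
    -- second point
    set y := (2 : ℂ) • (z - p) + ((2 * d : ℝ) : ℂ) • (ζ • a) + ((d * σ / 2 : ℝ) : ℂ) • a with hy
    have hyre : (Λ y).re = -(3 / 2) * (d * σ) := by
      rw [hy]
      simp only [map_add, map_smul, hΛa, smul_eq_mul, mul_one, Complex.add_re]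
      rw [Complex.re_ofReal_mul, Complex.ofReal_re]
      have : (2 * Λ (z - p)).re = 2 * (Λ (z - p)).re := by simp
      rw [this]
      have h4 : (Λ (z - p)).re = -d := by linarith
      rw [h4, hσ]; ring
    have hyn : ‖y‖ ^ 2 ≤ 12 * ε * d + CM * d ^ 2 := by
      have h1 : ‖y‖ ≤ 2 * ‖z - p‖ + 2 * d * (2 * M + 1) * ‖a‖ + d * N / 2 * ‖a‖ := by
        calc ‖y‖ ≤ ‖(2 : ℂ) • (z - p)‖ + ‖((2 * d : ℝ) : ℂ) • (ζ • a)‖ + ‖((d * σ / 2 : ℝ) : ℂ) • a‖ :=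
              norm_add₃_le
          _ = 2 * ‖z - p‖ + 2 * d * (‖ζ‖ * ‖a‖) + d * σ / 2 * ‖a‖ := by
              rw [norm_smul, norm_smul, norm_smul, norm_smul, Complex.norm_real, Complex.norm_real,
                Real.norm_of_nonneg (by positivity), Real.norm_of_nonneg (by positivity),
                Complex.norm_ofNat]
          _ ≤ 2 * ‖z - p‖ + 2 * d * ((2 * M + 1) * ‖a‖) + d * N / 2 * ‖a‖ := by gcongr
          _ = _ := by ring
      have h2 : ‖y‖ ^ 2 ≤ (2 * ‖z - p‖ + 2 * d * (2 * M + 1) * ‖a‖ + d * N / 2 * ‖a‖) ^ 2 :=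
        pow_le_pow_left₀ (norm_nonneg _) h1 2
      have h3 : ∀ x y z : ℝ, (x + y + z) ^ 2 ≤ 3 * (x ^ 2 + y ^ 2 + z ^ 2) := by
        intro x y z; nlinarith [sq_nonneg (x - y), sq_nonneg (y - z), sq_nonneg (x - z)]
      refine (h2.trans (h3 _ _ _)).trans ?_
      rw [hCM]
      nlinarith
    have hpt2 : p + y ∈ D := by
      apply hP1
      · have h1 : ‖y‖ ^ 2 < r₀ ^ 2 := hyn.trans_lt d4
        exact lt_of_pow_lt_pow_left₀ 2 hr₀.le h1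
      · rw [hyre]
        have h1 : C₁ * ‖y‖ ^ 2 ≤ C₁ * (12 * ε * d + CM * d ^ 2) := by gcongr
        have h2 : C₁ * (12 * ε * d + CM * d ^ 2) = (12 * C₁ * ε) * d + (C₁ * CM * d) * d := by ring
        have h3 : (12 * C₁ * ε) * d ≤ s * d := by gcongr
        have h4 : (C₁ * CM * d) * d ≤ s / 2 * d := by gcongr
        have h5 : s * d ≤ d * σ := by nlinarith
        have h6 : (C₁ * CM * d) * d < s / 2 * d := by gcongr
        nlinarith
    have hfin := hconv _ hpt1 _ hpt2 (1 / 2) (by norm_num) (by norm_num)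
    have e : ((1 - 1 / 2 : ℝ) : ℂ) • (p + (2 * ξ) • w₀ - ((d * σ / 2 : ℝ) : ℂ) • a) +
        ((1 / 2 : ℝ) : ℂ) • (p + y) = z + ζ • ((d : ℂ) • a) + ξ • w₀ := by
      rw [hy]
      push_cast
      module
    rw [e] at hfin
    exact hfin
  -- the supporting functional
  set sd := (3 * d / c₂) ^ γ with hsd
  have hsd0 : 0 < sd := by positivity
  have hnot : z + ((2 * sd : ℝ) * ζ₀) • w₀ ∉ D := by
    intro hin
    set y := -(z - p) - ((3 * d : ℝ) : ℂ) • a with hy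
    have hyre : (Λ y).re = -2 * d := by
      rw [hy, map_sub, map_neg, map_smul, hΛa, smul_eq_mul, mul_one, Complex.sub_re, Complex.neg_re,
        Complex.ofReal_re]
      linarith
    have hyn : ‖y‖ ^ 2 ≤ 2 * ε * d + 18 * ‖a‖ ^ 2 * d ^ 2 := by
      have h1 : ‖y‖ ≤ ‖z - p‖ + 3 * d * ‖a‖ := by
        calc ‖y‖ ≤ ‖-(z - p)‖ + ‖((3 * d : ℝ) : ℂ) • a‖ := norm_sub_le _ _
          _ = ‖z - p‖ + 3 * d * ‖a‖ := by
              rw [norm_neg, norm_smul, Complex.norm_real, Real.norm_of_nonneg (by positivity)]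
      have h2 : ‖y‖ ^ 2 ≤ (‖z - p‖ + 3 * d * ‖a‖) ^ 2 := pow_le_pow_left₀ (norm_nonneg _) h1 2
      nlinarith [sq_nonneg (‖z - p‖ - 3 * d * ‖a‖)]
    have hpt : p + y ∈ D := by
      apply hP1
      · exact lt_of_pow_lt_pow_left₀ 2 hr₀.le (hyn.trans_lt d6)
      · rw [hyre]
        have h1 : C₁ * ‖y‖ ^ 2 ≤ C₁ * (2 * ε * d + 18 * ‖a‖ ^ 2 * d ^ 2) := by gcongr
        have h2 : C₁ * (2 * ε * d + 18 * ‖a‖ ^ 2 * d ^ 2) =
          (4 * C₁ * ε) * d / 2 + (18 * C₁ * ‖a‖ ^ 2 * d) * d := by ring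
        have h3 : (4 * C₁ * ε) * d ≤ 1 * d := by gcongr
        have h4 : (18 * C₁ * ‖a‖ ^ 2 * d) * d < 1 * d := by gcongr
        linarith
    have hfin := hconv _ hin _ hpt (1 / 2) (by norm_num) (by norm_num)
    have e : ((1 - 1 / 2 : ℝ) : ℂ) • (z + ((2 * sd : ℝ) * ζ₀) • w₀) + ((1 / 2 : ℝ) : ℂ) • (p + y) =
        p + ((sd : ℂ) * ζ₀) • w₀ - ((3 / 2 * d : ℝ) : ℂ) • a := by
      rw [hy]
      push_cast
      module
    rw [e] at hfin
    refine hP3 sd (3 / 2 * d) hsd0 d7 (by positivity) d8 ?_ hfin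
    rw [hsd]; congr 1; ring
  obtain ⟨L₀, hL₀⟩ := hsup _ hnot
  set c := (L₀ (((2 * sd : ℝ) * ζ₀) • w₀)).re with hc
  have hc0 : 0 < c := by
    have h1 := hL₀ z hz
    rw [map_add, Complex.add_re] at h1
    linarith
  set L : E →L[ℂ] ℂ := ((c⁻¹ : ℝ) : ℂ) • L₀ with hL
  have hLD : ∀ x ∈ D, (L (x - z)).re < 1 := by
    intro x hx
    have h1 := hL₀ x hx
    rw [map_add, Complex.add_re] at h1
    have h2 : (L (x - z)).re = c⁻¹ * ((L₀ x).re - (L₀ z).re) := by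
      rw [hL, smul_apply, smul_eq_mul, Complex.re_ofReal_mul, map_sub, Complex.sub_re]
    rw [h2, inv_mul_lt_iff₀ hc0]
    linarith
  have hLw : 1 / (2 * sd * (‖ζ₀‖ + 1)) ≤ ‖L w₀‖ := by
    have h1 : (L (((2 * sd : ℝ) * ζ₀) • w₀)).re = 1 := by
      rw [hL, smul_apply, smul_eq_mul, Complex.re_ofReal_mul, ← hc,
        inv_mul_cancel₀ hc0.ne']
    have h2 : 1 ≤ ‖L (((2 * sd : ℝ) * ζ₀) • w₀)‖ := by
      rw [← h1]; exact Complex.re_le_norm _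
    rw [map_smul, norm_smul, norm_mul, Complex.norm_real, Real.norm_of_nonneg (by positivity)] at h2
    rw [div_le_iff₀ (by positivity)]
    have h3 : 2 * sd * ‖ζ₀‖ * ‖L w₀‖ ≤ 2 * sd * (‖ζ₀‖ + 1) * ‖L w₀‖ := by
      gcongr; linarith
    linarith
  -- the complex linear function
  set l : E →L[ℂ] ℂ := ((d⁻¹ : ℝ) : ℂ) • Λ with hl
  have hlD : ∀ x ∈ D, (l (x - z)).re < 1 := by
    intro x hx
    have h1 := hΛD x hx
    have h2 : (l (x - z)).re = d⁻¹ * ((Λ (x - p)).re + d) := by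
      have h3 : x - z = (x - p) - (z - p) := by abel
      rw [hl, smul_apply, smul_eq_mul, Complex.re_ofReal_mul, h3, map_sub,
        Complex.sub_re]
      congr 1; linarith
    rw [h2, inv_mul_lt_iff₀ hd0]
    linarith
  have hlb : l ((d : ℂ) • a) = 1 := by
    rw [hl, smul_apply, map_smul, hΛa, smul_eq_mul, smul_eq_mul, mul_one,
      ← Complex.ofReal_mul, inv_mul_cancel₀ hd0.ne', Complex.ofReal_one]
  have hfin := core_ineq hDo hF hFi hFm hz hFz (by linarith : 0 < r) hr1 hFr hlD (w₀ := w₀) hlb hM hs hs1 hrs hA0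
    hγ0.le hγ hdisc hLD
  -- compare
  set X := (s + 1 / (2 * M + 4)) ^ (1 / 2 - γ) with hX
  have hX0 : 0 ≤ X := by positivity
  have h1 : r / 2 * (1 / (2 * sd * (‖ζ₀‖ + 1))) ≤ 2 * (Real.sqrt 10 / A * X) :=
    (mul_le_mul_of_nonneg_left hLw (by linarith)).trans hfin
  have h2 : 1 / 4 * (1 / (2 * sd * (‖ζ₀‖ + 1))) ≤ 2 * (Real.sqrt 10 / A * X) := by
    refine le_trans (mul_le_mul_of_nonneg_right (by linarith) (by positivity)) h1
  have hdγ : 0 < d ^ γ := by positivity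
  have e1 : sd = (3 / c₂) ^ γ * d ^ γ := by
    rw [hsd, ← Real.mul_rpow (by positivity) hd0.le]; congr 1; ring
  have e2 : A = 1 / 2 * (d ^ γ / (4 * C₂) ^ γ) := by
    rw [hA, Real.div_rpow hd0.le (by positivity)]
  rw [e1, e2] at h2
  have h3 : 0 < (3 / c₂) ^ γ := by positivity
  have h4 : 0 < (4 * C₂) ^ γ := by positivity
  have e3 : 1 / 4 * (1 / (2 * ((3 / c₂) ^ γ * d ^ γ) * (‖ζ₀‖ + 1))) =
      (1 / (8 * (‖ζ₀‖ + 1) * (3 / c₂) ^ γ)) / d ^ γ := by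
    field_simp
    norm_num
  have e4 : 2 * (Real.sqrt 10 / (1 / 2 * (d ^ γ / (4 * C₂) ^ γ)) * X) =
      (4 * Real.sqrt 10 * (4 * C₂) ^ γ * X) / d ^ γ := by
    field_simp
    norm_num
  rw [e3, e4, div_le_div_iff_of_pos_right hdγ] at h2
  exact h2

end Pool.Agent.Squeeze
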