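import Mathlib
import Pool.Agent.Squeeze.Core
import Pool.Agent.Squeeze.CoreB

set_option autoImplicit false

open Metric Set Filter Topology Function

namespace Pool.Agent.Squeeze

variable {E : Type} [NormedAddCommGroup E] [InnerProductSpace ℂ E] [FiniteDimensional ℂ E]

theorem core {D : Set E} (hDo : IsOpen D)
    (hconv : ∀ x ∈ D, ∀ y ∈ D, ∀ t : ℝ, 0 ≤ t → t ≤ 1 → ((1 - t : ℝ) : ℂ) • x + ((t : ℝ) : ℂ) • y ∈ D)
    (hsup : ∀ x, x ∉ D → ∃ L : E →L[ℂ] ℂ, ∀ y ∈ D, (L y).re < (L x).re)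
    {p a w₀ : E} {Λ : E →L[ℂ] ℂ} (hΛD : ∀ x ∈ D, (Λ (x - p)).re < 0) (hΛa : Λ a = 1)
    {C₁ r₀ : ℝ} (hC₁ : 0 < C₁) (hr₀ : 0 < r₀)
    (hP1 : ∀ y : E, ‖y‖ < r₀ → (Λ y).re + C₁ * ‖y‖ ^ 2 < 0 → p + y ∈ D)
    {γ C₂ r₂ : ℝ} (hγ0 : 0 < γ) (hγ : γ < 1 / 2) (hC₂ : 0 < C₂) (hr₂ : 0 < r₂)
    (hP2 : ∀ η : ℂ, ∀ t : ℝ, ‖η‖ < r₂ → 0 < t → t < r₂ → ‖η‖ < (t / (2 * C₂)) ^ γ →
      p + η • w₀ - (t : ℂ) • a ∈ D)
    {ζ₀ : ℂ} {c₂ r₃ : ℝ} (hc₂ : 0 < c₂) (hr₃ : 0 < r₃)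
    (hP3 : ∀ s t : ℝ, 0 < s → s < r₃ → 0 < t → t < r₃ → s = (2 * t / c₂) ^ γ →
      p + ((s : ℂ) * ζ₀) • w₀ - (t : ℂ) • a ∉ D)
    {zs : ℕ → E} (hz : ∀ k, zs k ∈ D) (hzp : Tendsto zs atTop (𝓝 p)) {δ : ℕ → ℝ}
    (hδ : ∀ k, 0 < δ k) (hball : ∀ k, ball (zs k) (δ k) ⊆ D) {C : ℝ}
    (hpar : ∀ k, ‖zs k - p‖ ^ 2 ≤ C * δ k)
    (hsq : ∀ ε : ℝ, 0 < ε → ∀ᶠ k in atTop, ∃ f : E → E, DifferentiableOn ℂ f D ∧ InjOn f D ∧
      MapsTo f D (ball 0 1) ∧ f (zs k) = 0 ∧ ball 0 (1 - ε) ⊆ f '' D) : False := by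
  have ha0 : a ≠ 0 := by rintro rfl; simp at hΛa
  have ha : 0 < ‖a‖ := norm_pos_iff.2 ha0
  set β := 1 / 2 - γ with hβ
  have hβ0 : 0 < β := by rw [hβ]; linarith
  set K₀ := 1 / (8 * (‖ζ₀‖ + 1) * (3 / c₂) ^ γ) with hK₀
  have hK₀0 : 0 < K₀ := by positivity
  -- choose κ
  obtain ⟨κ, hκ0, hκ1, hκK⟩ : ∃ κ : ℝ, 0 < κ ∧ κ < 1 ∧ 4 * Real.sqrt 10 * (4 * C₂) ^ γ * κ ^ β < K₀ := by
    have hcont : Continuous fun κ : ℝ => 4 * Real.sqrt 10 * (4 * C₂) ^ γ * κ ^ β :=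
      continuous_const.mul (Real.continuous_rpow_const hβ0.le)
    have h1 : Tendsto (fun κ : ℝ => 4 * Real.sqrt 10 * (4 * C₂) ^ γ * κ ^ β) (𝓝[>] 0) (𝓝 0) := by
      have := (hcont.tendsto 0).mono_left (nhdsWithin_le_nhds (s := Ioi 0))
      rwa [Real.zero_rpow hβ0.ne', mul_zero] at this
    have h2 : ∀ᶠ κ : ℝ in 𝓝[>] 0, κ < 1 := nhdsWithin_le_nhds (gt_mem_nhds one_pos)
    obtain ⟨κ, ⟨h3, h4⟩, h5⟩ := ((h1.eventually (gt_mem_nhds hK₀0)).and h2 |>.and self_mem_nhdsWithin).exists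
    exact ⟨κ, h5, h4, h3⟩
  set s := κ / 2 with hs
  have hs0 : 0 < s := by positivity
  have hs1 : s < 1 := by rw [hs]; linarith
  set M := 1 / κ with hM
  have hM0 : 0 ≤ M := by positivity
  have hsum : s + 1 / (2 * M + 4) ≤ κ := by
    have h1 : 1 / (2 * M + 4) ≤ κ / 2 := by
      rw [div_le_div_iff₀ (by positivity) two_pos, hM]
      have : κ * (2 * (1 / κ) + 4) = 2 + 4 * κ := by field_simp
      linarith
    rw [hs]; linarith
  obtain ⟨ε, hε, hev⟩ := final_ineq hDo hconv hsup hΛD hΛa hC₁ hr₀ hP1 hγ0 hγ hC₂ hr₂ hP2 hc₂ hr₃ hP3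
    hs0 hs1 hM0
  -- the depth parameter
  set R := max 1 (4 * C / ε) with hR
  have hR1 : 1 ≤ R := le_max_left _ _
  have hR0 : 0 < R := by linarith
  have hRC : 4 * C ≤ R * ε := by
    have := le_max_right 1 (4 * C / ε)
    rw [← hR, div_le_iff₀ hε] at this
    exact this
  obtain ⟨τ, hτ, hτD⟩ := disc_incl hconv hΛD hΛa hC₁ hr₀ hP1 hR0
  set c := 1 / (4 * ‖a‖) with hc
  have hc0 : 0 < c := by positivity
  set θ := R / (R + c) with hθ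
  have hθ0 : 0 ≤ θ := by positivity
  have hθ1 : θ < 1 := by rw [hθ, div_lt_one (by positivity)]; linarith
  set s' := min s (1 / 2) with hs'
  have hs'0 : 0 < s' := by positivity
  set r' := 1 - s' with hr'
  have hr'1 : r' < 1 := by linarith
  have hr'2 : 1 / 2 ≤ r' := by
    have := min_le_right s (1 / 2)
    rw [hr']; linarith
  have hr's : 1 - r' ≤ s := by
    have := min_le_left s (1 / 2)
    rw [hr']; linarith
  set P := (1 - θ ^ 2) * (1 - r' ^ 2) with hP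
  have hP0 : 0 < P := by
    apply mul_pos <;> nlinarith
  set ε₀ := min (1 / 2) (P / 16) with hε₀
  have hε₀0 : 0 < ε₀ := by positivity
  have hε₀1 : ε₀ ≤ 1 / 2 := min_le_left _ _
  have hε₀2 : ε₀ ≤ P / 16 := min_le_right _ _
  -- limits
  have hp : p ∉ D := fun h => by simpa using hΛD p h
  have hδle : ∀ k, δ k ≤ ‖zs k - p‖ := by
    intro k
    by_contra hcon
    push Not at hcon
    apply hp
    apply hball k
    rw [mem_ball, dist_comm, dist_eq_norm]; exact hcon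
  have hn0 : Tendsto (fun k => ‖zs k - p‖) atTop (𝓝 0) := by
    rw [← tendsto_iff_norm_sub_tendsto_zero]; exact hzp
  have hδ0 : Tendsto δ atTop (𝓝 0) := squeeze_zero (fun k => (hδ k).le) hδle hn0
  set d : ℕ → ℝ := fun k => -(Λ (zs k - p)).re + R * δ k with hd
  have hdpos : ∀ k, 0 < d k := by
    intro k
    have h1 := hΛD _ (hz k)
    have h2 := hδ k
    simp only [hd]
    have : 0 < R * δ k := by positivity
    linarith
  have hd0 : Tendsto d atTop (𝓝[>] 0) := by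
    rw [tendsto_nhdsWithin_iff]
    refine ⟨?_, Eventually.of_forall hdpos⟩
    have h1 : Tendsto (fun k => -(Λ (zs k - p)).re) atTop (𝓝 (-(Λ (p - p)).re)) := by
      have h2 : Continuous fun x => -(Λ (x - p)).re := by fun_prop
      exact (h2.tendsto p).comp hzp
    have h3 := h1.add (hδ0.const_mul R)
    have e : -(Λ (p - p)).re + R * 0 = 0 := by simp
    rw [e] at h3
    exact h3
  have e1 : ∀ᶠ k in atTop, ‖zs k - p‖ < τ := hn0.eventually (gt_mem_nhds hτ)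
  have e2 : ∀ᶠ k in atTop, δ k < τ := hδ0.eventually (gt_mem_nhds hτ)
  have e3 : ∀ᶠ k in atTop, 4 * R * ‖a‖ ^ 2 * δ k < ε := by
    have h1 : Tendsto (fun k => 4 * R * ‖a‖ ^ 2 * δ k) atTop (𝓝 (4 * R * ‖a‖ ^ 2 * 0)) :=
      hδ0.const_mul _
    rw [mul_zero] at h1
    exact h1.eventually (gt_mem_nhds hε)
  obtain ⟨k, hk1, hk2, hk3, hk4, hk5⟩ :=
    (e1.and (e2.and (e3.and ((hsq ε₀ hε₀0).and (hd0.eventually hev))))).exists
  obtain ⟨f, hf, hfi, hfm, hfz, hfr⟩ := hk4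
  set z' := zs k - ((R * δ k : ℝ) : ℂ) • a with hz'
  have hδk := hδ k
  have hdisc := hτD _ (hz k) (δ k) hδk (hball k) hk1 hk2
  have hz'D : z' ∈ D := by
    have h1 := hdisc 0 (by rw [norm_zero]; positivity)
    rw [zero_smul, add_zero] at h1
    exact h1
  obtain ⟨F, hF, hFi, hFm, hFz, hFr⟩ := squeeze_move (z := zs k) (z' := z') (a := a)
    (ρ₀ := (R + c) * δ k) (θ := θ) (r := 1 - ε₀) (r' := r') hf hfi
    (fun x hx => by simpa using hfm hx) hfz (by positivity) hθ0 hθ1 hdisc (by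
      have : θ * ((R + c) * δ k) = R * δ k := by rw [hθ]; field_simp
      rw [this, hz']; abel) (by linarith) hr'1.le (by
      intro y hy
      obtain ⟨x, hx, hxy⟩ := hfr (show y ∈ ball (0 : E) (1 - ε₀) by simpa using hy)
      exact ⟨x, hx, hxy⟩) (by
      have : 1 - (1 - ε₀) ^ 2 ≤ 2 * ε₀ := by nlinarith
      have h2 : P / 4 = (1 - θ ^ 2) * (1 - r' ^ 2) / 4 := by rw [hP]
      rw [← h2]
      linarith)
  have hre : -(Λ (z' - p)).re = d k := by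
    have h1 : z' - p = (zs k - p) - ((R * δ k : ℝ) : ℂ) • a := by rw [hz']; abel
    rw [h1, map_sub, map_smul, hΛa, smul_eq_mul, mul_one, Complex.sub_re, Complex.ofReal_re]
    simp only [hd]; ring
  have hnorm : ‖z' - p‖ ^ 2 ≤ ε * d k := by
    have h1 : z' - p = (zs k - p) - ((R * δ k : ℝ) : ℂ) • a := by rw [hz']; abel
    have h2 : ‖z' - p‖ ≤ ‖zs k - p‖ + R * δ k * ‖a‖ := by
      rw [h1]
      calc _ ≤ ‖zs k - p‖ + ‖((R * δ k : ℝ) : ℂ) • a‖ := norm_sub_le _ _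
        _ = _ := by rw [norm_smul, Complex.norm_real, Real.norm_of_nonneg (by positivity)]
    have h3 : ‖z' - p‖ ^ 2 ≤ (‖zs k - p‖ + R * δ k * ‖a‖) ^ 2 := pow_le_pow_left₀ (norm_nonneg _) h2 2
    have h4 : (‖zs k - p‖ + R * δ k * ‖a‖) ^ 2 ≤ 2 * ‖zs k - p‖ ^ 2 + 2 * (R * δ k * ‖a‖) ^ 2 := by
      nlinarith [sq_nonneg (‖zs k - p‖ - R * δ k * ‖a‖)]
    have h5 : 2 * ‖zs k - p‖ ^ 2 ≤ ε / 2 * (R * δ k) := by
      have h6 := hpar k
      have h7 : 4 * C * δ k ≤ R * ε * δ k := by gcongr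
      linarith
    have h6 : 2 * (R * δ k * ‖a‖) ^ 2 ≤ ε / 2 * (R * δ k) := by
      have h7 : 2 * (R * δ k * ‖a‖) ^ 2 = (4 * R * ‖a‖ ^ 2 * δ k) * (R * δ k) / 2 := by ring
      rw [h7]
      have h8 : (4 * R * ‖a‖ ^ 2 * δ k) * (R * δ k) ≤ ε * (R * δ k) := by gcongr
      linarith
    have h7 : R * δ k ≤ d k := by
      have h8 := hΛD _ (hz k)
      simp only [hd]; linarith
    have h8 : ε * (R * δ k) ≤ ε * d k := by gcongr
    linarith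
  have hfin := hk5 z' hz'D hre hnorm F hF hFi hFm hFz r' hr'2 hr'1.le hr's hFr
  have h1 : (s + 1 / (2 * M + 4)) ^ β ≤ κ ^ β := Real.rpow_le_rpow (by positivity) hsum hβ0.le
  have h2 : 4 * Real.sqrt 10 * (4 * C₂) ^ γ * (s + 1 / (2 * M + 4)) ^ β ≤
      4 * Real.sqrt 10 * (4 * C₂) ^ γ * κ ^ β := by gcongr
  linarith

end Pool.Agent.Squeeze
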