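import Mathlib

set_option autoImplicit false

open Metric Set Filter Topology Function
open scoped ContDiff Nat

namespace Pool.Agent.Squeeze

variable {V W : Type} [NormedAddCommGroup V] [NormedSpace ℝ V] [NormedAddCommGroup W] [NormedSpace ℝ W]

/-- iterated derivatives of smooth functions are symmetric -/
theorem iteratedFDeriv_perm (n : ℕ) : ∀ {f : V → W} {x : V}, ContDiffAt ℝ (n : ℕ∞ω) f x →
    ∀ (v : Fin n → V) (σ : Equiv.Perm (Fin n)),
      iteratedFDeriv ℝ n f x (v ∘ σ) = iteratedFDeriv ℝ n f x v := by
  induction n with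
  | zero =>
    intro f x hf v σ
    congr 1
    exact Subsingleton.elim _ _
  | succ n ih =>
    intro f x hf v σ
    have hdiff : DifferentiableAt ℝ (iteratedFDeriv ℝ n f) x :=
      hf.differentiableAt_iteratedFDeriv (by exact_mod_cast Nat.lt_succ_self n)
    have hev : ∀ᶠ y in 𝓝 x, ContDiffAt ℝ (n : ℕ∞ω) f y := by
      have h1 : ContDiffAt ℝ (n : ℕ∞ω) f x := hf.of_le (by exact_mod_cast Nat.le_succ n)
      exact h1.eventually (by simp)
    rcases n with _ | n
    · have : v ∘ ⇑σ = v := funext fun i => congrArg v (Fin.ext (by omega))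
      rw [this]
    -- reduce to adjacent transpositions
    have hgen : ∀ σ : Equiv.Perm (Fin (n + 1 + 1)), σ ∈ Submonoid.closure (Set.range fun i : Fin (n + 1) =>
        Equiv.swap i.castSucc i.succ) := by
      intro σ
      rw [Equiv.Perm.mclosure_swap_castSucc_succ]
      exact Submonoid.mem_top σ
    refine Submonoid.closure_induction (motive := fun (σ : Equiv.Perm (Fin (n + 1 + 1))) _ =>
      ∀ v : Fin (n + 1 + 1) → V, iteratedFDeriv ℝ (n + 1 + 1) f x (v ∘ ⇑σ) = iteratedFDeriv ℝ (n + 1 + 1) f x v) ?_ ?_ ?_ (hgen σ) v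
    · rintro _ ⟨i, rfl⟩ v
      simp only
      refine Fin.cases ?_ (fun j => ?_) i
      · -- swap of the first two entries
        have key : ∀ v : Fin (n + 1 + 1) → V, iteratedFDeriv ℝ (n + 1 + 1) f x v =
            fderiv ℝ (fderiv ℝ (iteratedFDeriv ℝ n f)) x (v 0) (v 1) (Fin.tail (Fin.tail v)) := by
          intro v
          rw [(hdiff).iteratedFDeriv_succ_apply_left']
          have h1 : (fun y => iteratedFDeriv ℝ (n + 1) f y (Fin.tail v)) =
              fun y => fderiv ℝ (iteratedFDeriv ℝ n f) y (v 1) (Fin.tail (Fin.tail v)) := by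
            funext y
            rw [iteratedFDeriv_succ_apply_left]
            rfl
          rw [h1]
          have h2 : DifferentiableAt ℝ (fderiv ℝ (iteratedFDeriv ℝ n f)) x := by
            have h3 : ContDiffAt ℝ 2 (iteratedFDeriv ℝ n f) x :=
              hf.iteratedFDeriv_right (by push_cast; rw [add_comm, add_assoc]; norm_num)
            exact (h3.fderiv_right (m := 1) (by norm_num)).differentiableAt one_ne_zero
          have h3 := (h2.hasFDerivAt.clm_apply (hasFDerivAt_const (v 1) x)).continuousMultilinear_apply_const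
            (Fin.tail (Fin.tail v))
          rw [h3.fderiv]
          simp
        rw [key, key]
        have hsym : IsSymmSndFDerivAt ℝ (iteratedFDeriv ℝ n f) x := by
          have h3 : ContDiffAt ℝ 2 (iteratedFDeriv ℝ n f) x :=
            hf.iteratedFDeriv_right (by push_cast; rw [add_comm, add_assoc]; norm_num)
          exact h3.isSymmSndFDerivAt (by simp)
        have e0 : (v ∘ ⇑(Equiv.swap (0 : Fin (n + 1)).castSucc (0 : Fin (n + 1)).succ)) 0 = v 1 := by
          simp
        have e1 : (v ∘ ⇑(Equiv.swap (0 : Fin (n + 1)).castSucc (0 : Fin (n + 1)).succ)) 1 = v 0 := by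
          simp
        have e2 : Fin.tail (Fin.tail (v ∘ ⇑(Equiv.swap (0 : Fin (n + 1)).castSucc (0 : Fin (n + 1)).succ))) =
            Fin.tail (Fin.tail v) := by
          funext k
          simp only [Fin.tail, Function.comp_apply]
          rw [Equiv.swap_apply_of_ne_of_ne]
          · simp [Fin.ext_iff]
          · simp [Fin.ext_iff]
        rw [e0, e1, e2, hsym (v 1) (v 0)]
      · -- swap inside the tail
        have h0 : (v ∘ ⇑(Equiv.swap j.succ.castSucc j.succ.succ)) 0 = v 0 := by
          simp only [Function.comp_apply]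
          rw [Equiv.swap_apply_of_ne_of_ne]
          · simp [Fin.ext_iff]
          · simp [Fin.ext_iff]
        have ht : Fin.tail (v ∘ ⇑(Equiv.swap j.succ.castSucc j.succ.succ)) =
            (Fin.tail v) ∘ ⇑(Equiv.swap j.castSucc j.succ) := by
          funext k
          simp only [Fin.tail, Function.comp_apply]
          congr 1
          have h1 : j.succ.castSucc = j.castSucc.succ := rfl
          rw [h1, Equiv.swap_apply_def, Equiv.swap_apply_def]
          by_cases hk1 : k = j.castSucc
          · simp [hk1]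
          · by_cases hk2 : k = j.succ
            · have hne : j.succ ≠ j.castSucc := by simp [Fin.ext_iff]
              simp [hk2, hne]
            · simp [hk1, hk2]
        rw [(hdiff).iteratedFDeriv_succ_apply_left',
          (hdiff).iteratedFDeriv_succ_apply_left', h0, ht]
        have h2 : (fun y => iteratedFDeriv ℝ (n + 1) f y ((Fin.tail v) ∘ ⇑(Equiv.swap j.castSucc j.succ))) =ᶠ[𝓝 x]
            fun y => iteratedFDeriv ℝ (n + 1) f y (Fin.tail v) := by
          filter_upwards [hev] with y hy
          exact ih hy _ _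
        rw [h2.fderiv_eq]
    · intro v; rfl
    · intro σ τ _ _ hσ hτ v
      have : v ∘ ⇑(σ * τ) = (v ∘ ⇑σ) ∘ ⇑τ := rfl
      rw [this, hτ, hσ]

/-- the diagonal of a nonzero iterated derivative is nonzero -/
theorem exists_diag_ne_zero {n : ℕ} {f : V → W} {x : V} (hf : ContDiffAt ℝ (n : ℕ∞ω) f x)
    (h : iteratedFDeriv ℝ n f x ≠ 0) : ∃ y : V, iteratedFDeriv ℝ n f x (fun _ => y) ≠ 0 := by
  by_contra hcon
  push Not at hcon
  apply h
  ext v
  have h1 := (iteratedFDeriv ℝ n f x).iteratedFDeriv_comp_diagonal (0 : V) v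
  have h2 : (fun y : V => (iteratedFDeriv ℝ n f x) fun _ => y) = fun _ => 0 := funext hcon
  rw [h2] at h1
  have h3 : ∀ σ : Equiv.Perm (Fin n), (iteratedFDeriv ℝ n f x) (fun i => v (σ i)) =
      iteratedFDeriv ℝ n f x v := fun σ => iteratedFDeriv_perm n hf v σ
  simp only [h3] at h1
  rw [Finset.sum_const, Finset.card_univ, Fintype.card_perm, Fintype.card_fin] at h1
  have h4 : iteratedFDeriv ℝ n (fun _ : V => (0 : W)) 0 = 0 := by
    exact congrFun iteratedFDeriv_fun_zero 0
  rw [h4] at h1
  have h5 : (n ! : ℝ) • iteratedFDeriv ℝ n f x v = 0 := by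
    rw [Nat.cast_smul_eq_nsmul]
    exact h1.symm
  rcases smul_eq_zero.1 h5 with h6 | h6
  · exact absurd h6 (by exact_mod_cast (Nat.factorial_ne_zero n))
  · simpa using h6

end Pool.Agent.Squeeze
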