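import Mathlib
import Pool.Agent.Squeeze.Taylor

set_option autoImplicit false

open Metric Set Filter Topology Function
open scoped ContDiff Nat

namespace Pool.Agent.Squeeze

variable {V : Type} [NormedAddCommGroup V] [NormedSpace ℝ V]

theorem order_lemma {g : V → ℝ} (hg : ContDiffAt ℝ ∞ g 0) (hg0 : g 0 = 0)
    (hpos : ∀ᶠ x in 𝓝 0, 0 ≤ g x) (hne : ∃ k, 1 ≤ k ∧ iteratedFDeriv ℝ k g 0 ≠ 0) :
    ∃ m, 1 ≤ m ∧ (∀ k < m, iteratedFDeriv ℝ k g 0 = 0) ∧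
      (∃ C > 0, ∃ r > 0, ∀ x, ‖x‖ < r → g x ≤ C * ‖x‖ ^ m) ∧
      (∀ x, 0 ≤ iteratedFDeriv ℝ m g 0 (fun _ => x)) ∧
      ∃ x₀, 0 < iteratedFDeriv ℝ m g 0 (fun _ => x₀) ∧
        ∃ c > 0, ∃ r > 0, ∀ t : ℝ, 0 < t → t < r → c * t ^ m ≤ g (t • x₀) := by
  classical
  set m := Nat.find hne with hm
  obtain ⟨hm1, hmne⟩ := Nat.find_spec hne
  rw [← hm] at hm1 hmne
  have hlow : ∀ k < m, iteratedFDeriv ℝ k g 0 = 0 := by
    intro k hk
    rcases Nat.eq_zero_or_pos k with rfl | hk0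
    · ext v
      simp [hg0]
    · by_contra h
      exact Nat.find_min hne hk ⟨hk0, h⟩
  set A := iteratedFDeriv ℝ m g 0 with hA
  have hgm : ContDiffAt ℝ ((m + 1 : ℕ) : ℕ∞ω) g 0 := hg.of_le (by exact_mod_cast le_top)
  -- local bounds
  have hev1 : ∀ᶠ y in 𝓝 (0 : V), ContDiffAt ℝ ((m + 1 : ℕ) : ℕ∞ω) g y := hgm.eventually (by simp)
  have hcont : ContinuousAt (iteratedFDeriv ℝ (m + 1) g) 0 :=
    (hgm.iteratedFDeriv_right (i := m + 1) (m := 0) (by simp)).continuousAt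
  set K := ‖iteratedFDeriv ℝ (m + 1) g 0‖ + 1 with hK
  have hK0 : 0 < K := by positivity
  have hev2 : ∀ᶠ y in 𝓝 (0 : V), ‖iteratedFDeriv ℝ (m + 1) g y‖ < K :=
    hcont.norm.eventually (gt_mem_nhds (by rw [hK]; linarith))
  obtain ⟨r₁, hr₁, hB⟩ := Metric.eventually_nhds_iff_ball.1 (hev1.and (hev2.and hpos))
  have hTay : ∀ y : V, ‖y‖ < r₁ → |g y - (m ! : ℝ)⁻¹ * A (fun _ => y)| ≤ K * ‖y‖ ^ (m + 1) := by
    intro y hy
    have hmem : ∀ t : ℝ, t ∈ Icc (0 : ℝ) 1 → (0 : V) + t • y ∈ ball (0 : V) r₁ := by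
      intro t ht
      rw [zero_add, mem_ball_zero_iff, norm_smul, Real.norm_of_nonneg ht.1]
      calc t * ‖y‖ ≤ 1 * ‖y‖ := by gcongr; exact ht.2
        _ < r₁ := by rw [one_mul]; exact hy
    have h1 := map_add_eq_sum_add_integral_iteratedFDeriv (f := g) (x := 0) (y := y) (n := m)
      (fun t ht => by exact_mod_cast (hB _ (hmem t ht)).1)
    rw [zero_add, Finset.sum_range_succ, Finset.sum_eq_zero (fun k hk => by
      rw [hlow k (Finset.mem_range.1 hk)]; simp), zero_add] at h1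
    have h2 : g y - (m ! : ℝ)⁻¹ * A (fun _ => y) = (m ! : ℝ)⁻¹ *
        ∫ t in (0 : ℝ)..1, (1 - t) ^ m • iteratedFDeriv ℝ (m + 1) g (0 + t • y) (fun _ => y) := by
      rw [h1, hA]; simp only [smul_eq_mul]; ring
    rw [h2, abs_mul]
    have h3 : ‖∫ t in (0 : ℝ)..1, (1 - t) ^ m • iteratedFDeriv ℝ (m + 1) g (0 + t • y) (fun _ => y)‖ ≤
        K * ‖y‖ ^ (m + 1) * |1 - 0| := by
      apply intervalIntegral.norm_integral_le_of_norm_le_const
      intro t ht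
      rw [uIoc_of_le zero_le_one] at ht
      have ht' : t ∈ Icc (0 : ℝ) 1 := ⟨ht.1.le, ht.2⟩
      rw [norm_smul]
      have h4 : ‖(1 - t) ^ m‖ ≤ 1 := by
        rw [norm_pow, Real.norm_of_nonneg (by linarith [ht.2])]
        exact pow_le_one₀ (by linarith [ht.2]) (by linarith [ht.1])
      have h5 : ‖iteratedFDeriv ℝ (m + 1) g (0 + t • y) (fun _ => y)‖ ≤ K * ‖y‖ ^ (m + 1) := by
        refine ((iteratedFDeriv ℝ (m + 1) g (0 + t • y)).le_opNorm _).trans ?_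
        rw [Finset.prod_const, Finset.card_univ, Fintype.card_fin]
        gcongr
        exact (hB _ (hmem t ht')).2.1.le
      calc _ ≤ 1 * (K * ‖y‖ ^ (m + 1)) := mul_le_mul h4 h5 (norm_nonneg _) zero_le_one
        _ = _ := one_mul _
    rw [sub_zero, abs_one, mul_one, Real.norm_eq_abs] at h3
    have h6 : |((m ! : ℝ))⁻¹| ≤ 1 := by
      rw [abs_inv, abs_of_pos (by exact_mod_cast Nat.factorial_pos m)]
      exact inv_le_one_of_one_le₀ (by exact_mod_cast Nat.factorial_pos m)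
    calc _ ≤ 1 * (K * ‖y‖ ^ (m + 1)) := mul_le_mul h6 h3 (abs_nonneg _) zero_le_one
      _ = _ := one_mul _
  have hfac : 0 < ((m ! : ℝ))⁻¹ := by
    have : (0 : ℝ) < (m ! : ℝ) := by exact_mod_cast Nat.factorial_pos m
    positivity
  have hhom : ∀ (t : ℝ) (x : V), A (fun _ => t • x) = t ^ m * A (fun _ => x) := by
    intro t x
    have := A.map_smul_univ (fun _ => t) (fun _ => x)
    rw [this, Finset.prod_const, Finset.card_univ, Fintype.card_fin, smul_eq_mul]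
  -- nonnegativity on the diagonal
  have hnonneg : ∀ x, 0 ≤ A (fun _ => x) := by
    intro x
    by_contra hcon
    push Not at hcon
    set a := -((m ! : ℝ)⁻¹ * A (fun _ => x)) with ha
    have ha0 : 0 < a := by rw [ha]; nlinarith
    have hx : 0 < ‖x‖ := by
      rw [norm_pos_iff]
      rintro rfl
      have : A (fun _ => (0 : V)) = 0 := A.map_coord_zero (⟨0, hm1⟩ : Fin m) rfl
      rw [this] at hcon
      exact lt_irrefl _ hcon
    set t := min (r₁ / (2 * ‖x‖)) (a / (2 * K * ‖x‖ ^ (m + 1))) with ht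
    have ht0 : 0 < t := by positivity
    have ht1 : ‖t • x‖ < r₁ := by
      rw [norm_smul, Real.norm_of_nonneg ht0.le]
      have : t ≤ r₁ / (2 * ‖x‖) := min_le_left _ _
      rw [le_div_iff₀ (by positivity)] at this
      linarith
    have ht2 : t * (2 * K * ‖x‖ ^ (m + 1)) ≤ a := by
      have : t ≤ a / (2 * K * ‖x‖ ^ (m + 1)) := min_le_right _ _
      rwa [le_div_iff₀ (by positivity)] at this
    have h1 := hTay _ ht1
    rw [hhom, norm_smul, Real.norm_of_nonneg ht0.le, mul_pow, abs_le] at h1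
    have h2 := (hB (t • x) (by simpa using ht1)).2.2
    have h3 : g (t • x) ≤ -(a * t ^ m) + K * (t ^ (m + 1) * ‖x‖ ^ (m + 1)) := by
      have : a * t ^ m = -((m ! : ℝ)⁻¹ * (t ^ m * A (fun _ => x))) := by rw [ha]; ring
      linarith [h1.2]
    have h4 : K * (t ^ (m + 1) * ‖x‖ ^ (m + 1)) = t * (2 * K * ‖x‖ ^ (m + 1)) / 2 * t ^ m := by ring
    have h5 : t * (2 * K * ‖x‖ ^ (m + 1)) / 2 * t ^ m ≤ a / 2 * t ^ m := by gcongr
    have h6 : 0 < a * t ^ m := by positivity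
    linarith
  refine ⟨m, hm1, hlow, ?_, hnonneg, ?_⟩
  · refine ⟨‖A‖ + K * r₁, by positivity, r₁, hr₁, fun x hx => ?_⟩
    have h1 := hTay x hx
    rw [abs_le] at h1
    have h2 : (m ! : ℝ)⁻¹ * A (fun _ => x) ≤ ‖A‖ * ‖x‖ ^ m := by
      have h3 : ‖A (fun _ => x)‖ ≤ ‖A‖ * ‖x‖ ^ m := by
        refine (A.le_opNorm _).trans ?_
        rw [Finset.prod_const, Finset.card_univ, Fintype.card_fin]
      have h4 : ((m ! : ℝ))⁻¹ ≤ 1 := inv_le_one_of_one_le₀ (by exact_mod_cast Nat.factorial_pos m)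
      have h5 : A (fun _ => x) ≤ ‖A‖ * ‖x‖ ^ m := (le_abs_self _).trans h3
      calc (m ! : ℝ)⁻¹ * A (fun _ => x) ≤ 1 * A (fun _ => x) := by
            gcongr; exact hnonneg x
        _ ≤ _ := by rw [one_mul]; exact h5
    have h6 : K * ‖x‖ ^ (m + 1) ≤ K * r₁ * ‖x‖ ^ m := by
      rw [pow_succ]
      have : ‖x‖ ^ m * ‖x‖ ≤ ‖x‖ ^ m * r₁ := by gcongr
      nlinarith
    linarith [h1.2]
  · obtain ⟨x₀, hx₀⟩ := exists_diag_ne_zero (hg.of_le (by exact_mod_cast le_top)) hmne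
    have hA0 : 0 < A (fun _ => x₀) := lt_of_le_of_ne (hnonneg x₀) (Ne.symm hx₀)
    refine ⟨x₀, hA0, (m ! : ℝ)⁻¹ * A (fun _ => x₀) / 2, by positivity,
      min (r₁ / (‖x₀‖ + 1)) ((m ! : ℝ)⁻¹ * A (fun _ => x₀) / (2 * K * (‖x₀‖ + 1) ^ (m + 1))), by positivity, ?_⟩
    intro t ht0 ht
    have ht1 : ‖t • x₀‖ < r₁ := by
      rw [norm_smul, Real.norm_of_nonneg ht0.le]
      have : t < r₁ / (‖x₀‖ + 1) := ht.trans_le (min_le_left _ _)
      rw [lt_div_iff₀ (by positivity)] at this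
      nlinarith [norm_nonneg x₀]
    have ht2 : t * (2 * K * (‖x₀‖ + 1) ^ (m + 1)) ≤ (m ! : ℝ)⁻¹ * A (fun _ => x₀) := by
      have : t < (m ! : ℝ)⁻¹ * A (fun _ => x₀) / (2 * K * (‖x₀‖ + 1) ^ (m + 1)) := ht.trans_le (min_le_right _ _)
      rw [lt_div_iff₀ (by positivity)] at this
      exact this.le
    have h1 := hTay _ ht1
    rw [hhom, norm_smul, Real.norm_of_nonneg ht0.le, mul_pow, abs_le] at h1
    have h3 : K * (t ^ (m + 1) * ‖x₀‖ ^ (m + 1)) ≤ t * (2 * K * (‖x₀‖ + 1) ^ (m + 1)) / 2 * t ^ m := by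
      have h4 : ‖x₀‖ ^ (m + 1) ≤ (‖x₀‖ + 1) ^ (m + 1) := by gcongr; linarith
      calc K * (t ^ (m + 1) * ‖x₀‖ ^ (m + 1)) ≤ K * (t ^ (m + 1) * (‖x₀‖ + 1) ^ (m + 1)) := by gcongr
        _ = _ := by ring
    have h5 : t * (2 * K * (‖x₀‖ + 1) ^ (m + 1)) / 2 * t ^ m ≤ (m ! : ℝ)⁻¹ * A (fun _ => x₀) / 2 * t ^ m := by
      gcongr
    have h6 : (m ! : ℝ)⁻¹ * (t ^ m * A (fun _ => x₀)) = (m ! : ℝ)⁻¹ * A (fun _ => x₀) * t ^ m := by ring
    nlinarith [h1.1]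

end Pool.Agent.Squeeze
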