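import Mathlib
import Pool.Agent.Squeeze.Order
import Pool.Agent.Squeeze.CoreC

set_option autoImplicit false

open Metric Set Filter Topology Function
open scoped ContDiff

namespace Pool.Agent.Squeeze

/-- complex Euclidean space -/
abbrev EE (n : ℕ) := EuclideanSpace ℂ (Fin n)

variable {n : ℕ}

lemma inward_le {D : Set (EE n)} (hDo : IsOpen D) (hDc : Convex ℝ D) {p : EE n} (hp : p ∈ closure D)
    {U : Set (EE n)} {ρ : EE n → ℝ} (hU : IsOpen U) (hpU : p ∈ U) (hDρ : ∀ z ∈ U, z ∈ D ↔ ρ z < 0)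
    (hρp : ρ p = 0) {l : EE n →L[ℝ] ℝ} (hl : HasFDerivAt ρ l p) {x : EE n} (hx : x ∈ D) :
    l (x - p) ≤ 0 := by
  have h1 : HasDerivAt (fun t : ℝ => ρ (p + t • (x - p))) (l (x - p)) 0 := by
    have h2 : HasDerivAt (fun t : ℝ => p + t • (x - p)) (x - p) 0 := by
      simpa using ((hasDerivAt_id (0 : ℝ)).smul_const (x - p)).const_add p
    have h3 : HasFDerivAt ρ l (p + (0 : ℝ) • (x - p)) := by simpa using hl
    exact h3.comp_hasDerivAt (0 : ℝ) h2
  have h2 := h1.tendsto_slope_zero_right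
  refine le_of_tendsto h2 ?_
  have hcont : ContinuousAt (fun t : ℝ => p + t • (x - p)) 0 := by fun_prop
  have hev : ∀ᶠ t in 𝓝 (0 : ℝ), p + t • (x - p) ∈ U := by
    refine hcont.eventually (hU.mem_nhds ?_)
    simpa using hpU
  have hev1 : ∀ᶠ t in 𝓝[>] (0 : ℝ), t < 1 := nhdsWithin_le_nhds (gt_mem_nhds one_pos)
  filter_upwards [nhdsWithin_le_nhds hev, hev1, self_mem_nhdsWithin] with t ht ht1 ht0
  have ht0 : 0 < t := ht0
  have h3 : p + t • (x - p) ∈ D := by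
    have := hDc.add_smul_sub_mem_interior' hp (by rw [hDo.interior_eq]; exact hx) ⟨ht0, ht1.le⟩
    rwa [hDo.interior_eq] at this
  have h4 := (hDρ _ ht).1 h3
  simp only [zero_add, zero_smul, add_zero, hρp, sub_zero, smul_eq_mul]
  have : 0 < t⁻¹ := by positivity
  nlinarith

lemma paraboloid {U : Set (EE n)} {ρ : EE n → ℝ} (hU : IsOpen U) {p : EE n} (hpU : p ∈ U)
    (hρ : ContDiffOn ℝ ∞ ρ U) (hρp : ρ p = 0) :
    ∃ C > 0, ∃ r > 0, ∀ y : EE n, ‖y‖ < r → p + y ∈ U ∧ ρ (p + y) ≤ fderiv ℝ ρ p y + C * ‖y‖ ^ 2 := by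
  have h2 : ContDiffAt ℝ 2 ρ p := (hρ.contDiffAt (hU.mem_nhds hpU)).of_le
    ENat.LEInfty.out
  have h1 : ContDiffAt ℝ 1 (fderiv ℝ ρ) p := h2.fderiv_right (by norm_num)
  obtain ⟨K, S, hS, hK⟩ := h1.exists_lipschitzOnWith
  obtain ⟨r, hr, hrB⟩ := Metric.mem_nhds_iff.1 (inter_mem hS (hU.mem_nhds hpU))
  refine ⟨K + 1, by positivity, r, hr, fun y hy => ?_⟩
  have hmem : ∀ x ∈ closedBall p ‖y‖, x ∈ S ∩ U := fun x hx => hrB (closedBall_subset_ball hy hx)
  have hyb : p + y ∈ closedBall p ‖y‖ := by simp [mem_closedBall, dist_eq_norm]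
  refine ⟨(hmem _ hyb).2, ?_⟩
  have h3 := (convex_closedBall p ‖y‖).norm_image_sub_le_of_norm_fderiv_le' (𝕜 := ℝ) (f := ρ)
    (φ := fderiv ℝ ρ p) (C := K * ‖y‖) (x := p) (y := p + y)
    (fun x hx => (hρ.differentiableOn (by simp)).differentiableAt (hU.mem_nhds (hmem x hx).2))
    (fun x hx => by
      have h4 := hK.dist_le_mul x (hmem x hx).1 p (hrB (mem_ball_self hr)).1
      rw [dist_eq_norm, dist_eq_norm] at h4
      rw [mem_closedBall, dist_eq_norm] at hx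
      refine h4.trans ?_
      gcongr)
    (mem_closedBall_self (norm_nonneg _)) hyb
  rw [add_sub_cancel_left, hρp, sub_zero, Real.norm_eq_abs, abs_le] at h3
  nlinarith [h3.2, sq_nonneg ‖y‖]

/-- second derivative along a complex line -/
lemma second_deriv_line {U : Set (EE n)} {ρ : EE n → ℝ} (hU : IsOpen U) {p : EE n} (hpU : p ∈ U)
    (hρ : ContDiffOn ℝ ∞ ρ U) (w : EE n) (ζ : ℂ) :
    iteratedFDeriv ℝ 2 (fun ζ : ℂ => ρ (p + ζ • w)) 0 ![ζ, ζ] = iteratedFDeriv ℝ 2 ρ p ![ζ • w, ζ • w] := by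
  set T : ℂ →L[ℝ] EE n := (ContinuousLinearMap.toSpanSingleton ℂ w).restrictScalars ℝ with hT
  have hTap : ∀ ζ : ℂ, T ζ = ζ • w := fun ζ => rfl
  set f : EE n → ℝ := fun y => ρ (p + y) with hf
  set s : Set (EE n) := {y | p + y ∈ U} with hs
  have hso : IsOpen s := hU.preimage (by fun_prop)
  have hfs : ContDiffOn ℝ ∞ f s := hρ.comp (by fun_prop) (fun y hy => hy)
  have h0s : T 0 ∈ s := by simp [hs, hpU]
  have h1 := T.iteratedFDerivWithin_comp_right hfs hso.uniqueDiffOn (hso.preimage T.continuous).uniqueDiffOn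
    h0s (i := 2) ENat.LEInfty.out
  rw [iteratedFDerivWithin_of_isOpen 2 (hso.preimage T.continuous) h0s,
    iteratedFDerivWithin_of_isOpen 2 hso h0s, map_zero, hf, iteratedFDeriv_comp_add_left, add_zero] at h1
  have h2 : (fun ζ : ℂ => ρ (p + ζ • w)) = (fun y => ρ (p + y)) ∘ ⇑T := rfl
  rw [h2, h1, ContinuousMultilinearMap.compContinuousLinearMap_apply]
  congr 1
  funext i
  fin_cases i <;> rfl

theorem main (D : Set (EE n)) (hDo : IsOpen D) (hDc : Convex ℝ D)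
    (p : EE n) (hp : p ∈ frontier D) (U : Set (EE n)) (ρ : EE n → ℝ) (hU : IsOpen U) (hpU : p ∈ U)
    (hρ : ContDiffOn ℝ ∞ ρ U) (hdρ : fderiv ℝ ρ p ≠ 0) (hDρ : ∀ z ∈ U, z ∈ D ↔ ρ z < 0)
    (w : EE n) (hw0 : w ≠ 0) (htype : ∃ k : ℕ, 1 ≤ k ∧ iteratedFDeriv ℝ k (fun ζ : ℂ => ρ (p + ζ • w)) 0 ≠ 0)
    (z : ℕ → EE n) (hz : ∀ k, z k ∈ D) (hzp : Tendsto z atTop (𝓝 p)) (C : ℝ)
    (hC : ∀ k, ‖z k - p‖ ^ 2 ≤ C * Metric.infDist (z k) (frontier D))
    (hsq : ∀ ε : ℝ, 0 < ε → ∀ᶠ k in atTop, ∃ f : EE n → EE n, DifferentiableOn ℂ f D ∧ Set.InjOn f D ∧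
      Set.MapsTo f D (Metric.ball 0 1) ∧ f (z k) = 0 ∧ Metric.ball 0 (1 - ε) ⊆ f '' D)
    (hw1 : fderiv ℝ ρ p w = 0) (hw2 : fderiv ℝ ρ p (Complex.I • w) = 0) :
    0 < iteratedFDeriv ℝ 2 ρ p ![w, w] + iteratedFDeriv ℝ 2 ρ p ![Complex.I • w, Complex.I • w] := by
  by_contra hcon
  push Not at hcon
  have hpcl : p ∈ closure D := frontier_subset_closure hp
  have hpD : p ∉ D := by
    have := hDo.frontier_eq ▸ hp
    exact this.2
  have hρd : DifferentiableAt ℝ ρ p := (hρ.differentiableOn (by simp)).differentiableAt (hU.mem_nhds hpU)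
  have hρp : ρ p = 0 := by
    apply le_antisymm
    · by_contra h
      push Not at h
      have h1 : ∀ᶠ x in 𝓝 p, 0 < ρ x := hρd.continuousAt.eventually (lt_mem_nhds h)
      have h2 : ∃ᶠ x in 𝓝 p, x ∈ D := mem_closure_iff_frequently.1 hpcl
      obtain ⟨x, hx1, hx2, hx3⟩ := (h2.and_eventually (h1.and (hU.mem_nhds hpU))).exists
      have := (hDρ x hx3).1 hx1
      linarith
    · by_contra h
      push Not at h
      exact hpD ((hDρ p hpU).2 h)
  set l := fderiv ℝ ρ p with hl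
  set Λ : EE n →L[ℂ] ℂ := StrongDual.extendRCLike (𝕜 := ℂ) l with hΛ
  have hre : ∀ x, (Λ x).re = l x := fun x => StrongDual.re_extendRCLike_apply (𝕜 := ℂ) l x
  have hΛw : Λ w = 0 := by
    rw [hΛ, StrongDual.extendRCLike_apply]
    have : (RCLike.I : ℂ) = Complex.I := rfl
    rw [this, hw2, hw1]
    simp
  obtain ⟨a, ha⟩ : ∃ a, Λ a = 1 := by
    obtain ⟨v, hv⟩ : ∃ v, l v ≠ 0 := by
      by_contra h
      push Not at h
      exact hdρ (ContinuousLinearMap.ext h)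
    have hΛv : Λ v ≠ 0 := by
      intro h
      apply hv
      rw [← hre, h]; rfl
    exact ⟨(Λ v)⁻¹ • v, by rw [map_smul, smul_eq_mul, inv_mul_cancel₀ hΛv]⟩
  have hla : l a = 1 := by rw [← hre, ha]; rfl
  have ha0 : a ≠ 0 := by rintro rfl; simp at ha
  have hapos : 0 < ‖a‖ := norm_pos_iff.2 ha0
  have hsc : ∀ (r : ℝ) (x : EE n), r • x = (r : ℂ) • x := fun r x => RCLike.real_smul_eq_coe_smul r x
  -- the supporting hyperplane
  have hΛD : ∀ x ∈ D, (Λ (x - p)).re < 0 := by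
    intro x hx
    rw [hre]
    obtain ⟨ε, hε, hεD⟩ := Metric.isOpen_iff.1 hDo x hx
    set s := ε / (2 * ‖a‖) with hs
    have hs0 : 0 < s := by positivity
    have h1 : x + s • a ∈ D := by
      apply hεD
      rw [mem_ball, dist_eq_norm, add_sub_cancel_left, norm_smul, Real.norm_of_nonneg hs0.le, hs]
      have : ε / (2 * ‖a‖) * ‖a‖ = ε / 2 := by field_simp
      rw [this]; linarith
    have h2 := inward_le hDo hDc hpcl hU hpU hDρ hρp hρd.hasFDerivAt h1
    have h3 : x + s • a - p = (x - p) + s • a := by abel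
    rw [h3, map_add, map_smul, ← hl, hla, smul_eq_mul, mul_one] at h2
    linarith
  -- interior paraboloid
  obtain ⟨C₁, hC₁, r₀, hr₀, hpar⟩ := paraboloid hU hpU hρ hρp
  have hP1 : ∀ y : EE n, ‖y‖ < r₀ → (Λ y).re + C₁ * ‖y‖ ^ 2 < 0 → p + y ∈ D := by
    intro y hy h
    obtain ⟨h1, h2⟩ := hpar y hy
    rw [hre] at h
    exact (hDρ _ h1).2 (h2.trans_lt h)
  -- strict differentiability
  have hstrict : HasStrictFDerivAt ρ l p :=
    ((hρ.contDiffAt (hU.mem_nhds hpU)).of_le (by exact_mod_cast le_top : (1 : ℕ∞ω) ≤ _)).hasStrictFDerivAt one_ne_zero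
  have hlit := hstrict.isLittleO.def (c := 1 / (2 * ‖a‖)) (by positivity)
  obtain ⟨r₄, hr₄, hr₄B⟩ := Metric.eventually_nhds_iff_ball.1 hlit
  obtain ⟨r₅, hr₅, hr₅U⟩ := Metric.isOpen_iff.1 hU p hpU
  have hdir : ∀ y : EE n, ∀ t : ℝ, 0 ≤ t → ‖y - p‖ < r₄ → ‖y - t • a - p‖ < r₄ →
      ρ (y - t • a) ≤ ρ y - t / 2 ∧ ρ y - 3 / 2 * t ≤ ρ (y - t • a) := by
    intro y t ht h1 h2
    have h3 := hr₄B (y - t • a, y) (by
      rw [mem_ball, Prod.dist_eq, max_lt_iff, dist_eq_norm, dist_eq_norm]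
      exact ⟨h2, h1⟩)
    simp only at h3
    have h4 : y - t • a - y = -(t • a) := by abel
    rw [h4, map_neg, map_smul, hla, smul_eq_mul, mul_one, norm_neg, norm_smul, Real.norm_of_nonneg ht,
      Real.norm_eq_abs, abs_le] at h3
    have h5 : 1 / (2 * ‖a‖) * (t * ‖a‖) = t / 2 := by field_simp
    rw [h5] at h3
    constructor <;> linarith [h3.1, h3.2]
  -- the function on the complex tangent line
  set g : ℂ → ℝ := fun ζ => ρ (p + ζ • w) with hg
  have hgc : ContDiffAt ℝ ∞ g 0 := by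
    have h1 : ContDiffAt ℝ ∞ ρ (p + (0 : ℂ) • w) := by
      rw [zero_smul, add_zero]; exact hρ.contDiffAt (hU.mem_nhds hpU)
    have h2 : ContDiffAt ℝ ∞ (fun ζ : ℂ => p + ζ • w) 0 :=
      contDiffAt_const.add (contDiffAt_id.smul contDiffAt_const)
    exact h1.comp (0 : ℂ) h2
  have hg0 : g 0 = 0 := by simp [hg, hρp]
  have hgpos : ∀ᶠ ζ in 𝓝 (0 : ℂ), 0 ≤ g ζ := by
    have h2 : ContinuousAt (fun ζ : ℂ => p + ζ • w) 0 := by fun_prop
    have h3 : ∀ᶠ ζ in 𝓝 (0 : ℂ), p + ζ • w ∈ U := by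
      refine h2.eventually (hU.mem_nhds ?_)
      simpa using hpU
    filter_upwards [h3] with ζ hζ
    by_contra h
    push Not at h
    have h4 := (hDρ _ hζ).2 h
    have h5 := hΛD _ h4
    rw [add_sub_cancel_left, map_smul, hΛw] at h5
    simp at h5
  obtain ⟨m, hm1, hmlow, ⟨C₂, hC₂, r₆, hr₆, hup⟩, hdiag, ζ₀, hζ₀, c₂, hc₂, r₇, hr₇, hlow⟩ :=
    order_lemma hgc hg0 hgpos htype
  -- the order is at least three
  have hm3 : 3 ≤ m := by
    by_contra hlt
    push Not at hlt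
    interval_cases m
    · -- order one
      have h1 := hdiag (-ζ₀)
      rw [iteratedFDeriv_one_apply] at h1 hζ₀
      rw [map_neg] at h1
      linarith
    · -- order two
      have hB : ∀ x : ℂ, iteratedFDeriv ℝ 2 g 0 (fun _ => x) = fderiv ℝ (fderiv ℝ g) 0 x x := by
        intro x
        rw [iteratedFDeriv_two_apply]
      have hBe : ∀ x : ℂ, iteratedFDeriv ℝ 2 g 0 ![x, x] = fderiv ℝ (fderiv ℝ g) 0 x x := by
        intro x
        rw [iteratedFDeriv_two_apply]; rfl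
      have e1 : fderiv ℝ (fderiv ℝ g) 0 1 1 = iteratedFDeriv ℝ 2 ρ p ![w, w] := by
        rw [← hBe, hg, second_deriv_line hU hpU hρ, one_smul]
      have e2 : fderiv ℝ (fderiv ℝ g) 0 Complex.I Complex.I =
          iteratedFDeriv ℝ 2 ρ p ![Complex.I • w, Complex.I • w] := by
        rw [← hBe, hg, second_deriv_line hU hpU hρ]
      have hpos : ∀ x : ℂ, 0 ≤ fderiv ℝ (fderiv ℝ g) 0 x x := fun x => by rw [← hB]; exact hdiag x
      have f1 : fderiv ℝ (fderiv ℝ g) 0 1 1 = 0 := by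
        have := hpos 1; have := hpos Complex.I; linarith
      have f2 : fderiv ℝ (fderiv ℝ g) 0 Complex.I Complex.I = 0 := by
        have := hpos 1; have := hpos Complex.I; linarith
      set b := fderiv ℝ (fderiv ℝ g) 0 1 Complex.I + fderiv ℝ (fderiv ℝ g) 0 Complex.I 1 with hb
      have hexp : ∀ s t : ℝ, fderiv ℝ (fderiv ℝ g) 0 (s • (1 : ℂ) + t • Complex.I) (s • (1 : ℂ) + t • Complex.I) = s * t * b := by
        intro s t
        simp only [map_add, map_smul, add_apply, smul_apply, smul_eq_mul]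
        rw [f1, f2, hb]; ring
      have hb0 : b = 0 := by
        have h1 := hpos ((1 : ℝ) • (1 : ℂ) + (1 : ℝ) • Complex.I)
        have h2 := hpos ((1 : ℝ) • (1 : ℂ) + (-1 : ℝ) • Complex.I)
        rw [hexp] at h1 h2
        linarith
      have h3 : ζ₀ = ζ₀.re • (1 : ℂ) + ζ₀.im • Complex.I := by
        rw [Complex.real_smul, Complex.real_smul, mul_one]
        exact (Complex.re_add_im ζ₀).symm
      rw [hB, h3, hexp, hb0, mul_zero] at hζ₀
      exact lt_irrefl _ hζ₀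
  -- the exponent
  have hmR : (0 : ℝ) < m := by exact_mod_cast hm1
  have hm3R : (3 : ℝ) ≤ m := by exact_mod_cast hm3
  set γ : ℝ := 1 / m with hγ
  have hγ0 : 0 < γ := by positivity
  have hγ2 : γ < 1 / 2 := by
    rw [hγ, div_lt_div_iff₀ hmR two_pos]; linarith
  have hpow : ∀ x : ℝ, 0 ≤ x → (x ^ γ) ^ m = x := by
    intro x hx
    rw [← Real.rpow_natCast (x ^ γ) m, ← Real.rpow_mul hx, hγ, one_div, inv_mul_cancel₀ hmR.ne',
      Real.rpow_one]
  have hwpos : 0 < ‖w‖ := norm_pos_iff.2 hw0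
  set r₄' := min r₄ r₅ with hr₄'
  have hr₄'0 : 0 < r₄' := lt_min hr₄ hr₅
  -- points near p
  have hnear : ∀ η : ℂ, ∀ t : ℝ, 0 ≤ t → ‖η‖ < r₄' / (2 * ‖w‖) → t < r₄' / (2 * ‖a‖) →
      p + η • w - t • a ∈ U ∧ ρ (p + η • w - t • a) ≤ g η - t / 2 ∧
        g η - 3 / 2 * t ≤ ρ (p + η • w - t • a) := by
    intro η t ht h1 h2
    rw [lt_div_iff₀ (by positivity)] at h1 h2
    have h3 : ‖p + η • w - p‖ < r₄' := by
      rw [add_sub_cancel_left, norm_smul]; linarith [norm_nonneg η]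
    have h4 : ‖p + η • w - t • a - p‖ < r₄' := by
      have : p + η • w - t • a - p = η • w - t • a := by abel
      rw [this]
      calc _ ≤ ‖η • w‖ + ‖t • a‖ := norm_sub_le _ _
        _ = ‖η‖ * ‖w‖ + t * ‖a‖ := by rw [norm_smul, norm_smul, Real.norm_of_nonneg ht]
        _ < r₄' := by linarith
    have h5 := hdir (p + η • w) t ht (h3.trans_le (min_le_left _ _)) (h4.trans_le (min_le_left _ _))
    refine ⟨?_, h5⟩
    apply hr₅U
    rw [mem_ball, dist_eq_norm]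
    exact h4.trans_le (min_le_right _ _)
  set r₂ := min r₆ (min (r₄' / (2 * ‖w‖)) (r₄' / (2 * ‖a‖))) with hr₂
  have hr₂0 : 0 < r₂ := by positivity
  have hP2 : ∀ η : ℂ, ∀ t : ℝ, ‖η‖ < r₂ → 0 < t → t < r₂ → ‖η‖ < (t / (2 * C₂)) ^ γ →
      p + η • w - (t : ℂ) • a ∈ D := by
    intro η t h1 h2 h3 h4
    rw [← hsc]
    obtain ⟨k1, k2, k3⟩ := hnear η t h2.le
      (h1.trans_le ((min_le_right _ _).trans (min_le_left _ _)))
      (h3.trans_le ((min_le_right _ _).trans (min_le_right _ _)))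
    refine (hDρ _ k1).2 ?_
    have h5 := hup η (h1.trans_le (min_le_left _ _))
    have h6 : ‖η‖ ^ m < t / (2 * C₂) := by
      have := pow_lt_pow_left₀ h4 (norm_nonneg _) (by omega : m ≠ 0)
      rwa [hpow _ (by positivity)] at this
    have h7 : C₂ * ‖η‖ ^ m < t / 2 := by
      have := mul_lt_mul_of_pos_left h6 hC₂
      have e : C₂ * (t / (2 * C₂)) = t / 2 := by field_simp
      rwa [e] at this
    linarith
  set r₃ := min r₇ (min (r₄' / (2 * ‖w‖ * (‖ζ₀‖ + 1))) (r₄' / (2 * ‖a‖))) with hr₃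
  have hr₃0 : 0 < r₃ := by positivity
  have hP3 : ∀ s t : ℝ, 0 < s → s < r₃ → 0 < t → t < r₃ → s = (2 * t / c₂) ^ γ →
      p + ((s : ℂ) * ζ₀) • w - (t : ℂ) • a ∉ D := by
    intro s t h1 h2 h3 h4 h5 hin
    rw [← hsc] at hin
    have h2' : s < r₄' / (2 * ‖w‖ * (‖ζ₀‖ + 1)) := h2.trans_le ((min_le_right _ _).trans (min_le_left _ _))
    rw [lt_div_iff₀ (by positivity)] at h2'
    obtain ⟨k1, k2, k3⟩ := hnear ((s : ℂ) * ζ₀) t h3.le (by
      rw [norm_mul, Complex.norm_real, Real.norm_of_nonneg h1.le, lt_div_iff₀ (by positivity)]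
      nlinarith [mul_pos h1 hwpos, norm_nonneg ζ₀]) (h4.trans_le ((min_le_right _ _).trans (min_le_right _ _)))
    have h6 := (hDρ _ k1).1 hin
    have h7 := hlow s h1 (h2.trans_le (min_le_left _ _))
    have h8 : s • ζ₀ = (s : ℂ) * ζ₀ := by rw [Complex.real_smul]
    rw [h8] at h7
    have h9 : c₂ * s ^ m = 2 * t := by
      rw [h5, hpow _ (by positivity)]; field_simp
    linarith
  -- convexity with complex scalars
  have hconv : ∀ x ∈ D, ∀ y ∈ D, ∀ t : ℝ, 0 ≤ t → t ≤ 1 →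
      ((1 - t : ℝ) : ℂ) • x + ((t : ℝ) : ℂ) • y ∈ D := by
    intro x hx y hy t ht0 ht1
    rw [← hsc, ← hsc]
    exact hDc hx hy (by linarith) ht0 (by ring)
  have hsup : ∀ x, x ∉ D → ∃ L : EE n →L[ℂ] ℂ, ∀ y ∈ D, (L y).re < (L x).re := by
    intro x hx
    exact RCLike.geometric_hahn_banach_open_point (𝕜 := ℂ) hDc hDo hx
  -- distances
  have hδ : ∀ k, 0 < Metric.infDist (z k) (frontier D) := by
    intro k
    rw [← isClosed_frontier.notMem_iff_infDist_pos ⟨p, hp⟩]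
    intro h
    rw [hDo.frontier_eq] at h
    exact h.2 (hz k)
  have hball : ∀ k, ball (z k) (Metric.infDist (z k) (frontier D)) ⊆ D := by
    intro k y hy
    by_contra hyD
    have hpc : IsPreconnected (ball (z k) (Metric.infDist (z k) (frontier D))) :=
      (convex_ball _ _).isPreconnected
    have hnf : ∀ q ∈ ball (z k) (Metric.infDist (z k) (frontier D)), q ∉ frontier D := by
      intro q hq1 hq2
      have h1 := Metric.infDist_le_dist_of_mem (x := z k) hq2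
      rw [mem_ball, dist_comm] at hq1
      linarith
    have hycl : y ∉ closure D := by
      intro h
      apply hnf y hy
      rw [hDo.frontier_eq]
      exact ⟨h, hyD⟩
    obtain ⟨q, _, hq1, hq2⟩ := hpc D (closure D)ᶜ hDo isClosed_closure.isOpen_compl (by
      intro q hq
      by_cases hqD : q ∈ D
      · exact Or.inl hqD
      · refine Or.inr fun h => hnf q hq ?_
        rw [hDo.frontier_eq]
        exact ⟨h, hqD⟩) ⟨z k, mem_ball_self (hδ k), hz k⟩ ⟨y, hy, hycl⟩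
    exact hq2 (subset_closure hq1)
  exact core hDo hconv hsup hΛD ha hC₁ hr₀ hP1 hγ0 hγ2 hC₂ hr₂0 hP2 hc₂ hr₃0 hP3 hz hzp hδ hball hC hsq

end Pool.Agent.Squeeze
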